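import Mathlib

/-!
BN-pairs: Bruhat decomposition, uniqueness and the gate property.
-/

namespace Run7.h98

universe u

/-- A BN-pair (Tits system) in a group `G`: subgroups `B` and `N` generating `G`, with `B ∩ N`
normal in `N`, and representatives `s i` in `N` of involutive generators of `N / (B ∩ N)`, such
that `s i * B * n` is contained in `B n B ∪ B (s i n) B` for all `n` in `N`, and `s i` does not
normalise `B`. -/
structure BNPair (G : Type u) [Group G] (ι : Type) where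
  B : Subgroup G
  N : Subgroup G
  s : ι → G
  sup_eq_top : B ⊔ N = ⊤
  conj_mem : ∀ n ∈ N, ∀ t ∈ B ⊓ N, n * t * n⁻¹ ∈ B ⊓ N
  closure_eq : Subgroup.closure (Set.range s) ⊔ (B ⊓ N) = N
  sq_mem : ∀ i, s i * s i ∈ B
  mul_mem : ∀ i, ∀ b ∈ B, ∀ n ∈ N,
    (∃ b₁ ∈ B, ∃ b₂ ∈ B, s i * b * n = b₁ * n * b₂) ∨
    (∃ b₁ ∈ B, ∃ b₂ ∈ B, s i * b * n = b₁ * (s i * n) * b₂)
  not_le : ∀ i, ∃ b ∈ B, s i * b * (s i)⁻¹ ∉ B

namespace BNPair

variable {G : Type u} [Group G] {ι : Type} (P : BNPair G ι)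

/-- The standard parabolic subgroup attached to a set of simple reflections. -/
def parabolic (J : Set ι) : Subgroup G := P.B ⊔ Subgroup.closure (P.s '' J)

/-- The preimage in `N` of the standard parabolic subgroup of the Weyl group. -/
def weyl (J : Set ι) : Subgroup G := (P.B ⊓ P.N) ⊔ Subgroup.closure (P.s '' J)

/-- The number of double cosets `W_J \ W / W_M` in the Weyl group `W = N / (B ∩ N)`. -/
noncomputable def weylDoubleCosets (J M : Set ι) : ℕ :=
  Nat.card (DoubleCoset.Quotient (((P.weyl J).subgroupOf P.N : Subgroup P.N) : Set P.N)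
    ((P.weyl M).subgroupOf P.N : Subgroup P.N))

lemma s_mem (i : ι) : P.s i ∈ P.N := by
  rw [← P.closure_eq]
  exact Subgroup.mem_sup_left (Subgroup.subset_closure ⟨i, rfl⟩)

lemma sq_mem_T (i : ι) : P.s i * P.s i ∈ P.B ⊓ P.N :=
  ⟨P.sq_mem i, P.N.mul_mem (P.s_mem i) (P.s_mem i)⟩

lemma B_le (J : Set ι) : P.B ≤ P.parabolic J := le_sup_left

lemma s_mem_parabolic {J : Set ι} {i : ι} (hi : i ∈ J) : P.s i ∈ P.parabolic J :=
  Subgroup.mem_sup_right (Subgroup.subset_closure ⟨i, hi, rfl⟩)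

lemma parabolic_mono {J M : Set ι} (h : J ⊆ M) : P.parabolic J ≤ P.parabolic M :=
  sup_le_sup_left (Subgroup.closure_mono (Set.image_mono h)) _

lemma weyl_le_parabolic (J : Set ι) : P.weyl J ≤ P.parabolic J :=
  sup_le_sup_right inf_le_left _

lemma weyl_le_N (J : Set ι) : P.weyl J ≤ P.N := by
  refine sup_le inf_le_right ?_
  rw [Subgroup.closure_le]
  rintro _ ⟨i, _, rfl⟩
  exact P.s_mem i

lemma conj_mem' {n : G} (hn : n ∈ P.N) {t : G} (ht : t ∈ P.B ⊓ P.N) :
    n⁻¹ * t * n ∈ P.B ⊓ P.N := by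
  have := P.conj_mem n⁻¹ (P.N.inv_mem hn) t ht
  rwa [inv_inv] at this

/-- The relation of lying in the same double coset of `B`. -/
def InC (g n : G) : Prop := ∃ b₁ ∈ P.B, ∃ b₂ ∈ P.B, g = b₁ * n * b₂

variable {P}

lemma InC.symm {g n : G} (h : P.InC g n) : P.InC n g := by
  obtain ⟨b₁, h₁, b₂, h₂, h⟩ := h
  exact ⟨b₁⁻¹, P.B.inv_mem h₁, b₂⁻¹, P.B.inv_mem h₂, by rw [h]; group⟩

lemma InC.refl (g : G) : P.InC g g :=
  ⟨1, P.B.one_mem, 1, P.B.one_mem, by group⟩

lemma InC.trans {g h n : G} (h1 : P.InC g h) (h2 : P.InC h n) : P.InC g n := by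
  obtain ⟨a, ha, a', ha', h1⟩ := h1
  obtain ⟨c, hc, c', hc', h2⟩ := h2
  exact ⟨a * c, P.B.mul_mem ha hc, c' * a', P.B.mul_mem hc' ha', by rw [h1, h2]; group⟩

lemma InC.mul_left {b : G} (hb : b ∈ P.B) {g n : G} (h : P.InC g n) : P.InC (b * g) n := by
  obtain ⟨b₁, h₁, b₂, h₂, h⟩ := h
  exact ⟨b * b₁, P.B.mul_mem hb h₁, b₂, h₂, by rw [h]; group⟩

lemma InC.mul_right {b : G} (hb : b ∈ P.B) {g n : G} (h : P.InC g n) : P.InC (g * b) n := by
  obtain ⟨b₁, h₁, b₂, h₂, h⟩ := h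
  exact ⟨b₁, h₁, b₂ * b, P.B.mul_mem h₂ hb, by rw [h]; group⟩

lemma InC.inv {g n : G} (h : P.InC g n) : P.InC g⁻¹ n⁻¹ := by
  obtain ⟨b₁, h₁, b₂, h₂, h⟩ := h
  exact ⟨b₂⁻¹, P.B.inv_mem h₂, b₁⁻¹, P.B.inv_mem h₁, by rw [h]; group⟩

lemma inC_mul_T {g n t : G} (ht : t ∈ P.B) : P.InC g (n * t) ↔ P.InC g n :=
  ⟨fun h => h.trans ((InC.refl n).mul_right ht),
    fun h => h.trans ((InC.refl n).mul_right ht).symm⟩

variable (P)

lemma left_mul {i : ι} {b : G} (hb : b ∈ P.B) {n : G} (hn : n ∈ P.N) :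
    P.InC (P.s i * b * n) n ∨ P.InC (P.s i * b * n) (P.s i * n) := P.mul_mem i b hb n hn

lemma sinv_eq (i : ι) : (P.s i)⁻¹ = P.s i * (P.s i * P.s i)⁻¹ := by group

lemma left_inv_mul {i : ι} {b : G} (hb : b ∈ P.B) {n : G} (hn : n ∈ P.N) :
    P.InC ((P.s i)⁻¹ * b * n) n ∨ P.InC ((P.s i)⁻¹ * b * n) (P.s i * n) := by
  have h := P.left_mul (i := i) (P.B.mul_mem (P.B.inv_mem (P.sq_mem i)) hb) hn
  have e : P.s i * ((P.s i * P.s i)⁻¹ * b) * n = (P.s i)⁻¹ * b * n := by group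
  rwa [e] at h

lemma right_mul {i : ι} {b : G} (hb : b ∈ P.B) {n : G} (hn : n ∈ P.N) :
    P.InC (n * b * P.s i) n ∨ P.InC (n * b * P.s i) (n * P.s i) := by
  rcases P.left_inv_mul (i := i) (P.B.inv_mem hb) (P.N.inv_mem hn) with h | h
  · left
    have h' := h.inv
    have e : ((P.s i)⁻¹ * b⁻¹ * n⁻¹)⁻¹ = n * b * P.s i := by group
    rwa [e, inv_inv] at h'
  · right
    have h' := h.inv
    have e : ((P.s i)⁻¹ * b⁻¹ * n⁻¹)⁻¹ = n * b * P.s i := by group
    have e2 : (P.s i * n⁻¹)⁻¹ = (n * P.s i) * (P.s i * P.s i)⁻¹ := by group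
    rw [e, e2, inC_mul_T (P.B.inv_mem (P.sq_mem i))] at h'
    exact h'

lemma closure_union_eq_top : Subgroup.closure (Set.range P.s ∪ (P.B : Set G)) = ⊤ := by
  rw [eq_top_iff, ← P.sup_eq_top]
  refine sup_le ?_ ?_
  · intro b hb
    exact Subgroup.subset_closure (Or.inr hb)
  · rw [← P.closure_eq]
    refine sup_le ?_ ?_
    · exact Subgroup.closure_mono Set.subset_union_left
    · intro t ht
      exact Subgroup.subset_closure (Or.inr ht.1)

/-- The Bruhat decomposition. -/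
lemma bruhat (g : G) : ∃ n ∈ P.N, P.InC g n := by
  have hg : g ∈ Subgroup.closure (Set.range P.s ∪ (P.B : Set G)) := by
    rw [P.closure_union_eq_top]; trivial
  induction hg using Subgroup.closure_induction_left with
  | one => exact ⟨1, P.N.one_mem, InC.refl 1⟩
  | mul_left x hx y _ ih =>
    obtain ⟨n, hn, b₁, h₁, b₂, h₂, h⟩ := ih
    rcases hx with ⟨i, rfl⟩ | hx
    · rcases P.left_mul (i := i) h₁ hn with h' | h'
      · exact ⟨n, hn, by
          have := h'.mul_right h₂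
          rwa [show P.s i * b₁ * n * b₂ = P.s i * y from by rw [h]; group] at this⟩
      · exact ⟨P.s i * n, P.N.mul_mem (P.s_mem i) hn, by
          have := h'.mul_right h₂
          rwa [show P.s i * b₁ * n * b₂ = P.s i * y from by rw [h]; group] at this⟩
    · exact ⟨n, hn, InC.mul_left hx ⟨b₁, h₁, b₂, h₂, h⟩⟩
  | inv_mul_cancel x hx y _ ih =>
    obtain ⟨n, hn, b₁, h₁, b₂, h₂, h⟩ := ih
    rcases hx with ⟨i, rfl⟩ | hx
    · rcases P.left_inv_mul (i := i) h₁ hn with h' | h'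
      · exact ⟨n, hn, by
          have := h'.mul_right h₂
          rwa [show (P.s i)⁻¹ * b₁ * n * b₂ = (P.s i)⁻¹ * y from by rw [h]; group] at this⟩
      · exact ⟨P.s i * n, P.N.mul_mem (P.s_mem i) hn, by
          have := h'.mul_right h₂
          rwa [show (P.s i)⁻¹ * b₁ * n * b₂ = (P.s i)⁻¹ * y from by rw [h]; group] at this⟩
    · exact ⟨n, hn, InC.mul_left (P.B.inv_mem hx) ⟨b₁, h₁, b₂, h₂, h⟩⟩

/-! ### Words and length -/

/-- `n` is represented by a word of length `m`. -/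
def IsWd (m : ℕ) (n : G) : Prop :=
  ∃ l : List ι, l.length = m ∧ ∃ t ∈ P.B ⊓ P.N, n = (l.map P.s).prod * t

lemma list_prod_mem (l : List ι) : (l.map P.s).prod ∈ P.N := by
  apply Subgroup.list_prod_mem
  intro x hx
  obtain ⟨i, _, rfl⟩ := List.mem_map.1 hx
  exact P.s_mem i

lemma isWd_cons {m : ℕ} {n : G} (h : P.IsWd m n) (i : ι) : P.IsWd (m + 1) (P.s i * n) := by
  obtain ⟨l, hl, t, ht, rfl⟩ := h
  exact ⟨i :: l, by simp [hl], t, ht, by simp [mul_assoc]⟩

lemma isWd_mul_T {m : ℕ} {n : G} (h : P.IsWd m n) {t : G} (ht : t ∈ P.B ⊓ P.N) :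
    P.IsWd m (n * t) := by
  obtain ⟨l, hl, t', ht', rfl⟩ := h
  exact ⟨l, hl, t' * t, (P.B ⊓ P.N).mul_mem ht' ht, by group⟩

lemma isWd_T_mul {m : ℕ} {n : G} (h : P.IsWd m n) {t : G} (ht : t ∈ P.B ⊓ P.N) :
    P.IsWd m (t * n) := by
  obtain ⟨l, hl, t', ht', rfl⟩ := h
  refine ⟨l, hl, ((l.map P.s).prod⁻¹ * t * (l.map P.s).prod) * t',
    (P.B ⊓ P.N).mul_mem (P.conj_mem' (P.list_prod_mem l) ht) ht', by group⟩

lemma isWd_concat {m : ℕ} {n : G} (h : P.IsWd m n) (i : ι) : P.IsWd (m + 1) (n * P.s i) := by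
  obtain ⟨l, hl, t, ht, rfl⟩ := h
  refine ⟨l ++ [i], by simp [hl], (P.s i)⁻¹ * t * P.s i, P.conj_mem' (P.s_mem i) ht, ?_⟩
  simp only [List.map_append, List.map_cons, List.map_nil, List.prod_append, List.prod_cons,
    List.prod_nil]
  group

lemma exists_isWd {n : G} (hn : n ∈ P.N) : ∃ m, P.IsWd m n := by
  have hn' : n ∈ Subgroup.closure (Set.range P.s ∪ ((P.B ⊓ P.N : Subgroup G) : Set G)) := by
    rw [Subgroup.closure_union, Subgroup.closure_eq, P.closure_eq]
    exact hn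
  induction hn' using Subgroup.closure_induction_left with
  | one => exact ⟨0, [], rfl, 1, (P.B ⊓ P.N).one_mem, by simp⟩
  | mul_left x hx y hy ih =>
    have hyN : y ∈ P.N := by
      rw [Subgroup.closure_union, Subgroup.closure_eq, P.closure_eq] at hy
      exact hy
    obtain ⟨m, hm⟩ := ih hyN
    rcases hx with ⟨i, rfl⟩ | hx
    · exact ⟨m + 1, P.isWd_cons hm i⟩
    · exact ⟨m, P.isWd_T_mul hm hx⟩
  | inv_mul_cancel x hx y hy ih =>
    have hyN : y ∈ P.N := by
      rw [Subgroup.closure_union, Subgroup.closure_eq, P.closure_eq] at hy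
      exact hy
    obtain ⟨m, hm⟩ := ih hyN
    rcases hx with ⟨i, rfl⟩ | hx
    · refine ⟨m + 1, ?_⟩
      have e : (P.s i)⁻¹ * y = P.s i * ((P.s i * P.s i)⁻¹ * y) := by group
      rw [e]
      exact P.isWd_cons (P.isWd_T_mul hm ((P.B ⊓ P.N).inv_mem (P.sq_mem_T i))) i
    · exact ⟨m, P.isWd_T_mul hm ((P.B ⊓ P.N).inv_mem hx)⟩

/-- The length of an element of `N`. -/
noncomputable def len (n : G) : ℕ := sInf {m | P.IsWd m n}

lemma isWd_len {n : G} (hn : n ∈ P.N) : P.IsWd (P.len n) n :=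
  Nat.sInf_mem (P.exists_isWd hn)

lemma len_le {m : ℕ} {n : G} (h : P.IsWd m n) : P.len n ≤ m := Nat.sInf_le h

lemma len_mul_T_le {n : G} (hn : n ∈ P.N) {t : G} (ht : t ∈ P.B ⊓ P.N) :
    P.len (n * t) ≤ P.len n := P.len_le (P.isWd_mul_T (P.isWd_len hn) ht)

lemma len_mul_T {n : G} (hn : n ∈ P.N) {t : G} (ht : t ∈ P.B ⊓ P.N) :
    P.len (n * t) = P.len n := by
  apply le_antisymm (P.len_mul_T_le hn ht)
  have := P.len_mul_T_le (P.N.mul_mem hn ht.2) ((P.B ⊓ P.N).inv_mem ht)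
  rwa [mul_inv_cancel_right] at this

lemma len_s_mul_le {n : G} (hn : n ∈ P.N) (i : ι) : P.len (P.s i * n) ≤ P.len n + 1 :=
  P.len_le (P.isWd_cons (P.isWd_len hn) i)

lemma len_mul_s_le {n : G} (hn : n ∈ P.N) (i : ι) : P.len (n * P.s i) ≤ P.len n + 1 :=
  P.len_le (P.isWd_concat (P.isWd_len hn) i)

lemma len_le_s_mul {n : G} (hn : n ∈ P.N) (i : ι) : P.len n ≤ P.len (P.s i * n) + 1 := by
  have h1 := P.len_s_mul_le (P.N.mul_mem (P.s_mem i) hn) i
  have e : P.s i * (P.s i * n) = n * (n⁻¹ * (P.s i * P.s i) * n) := by group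
  rw [e, P.len_mul_T hn (P.conj_mem' hn (P.sq_mem_T i))] at h1
  exact h1

lemma exists_left {n : G} (hn : n ∈ P.N) {m : ℕ} (h : P.len n = m + 1) :
    ∃ i, ∃ n' ∈ P.N, n = P.s i * n' ∧ P.len n' = m := by
  obtain ⟨l, hl, t, ht, hnt⟩ := P.isWd_len hn
  rw [h] at hl
  cases l with
  | nil => simp at hl
  | cons i l =>
    have hl' : l.length = m := by simpa using hl
    have hn' : (l.map P.s).prod * t ∈ P.N := P.N.mul_mem (P.list_prod_mem l) ht.2
    refine ⟨i, (l.map P.s).prod * t, hn', by rw [hnt]; simp [mul_assoc], ?_⟩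
    apply le_antisymm
    · exact P.len_le ⟨l, hl', t, ht, rfl⟩
    · have h1 := P.len_s_mul_le hn' i
      have e : P.s i * ((l.map P.s).prod * t) = n := by rw [hnt]; simp [mul_assoc]
      rw [e, h] at h1
      omega

lemma len_eq_zero {n : G} (hn : n ∈ P.N) (h : P.len n = 0) : n ∈ P.B ⊓ P.N := by
  obtain ⟨l, hl, t, ht, hnt⟩ := P.isWd_len hn
  rw [h, List.length_eq_zero_iff] at hl
  subst hl
  rw [hnt]
  simpa using ht

/-- Uniqueness in the Bruhat decomposition, first form. -/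
lemma unique_aux (m : ℕ) : ∀ u ∈ P.N, ∀ v ∈ P.N, P.len u = m → P.len u ≤ P.len v →
    P.InC u v → ∃ t ∈ P.B ⊓ P.N, v = u * t := by
  induction m with
  | zero =>
    intro u hu v hv h0 _ h
    have hT := P.len_eq_zero hu h0
    obtain ⟨b₁, h₁, b₂, h₂, h⟩ := h
    have hvB : v ∈ P.B := by
      have : v = b₁⁻¹ * u * b₂⁻¹ := by rw [h]; group
      rw [this]
      exact P.B.mul_mem (P.B.mul_mem (P.B.inv_mem h₁) hT.1) (P.B.inv_mem h₂)
    exact ⟨u⁻¹ * v, ⟨P.B.mul_mem (P.B.inv_mem hT.1) hvB, P.N.mul_mem (P.N.inv_mem hu) hv⟩,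
      by group⟩
  | succ m ih =>
    intro u hu v hv hm hle h
    obtain ⟨i, u', hu', rfl, hlen⟩ := P.exists_left hu hm
    obtain ⟨b₁, h₁, b₂, h₂, h⟩ := h
    have e : u' = (P.s i)⁻¹ * b₁ * v * b₂ := by
      have : u' = (P.s i)⁻¹ * (P.s i * u') := by group
      rw [this, h]; group
    rcases P.left_inv_mul (i := i) h₁ hv with h' | h'
    · have h'' := h'.mul_right h₂
      rw [← e] at h''
      obtain ⟨t, ht, hvt⟩ := ih u' hu' v hv hlen (by omega) h''
      have := P.len_mul_T hu' ht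
      rw [← hvt] at this
      omega
    · have h'' := h'.mul_right h₂
      rw [← e] at h''
      have h3 := P.len_le_s_mul hv i
      obtain ⟨t, ht, hvt⟩ := ih u' hu' (P.s i * v) (P.N.mul_mem (P.s_mem i) hv) hlen
        (by omega) h''
      refine ⟨(u'⁻¹ * (P.s i * P.s i)⁻¹ * u') * t,
        (P.B ⊓ P.N).mul_mem (P.conj_mem' hu' ((P.B ⊓ P.N).inv_mem (P.sq_mem_T i))) ht, ?_⟩
      have : v = (P.s i)⁻¹ * (P.s i * v) := by group
      rw [this, hvt]; group

/-- Uniqueness in the Bruhat decomposition. -/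
lemma unique {u v : G} (hu : u ∈ P.N) (hv : v ∈ P.N) (h : P.InC u v) :
    ∃ t ∈ P.B ⊓ P.N, v = u * t := by
  rcases le_total (P.len u) (P.len v) with hle | hle
  · exact P.unique_aux _ u hu v hv rfl hle h
  · obtain ⟨t, ht, huv⟩ := P.unique_aux _ v hv u hu rfl hle h.symm
    exact ⟨t⁻¹, (P.B ⊓ P.N).inv_mem ht, by rw [huv]; group⟩

lemma s_not_mem (i : ι) : P.s i ∉ P.B := by
  intro h
  obtain ⟨b, hb, hn⟩ := P.not_le i
  exact hn (P.B.mul_mem (P.B.mul_mem h hb) (P.B.inv_mem h))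

/-- The gate property, first form. -/
lemma gate_aux (m : ℕ) : ∀ w ∈ P.N, P.len w = m → ∀ i, P.len w ≤ P.len (w * P.s i) →
    ∀ b ∈ P.B, P.InC (w * b * P.s i) (w * P.s i) := by
  induction m with
  | zero =>
    intro w hw h0 i _ b hb
    have hT := P.len_eq_zero hw h0
    refine ⟨w * b * w⁻¹, P.B.mul_mem (P.B.mul_mem hT.1 hb) (P.B.inv_mem hT.1), 1, P.B.one_mem, ?_⟩
    group
  | succ m ih =>
    intro w hw hm i hle b hb
    obtain ⟨j, w', hw', rfl, hlen⟩ := P.exists_left hw hm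
    rcases P.right_mul (i := i) hb hw with h | h
    · exfalso
      have h3 : P.len (P.s j * w' * P.s i) ≤ P.len (w' * P.s i) + 1 := by
        rw [mul_assoc]
        exact P.len_s_mul_le (P.N.mul_mem hw' (P.s_mem i)) j
      have h4 := ih w' hw' hlen i (by omega) b hb
      obtain ⟨b₁, h₁, b₂, h₂, h⟩ := h
      have e : w' * b * P.s i = (P.s j)⁻¹ * b₁ * (P.s j * w') * b₂ := by
        have : w' * b * P.s i = (P.s j)⁻¹ * (P.s j * w' * b * P.s i) := by group
        rw [this, h]; group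
      rcases P.left_inv_mul (i := j) h₁ hw with h' | h'
      · have h5 := h'.mul_right h₂
        rw [← e] at h5
        obtain ⟨t, ht, h6⟩ := P.unique (P.N.mul_mem hw' (P.s_mem i)) hw (h4.symm.trans h5)
        have e2 : P.s j * w' * P.s i = w' * ((P.s i * P.s i) * ((P.s i)⁻¹ * t * P.s i)) := by
          rw [h6]; group
        have h7 := P.len_mul_T hw' ((P.B ⊓ P.N).mul_mem (P.sq_mem_T i)
          (P.conj_mem' (P.s_mem i) ht))
        rw [← e2] at h7
        omega
      · have h5 := h'.mul_right h₂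
        rw [← e] at h5
        have e3 : P.s j * (P.s j * w') = w' * (w'⁻¹ * (P.s j * P.s j) * w') := by group
        rw [e3, inC_mul_T (P.conj_mem' hw' (P.sq_mem_T j)).1] at h5
        obtain ⟨t, ht, h6⟩ := P.unique (P.N.mul_mem hw' (P.s_mem i)) hw' (h4.symm.trans h5)
        apply P.s_not_mem i
        have : P.s i = t⁻¹ := by
          have h7 : w' * (P.s i * t) = w' * 1 := by
            rw [mul_one, ← mul_assoc]; exact h6.symm
          have h8 := mul_left_cancel h7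
          exact eq_inv_of_mul_eq_one_left h8
        rw [this]
        exact P.B.inv_mem ht.1
    · exact h

/-- The gate property: one of the two elements `n`, `n s` is a gate. -/
lemma gate {n : G} (hn : n ∈ P.N) (i : ι) :
    (∀ b ∈ P.B, P.InC (n * b * P.s i) (n * P.s i)) ∨
    (∀ b ∈ P.B, P.InC (n * P.s i * b * P.s i) n) := by
  rcases le_total (P.len n) (P.len (n * P.s i)) with h | h
  · exact Or.inl (P.gate_aux _ n hn rfl i h)
  · right
    have hn' : n * P.s i ∈ P.N := P.N.mul_mem hn (P.s_mem i)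
    have h1 : P.len (n * P.s i * P.s i) = P.len n := by
      rw [mul_assoc]; exact P.len_mul_T hn (P.sq_mem_T i)
    have h2 := P.gate_aux _ (n * P.s i) hn' rfl i (by rw [h1]; exact h)
    intro b hb
    have h3 := h2 b hb
    have e : n * P.s i * P.s i = n * (P.s i * P.s i) := mul_assoc _ _ _
    rw [e, inC_mul_T (P.sq_mem i)] at h3
    exact h3

/-- The rank one parabolic subgroup is `B ∪ B s B`. -/
lemma mem_parabolic_singleton {i : ι} {g : G} (hg : g ∈ P.parabolic {i}) :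
    g ∈ P.B ∨ P.InC g (P.s i) := by
  have hg' : g ∈ Subgroup.closure ({P.s i} ∪ (P.B : Set G)) := by
    rw [Subgroup.closure_union, Subgroup.closure_eq, sup_comm]
    have : P.parabolic {i} = P.B ⊔ Subgroup.closure {P.s i} := by
      unfold parabolic
      rw [Set.image_singleton]
    rwa [this] at hg
  have key : ∀ {y : G}, (y ∈ P.B ∨ P.InC y (P.s i)) →
      (P.s i * y ∈ P.B ∨ P.InC (P.s i * y) (P.s i)) := by
    intro y hy
    rcases hy with hy | hy
    · exact Or.inr ((InC.refl _).mul_right hy)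
    · obtain ⟨b₁, h₁, b₂, h₂, h⟩ := hy
      rcases P.left_mul (i := i) h₁ (P.s_mem i) with h' | h'
      · right
        have := h'.mul_right h₂
        rwa [show P.s i * b₁ * P.s i * b₂ = P.s i * y from by rw [h]; group] at this
      · left
        obtain ⟨c₁, k₁, c₂, k₂, h'⟩ := h'
        have : P.s i * y = c₁ * (P.s i * P.s i) * c₂ * b₂ := by
          rw [← h', h]; group
        rw [this]
        exact P.B.mul_mem (P.B.mul_mem (P.B.mul_mem k₁ (P.sq_mem i)) k₂) h₂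
  have keyB : ∀ {b y : G}, b ∈ P.B → (y ∈ P.B ∨ P.InC y (P.s i)) →
      (b * y ∈ P.B ∨ P.InC (b * y) (P.s i)) := by
    intro b y hb hy
    rcases hy with hy | hy
    · exact Or.inl (P.B.mul_mem hb hy)
    · exact Or.inr (hy.mul_left hb)
  induction hg' using Subgroup.closure_induction_left with
  | one => exact Or.inl P.B.one_mem
  | mul_left x hx y hy ih =>
    have hy' : y ∈ P.parabolic {i} := by
      unfold parabolic
      rw [Subgroup.closure_union, Subgroup.closure_eq, sup_comm] at hy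
      rwa [Set.image_singleton]
    rcases hx with hx | hx
    · rw [Set.mem_singleton_iff] at hx
      subst hx
      exact key (ih hy')
    · exact keyB hx (ih hy')
  | inv_mul_cancel x hx y hy ih =>
    have hy' : y ∈ P.parabolic {i} := by
      unfold parabolic
      rw [Subgroup.closure_union, Subgroup.closure_eq, sup_comm] at hy
      rwa [Set.image_singleton]
    rcases hx with hx | hx
    · rw [Set.mem_singleton_iff] at hx
      subst hx
      have e : (P.s i)⁻¹ * y = P.s i * ((P.s i * P.s i)⁻¹ * y) := by group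
      rw [e]
      exact key (keyB (P.B.inv_mem (P.sq_mem i)) (ih hy'))
    · exact keyB (P.B.inv_mem hx) (ih hy')

/-- The number of double cosets of parabolic subgroups is at most the number of double cosets
in the Weyl group. -/
lemma card_doubleCoset_le [Finite G] (J M : Set ι) :
    Nat.card (DoubleCoset.Quotient (P.parabolic J : Set G) (P.parabolic M)) ≤
      P.weylDoubleCosets J M := by
  classical
  have : Finite (DoubleCoset.Quotient (((P.weyl J).subgroupOf P.N : Subgroup P.N) : Set P.N)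
    ((P.weyl M).subgroupOf P.N : Subgroup P.N)) := Quotient.finite _
  unfold weylDoubleCosets
  let f : DoubleCoset.Quotient (((P.weyl J).subgroupOf P.N : Subgroup P.N) : Set P.N)
      ((P.weyl M).subgroupOf P.N : Subgroup P.N) →
      DoubleCoset.Quotient (P.parabolic J : Set G) (P.parabolic M) :=
    fun q => DoubleCoset.mk _ _ ((q.out : P.N) : G)
  apply Nat.card_le_card_of_surjective f
  intro q
  obtain ⟨n, hn, b₁, h₁, b₂, h₂, h⟩ := P.bruhat q.out
  refine ⟨DoubleCoset.mk _ _ (⟨n, hn⟩ : P.N), ?_⟩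
  obtain ⟨x, y, hx, hy, hxy⟩ := DoubleCoset.mk_out_eq_mul ((P.weyl J).subgroupOf P.N)
    ((P.weyl M).subgroupOf P.N) (⟨n, hn⟩ : P.N)
  show DoubleCoset.mk _ _ (((DoubleCoset.mk _ _ (⟨n, hn⟩ : P.N)).out : P.N) : G) = q
  rw [hxy]
  conv_rhs => rw [← DoubleCoset.out_eq' _ _ q]
  rw [DoubleCoset.eq]
  refine ⟨b₁ * ((x : P.N) : G)⁻¹, ?_, ((y : P.N) : G)⁻¹ * b₂, ?_, ?_⟩
  · exact (P.parabolic J).mul_mem (P.B_le J h₁)
      ((P.parabolic J).inv_mem (P.weyl_le_parabolic J (Subgroup.mem_subgroupOf.1 hx)))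
  · exact (P.parabolic M).mul_mem
      ((P.parabolic M).inv_mem (P.weyl_le_parabolic M (Subgroup.mem_subgroupOf.1 hy)))
      (P.B_le M h₂)
  · rw [h]
    simp only [Subgroup.coe_mul]
    group

end BNPair

end Run7.h98
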