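import Pool.Agent.Run7.h98.BNRep

/-!
The generation inequality for a group with a BN-pair, and the contribution of the torus.
-/

open Module

namespace Run7.h98

universe u v w

section bngen

variable {k : Type u} {G : Type v} {V : Type w} [Field k] [Group G] [Finite G]
    [AddCommGroup V] [Module k V] [FiniteDimensional k V] {ι : Type} {P : BNPair G ι}

open Classical in
/-- Generation inequality for a family of parabolic subgroups. -/
theorem bn_gen_le (ρ : Representation k G V)
    (hρ : Submodule.span k (Set.range fun g => (ρ g : V →ₗ[k] V)) = ⊤)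
    (hd : dinv ρ P.B ≠ ⊥) {κ : Type*} [Fintype κ] (J : κ → Set ι) (hJ : ∀ i, ∃ j, i ∈ J j)
    (hyp : ∀ j, (P.B.relIndex (P.parabolic (J j)) : k) ≠ 0 ∨ ∃ i, J j = {i}) :
    finrank k (ZZ ρ P.B) + ∑ j, (if (P.B.relIndex (P.parabolic (J j)) : k) = 0 then
      finrank k (inv ρ P.B) - finrank k (inv ρ (P.parabolic (J j))) else
      finrank k (inv ρ (P.parabolic (J j)))) ≤ Fintype.card κ * finrank k (inv ρ P.B) := by
  have inst : ∀ j, Fintype (P.parabolic (J j) ⧸ P.B.subgroupOf (P.parabolic (J j))) :=
    fun j => Fintype.ofFinite _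
  let X : κ → Submodule k V := fun j => if (P.B.relIndex (P.parabolic (J j)) : k) = 0 then ⊥ else
    inv ρ (P.parabolic (J j))
  let Y : κ → Submodule k V := fun j => if (P.B.relIndex (P.parabolic (J j)) : k) = 0 then
    inv ρ (P.parabolic (J j)) else inv ρ P.B
  have hXY : ∀ j, X j ≤ Y j := by
    intro j
    by_cases hj : (P.B.relIndex (P.parabolic (J j)) : k) = 0
    · simp only [X, Y, if_pos hj]; exact bot_le
    · simp only [X, Y, if_neg hj]; exact inv_mono (P.B_le _)
  have hcs : ∀ (δ : ZZ ρ P.B) j,
      csum (k := k) V P.B (P.parabolic (J j)) (δ : G → V) ∈ Y j := by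
    intro δ j
    by_cases hj : (P.B.relIndex (P.parabolic (J j)) : k) = 0
    · simp only [Y, if_pos hj]
      exact csum_mem_inv le_rfl δ.2 (fun g _ => by rw [hj, zero_smul])
    · simp only [Y, if_neg hj]
      exact csum_mem_inv (P.B_le _) δ.2 (fun g hg => by rw [δ.2.2 g hg, smul_zero])
  let T : (ZZ ρ P.B × (∀ j, X j)) →ₗ[k] (∀ j, Y j) :=
    { toFun := fun x j => ⟨csum (k := k) V P.B (P.parabolic (J j)) (x.1 : G → V) + (x.2 j : V),
        Submodule.add_mem _ (hcs x.1 j) (hXY j (x.2 j).2)⟩
      map_add' := fun x y => by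
        funext j
        apply Subtype.ext
        show csum (k := k) V P.B (P.parabolic (J j)) ((x.1 : G → V) + (y.1 : G → V)) +
          ((x.2 j : V) + (y.2 j : V)) =
          (csum (k := k) V P.B (P.parabolic (J j)) (x.1 : G → V) + (x.2 j : V)) +
          (csum (k := k) V P.B (P.parabolic (J j)) (y.1 : G → V) + (y.2 j : V))
        rw [map_add]; abel
      map_smul' := fun c x => by
        funext j
        apply Subtype.ext
        show csum (k := k) V P.B (P.parabolic (J j)) (c • (x.1 : G → V)) + c • (x.2 j : V) =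
          c • (csum (k := k) V P.B (P.parabolic (J j)) (x.1 : G → V) + (x.2 j : V))
        rw [map_smul, smul_add] }
  have hT : Function.Injective T := by
    rw [← LinearMap.ker_eq_bot, eq_bot_iff]
    rintro ⟨δ, v⟩ h
    rw [LinearMap.mem_ker] at h
    have h1 : ∀ j, csum (k := k) V P.B (P.parabolic (J j)) (δ : G → V) = -(v j : V) := by
      intro j
      have h2 := congrArg Subtype.val (congrFun h j)
      exact eq_neg_of_add_eq_zero_left h2
    have h3 : (δ : G → V) = 0 := by
      refine cocycle_eq_zero hρ hd δ.2 fun i => ?_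
      obtain ⟨j, hij⟩ := hJ i
      by_cases hj : (P.B.relIndex (P.parabolic (J j)) : k) = 0
      · right
        obtain ⟨i', hi'⟩ := (hyp j).resolve_left (fun h => h hj)
        have hii : i' = i := by
          rw [hi'] at hij
          exact (Set.mem_singleton_iff.1 hij).symm
        subst hii
        have hv : (v j : V) = 0 := by
          have := (v j).2
          simp only [X, if_pos hj] at this
          exact this
        have h4 := h1 j
        rw [hv, neg_zero] at h4
        have gen : ∀ J' : Set ι, J' = {i'} →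
            (∃ _ : Fintype (P.parabolic J' ⧸ P.B.subgroupOf (P.parabolic J')),
            (P.B.relIndex (P.parabolic J') : k) = 0 ∧
            csum (k := k) V P.B (P.parabolic J') (δ : G → V) = 0) →
            (∃ _ : Fintype (P.parabolic {i'} ⧸ P.B.subgroupOf (P.parabolic {i'})),
            (P.B.relIndex (P.parabolic {i'}) : k) = 0 ∧
            csum (k := k) V P.B (P.parabolic {i'}) (δ : G → V) = 0) := by
          rintro J' rfl h
          exact h
        exact gen (J j) hi' ⟨inst j, hj, h4⟩
      · left
        have h5 := (avg (P.B_le (J j)) hj δ.2).2 (P.s i) (P.s_mem_parabolic hij)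
        rw [h1 j, smul_neg, neg_smul, neg_neg, cob_apply, map_smul] at h5
        have hv : (v j : V) ∈ inv ρ (P.parabolic (J j)) := by
          have := (v j).2
          simp only [X, if_neg hj] at this
          exact this
        rw [hv _ (P.s_mem_parabolic hij), sub_self] at h5
        exact h5
    have h4 : δ = 0 := Subtype.ext h3
    subst h4
    rw [Submodule.mem_bot, Prod.mk_eq_zero]
    refine ⟨rfl, ?_⟩
    funext j
    have h5 := h1 j
    rw [show ((0 : ZZ ρ P.B) : G → V) = 0 from rfl, map_zero, eq_comm, neg_eq_zero] at h5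
    exact Subtype.ext h5
  have h1 := LinearMap.finrank_le_finrank_of_injective hT
  rw [Module.finrank_prod, Module.finrank_pi_fintype, Module.finrank_pi_fintype] at h1
  have h2 : ∀ j, (if (P.B.relIndex (P.parabolic (J j)) : k) = 0 then
      finrank k (inv ρ P.B) - finrank k (inv ρ (P.parabolic (J j))) else
      finrank k (inv ρ (P.parabolic (J j)))) + finrank k (Y j) =
      finrank k (X j) + finrank k (inv ρ P.B) := by
    intro j
    by_cases hj : (P.B.relIndex (P.parabolic (J j)) : k) = 0
    · have hX : X j = ⊥ := if_pos hj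
      have hY : Y j = inv ρ (P.parabolic (J j)) := if_pos hj
      rw [if_pos hj, hX, hY, finrank_bot]
      have := Submodule.finrank_mono (inv_mono (ρ := ρ) (P.B_le (J j)))
      omega
    · have hX : X j = inv ρ (P.parabolic (J j)) := if_neg hj
      have hY : Y j = inv ρ P.B := if_neg hj
      rw [if_neg hj, hX, hY]
  have h3 := Finset.sum_congr (rfl : (Finset.univ : Finset κ) = Finset.univ) (fun j _ => h2 j)
  rw [Finset.sum_add_distrib, Finset.sum_add_distrib, Finset.sum_const, Finset.card_univ,
    smul_eq_mul] at h3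
  omega

end bngen

section torus

variable {k : Type u} {G : Type v} [Field k] [Group G] [Finite G] {ι : Type}

/-- Restriction of functions to a subgroup. -/
def resB (k : Type u) {G : Type v} [Field k] [Group G] {V : Type w} [AddCommGroup V] [Module k V]
    (B : Subgroup G) : (G → V) →ₗ[k] (B → V) where
  toFun δ b := δ b
  map_add' _ _ := rfl
  map_smul' _ _ := rfl

/-- The restrictions to `B` of the cocycles vanishing on `U`. -/
def RR {V : Type w} [AddCommGroup V] [Module k V] (ρ : Representation k G V) (U B : Subgroup G) :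
    Submodule k (B → V) := (ZZ ρ U).map (resB k B)

lemma finrank_ZZ_RR {V : Type w} [AddCommGroup V] [Module k V] [FiniteDimensional k V]
    (ρ : Representation k G V) {U B : Subgroup G} (hUB : U ≤ B) :
    finrank k (ZZ ρ U) = finrank k (ZZ ρ B) + finrank k (RR ρ U B) := by
  have h1 := LinearMap.finrank_range_add_finrank_ker ((resB k B).domRestrict (ZZ ρ U))
  have h2 : LinearMap.range ((resB k B).domRestrict (ZZ ρ U)) = RR ρ U B := by
    rw [LinearMap.domRestrict, LinearMap.range_comp, Submodule.range_subtype]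
    rfl
  have h3 : LinearMap.ker ((resB k B).domRestrict (ZZ ρ U)) =
      (ZZ ρ B).comap (ZZ ρ U).subtype := by
    ext δ
    rw [LinearMap.mem_ker, Submodule.mem_comap]
    constructor
    · intro h
      refine ⟨δ.2.1, fun b hb => ?_⟩
      exact congrFun h ⟨b, hb⟩
    · intro h
      funext b
      exact h.2 b b.2
  have h4 : finrank k ((ZZ ρ B).comap (ZZ ρ U).subtype) = finrank k (ZZ ρ B) :=
    (Submodule.comapSubtypeEquivOfLe (ZZ_mono hUB)).finrank_eq
  rw [h2, h3, h4] at h1
  omega

/-- Homomorphisms from a subgroup to the additive group of the field, as functions. -/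
def HomB (k : Type u) {G : Type v} [Field k] [Group G] (B : Subgroup G) :
    Submodule k (B → k) where
  carrier := {χ | ∀ b b', χ (b * b') = χ b + χ b'}
  add_mem' := by
    intro a c ha hc b b'
    simp only [Pi.add_apply, ha b b', hc b b']; ring
  zero_mem' := by intro b b'; simp
  smul_mem' := by
    intro c a ha b b'
    simp only [Pi.smul_apply, ha b b', smul_add]

lemma finrank_HomB (B : Subgroup G) :
    finrank k (HomB k B) = finrank k (Additive B →+ k) := by
  let e : HomB k B ≃ₗ[k] (Additive B →+ k) :=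
    { toFun := fun χ => AddMonoidHom.mk' (fun b => (χ : B → k) b.toMul) (fun a b => χ.2 _ _)
      map_add' := fun a b => rfl
      map_smul' := fun c a => rfl
      invFun := fun χ => ⟨fun b => χ (Additive.ofMul b), fun b b' => by
        show χ (Additive.ofMul (b * b')) = χ (Additive.ofMul b) + χ (Additive.ofMul b')
        rw [ofMul_mul, map_add]⟩
      left_inv := fun χ => rfl
      right_inv := fun χ => rfl }
  exact e.finrank_eq

variable {P : BNPair G ι} {U : Subgroup G}

lemma ZZ_T_mem {V : Type w} [AddCommGroup V] [Module k V] {ρ : Representation k G V}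
    (hU : IsSplit P U) {δ : G → V} (hδ : δ ∈ ZZ ρ U) {t : G} (ht : t ∈ P.B) :
    δ t ∈ inv ρ U := by
  intro u hu
  have h1 : δ (u * t) = ρ u (δ t) := ZZ_mul_left hδ hu t
  have h2 : u * t = t * (t⁻¹ * u * t) := by group
  rw [← h1, h2, ZZ_mul_right hδ _ (hU.conj' ht hu)]

lemma ZZ_conj {V : Type w} [AddCommGroup V] [Module k V] {ρ : Representation k G V}
    {δ : G → V} (hδ : δ ∈ ZZ ρ U) {f : V →ₗ[k] k}
    (hf : f ∈ dinv ρ P.B) {n t : G} (h : n * t * n⁻¹ ∈ P.B) :
    f (δ (n * t * n⁻¹)) = f (ρ n (δ t)) := by
  have h1 : δ (n * t * n⁻¹) + ρ (n * t * n⁻¹) (δ n) = δ n + ρ n (δ t) := by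
    rw [← hδ.1, ← hδ.1]
    congr 1
    group
  have h2 := congrArg f h1
  rw [map_add, map_add, hf _ h] at h2
  linear_combination h2

/-- The torus contributes little. -/
theorem torus_bound {κ : Type*} [Fintype κ] [DecidableEq κ]
    {V : κ → Type w} [∀ i, AddCommGroup (V i)] [∀ i, Module k (V i)]
    [∀ i, FiniteDimensional k (V i)] (ρ : ∀ i, Representation k G (V i))
    (hρ : ∀ i, Submodule.span k (Set.range fun g => (ρ i g : V i →ₗ[k] V i)) = ⊤)
    (hsep : ∀ i₀, ∃ r : MonoidAlgebra k G, (ρ i₀).asAlgebraHom r = 1 ∧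
      ∀ j, j ≠ i₀ → (ρ j).asAlgebraHom r = 0)
    (hU : IsSplit P U) (hUc : (Nat.card U : k) ≠ 0) (hB : ∀ i, inv (ρ i) P.B ≠ ⊥) :
    ∑ i, finrank k (RR (ρ i) U P.B) * finrank k (inv (ρ i) P.B) ≤
      finrank k (Additive P.B →+ k) := by
  classical
  let _ : Fintype U := Fintype.ofFinite _
  rw [← finrank_HomB]
  -- choose cocycles restricting to a basis
  have hex : ∀ i (a : Fin (finrank k (RR (ρ i) U P.B))), ∃ δ ∈ ZZ (ρ i) U,
      resB k P.B δ = (Module.finBasis k (RR (ρ i) U P.B) a : P.B → V i) := by
    intro i a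
    obtain ⟨δ, hδ, h⟩ := (Module.finBasis k (RR (ρ i) U P.B) a).2
    exact ⟨δ, hδ, h⟩
  choose δ hδ hres using hex
  have hbas : ∀ i a (b : P.B), (Module.finBasis k (RR (ρ i) U P.B) a : P.B → V i) b =
      δ i a b := fun i a b => (congrFun (hres i a) b).symm
  let Θ : (∀ i, Fin (finrank k (RR (ρ i) U P.B)) → Fin (finrank k (dinv (ρ i) P.B)) → k) →ₗ[k]
      HomB k P.B :=
    { toFun := fun x => ⟨fun b => ∑ i, ∑ a, dmap (ρ i) P.B (x i a) (δ i a b), by
        intro b b'
        rw [← Finset.sum_add_distrib]
        refine Finset.sum_congr rfl fun i _ => ?_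
        rw [← Finset.sum_add_distrib]
        refine Finset.sum_congr rfl fun a _ => ?_
        rw [Subgroup.coe_mul, (hδ i a).1, map_add, dmap_mem (ρ i) P.B (x i a) b b.2]⟩
      map_add' := fun x y => by
        apply Subtype.ext
        funext b
        show ∑ i, ∑ a, dmap (ρ i) P.B ((x + y) i a) (δ i a b) =
          ∑ i, ∑ a, dmap (ρ i) P.B (x i a) (δ i a b) + ∑ i, ∑ a, dmap (ρ i) P.B (y i a) (δ i a b)
        simp only [Pi.add_apply, map_add, LinearMap.add_apply, Finset.sum_add_distrib]
      map_smul' := fun c x => by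
        apply Subtype.ext
        funext b
        show ∑ i, ∑ a, dmap (ρ i) P.B ((c • x) i a) (δ i a b) =
          c • ∑ i, ∑ a, dmap (ρ i) P.B (x i a) (δ i a b)
        simp only [Pi.smul_apply, map_smul, LinearMap.smul_apply, Finset.smul_sum] }
  have hΘ : Function.Injective Θ := by
    rw [← LinearMap.ker_eq_bot, eq_bot_iff]
    intro x hx
    rw [LinearMap.mem_ker] at hx
    have h1 : ∀ b ∈ P.B, ∑ i, ∑ a, dmap (ρ i) P.B (x i a) (δ i a b) = 0 := by
      intro b hb
      have := congrFun (congrArg Subtype.val hx) ⟨b, hb⟩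
      exact this
    have hstab : ∀ (s : MonoidAlgebra k G), ∀ t ∈ P.B ⊓ P.N,
        ∑ i, ∑ a, dmap (ρ i) P.B (x i a) ((ρ i).asAlgebraHom s (δ i a t)) = 0 := by
      intro s
      induction s using MonoidAlgebra.induction_on with
      | of g =>
        intro t ht
        obtain ⟨n, hn, hg⟩ := P.bruhat g
        rw [← h1 (n * t * n⁻¹) (P.conj_mem n hn t ht).1]
        refine Finset.sum_congr rfl fun i _ => Finset.sum_congr rfl fun a _ => ?_
        have hf := dmap_mem (ρ i) P.B (x i a)
        rw [Representation.asAlgebraHom_of,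
          ZZ_conj (hδ i a) hf (P.conj_mem n hn t ht).1]
        have hy : δ i a t ∈ inv (ρ i) P.B :=
          inv_U_le hU hUc (ρ i) (hρ i) (hB i) (ZZ_T_mem hU (hδ i a) ht.1)
        have hfE : ∀ v : V i, dmap (ρ i) P.B (x i a) v =
            dmap (ρ i) P.B (x i a) (avgMap (ρ i) U v : V i) := by
          intro v
          rw [avgMap_apply, map_smul, map_sum]
          have : ∀ u : U, dmap (ρ i) P.B (x i a) (ρ i (u : G) v) =
              dmap (ρ i) P.B (x i a) v := fun u => hf _ (hU.le u.2) v
          simp only [this]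
          rw [Finset.sum_const, Finset.card_univ, ← Nat.card_eq_fintype_card,
            ← Nat.cast_smul_eq_nsmul k, smul_smul, inv_mul_cancel₀ hUc, one_smul]
        rw [hfE, hfE (ρ i n (δ i a t)), avg_bruhat hU (ρ i) hn hg hy]
      | add a b ha hb =>
        intro t ht
        simp only [map_add, LinearMap.add_apply, Finset.sum_add_distrib, ha t ht, hb t ht,
          add_zero]
      | smul c a ha =>
        intro t ht
        simp only [map_smul, LinearMap.smul_apply, smul_eq_mul, ← Finset.mul_sum, ha t ht,
          mul_zero]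
    rw [Submodule.mem_bot]
    funext i₀
    obtain ⟨r, hr1, hr0⟩ := hsep i₀
    have h2 : ∀ (A : V i₀ →ₗ[k] V i₀), ∀ t ∈ P.B ⊓ P.N,
        ∑ a, dmap (ρ i₀) P.B (x i₀ a) (A (δ i₀ a t)) = 0 := by
      intro A
      have hA : A ∈ Submodule.span k (Set.range fun g => (ρ i₀ g : V i₀ →ₗ[k] V i₀)) := by
        rw [hρ]; trivial
      induction hA using Submodule.span_induction with
      | mem A hA =>
        obtain ⟨g, rfl⟩ := hA
        intro t ht
        have h3 := hstab (MonoidAlgebra.of k G g * r) t ht
        rw [Finset.sum_eq_single i₀] at h3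
        · rw [map_mul, hr1, mul_one, Representation.asAlgebraHom_of] at h3
          exact h3
        · intro j _ hj
          rw [map_mul, hr0 j hj, mul_zero]
          simp
        · intro h
          exact absurd (Finset.mem_univ _) h
      | zero => intro t _; simp
      | add a b _ _ iha ihb =>
        intro t ht
        simp only [LinearMap.add_apply, map_add, Finset.sum_add_distrib, iha t ht, ihb t ht,
          add_zero]
      | smul c a _ iha =>
        intro t ht
        simp only [LinearMap.smul_apply, map_smul, smul_eq_mul, ← Finset.mul_sum, iha t ht,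
          mul_zero]
    have h4 : ∀ v : V i₀, ∀ a, dmap (ρ i₀) P.B (x i₀ a) v = 0 := by
      intro v
      have h5 : ∀ t ∈ P.B ⊓ P.N, ∑ a, dmap (ρ i₀) P.B (x i₀ a) v • δ i₀ a t = 0 := by
        intro t ht
        refine (Module.forall_dual_apply_eq_zero_iff k _).1 fun φ => ?_
        have h6 := h2 (φ.smulRight v) t ht
        rw [map_sum]
        rw [← h6]
        refine Finset.sum_congr rfl fun a _ => ?_
        rw [LinearMap.smulRight_apply, map_smul, map_smul, smul_eq_mul, smul_eq_mul, mul_comm]
      have h6 : ∑ a, dmap (ρ i₀) P.B (x i₀ a) v •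
          Module.finBasis k (RR (ρ i₀) U P.B) a = 0 := by
        apply Subtype.ext
        rw [show ((∑ a, dmap (ρ i₀) P.B (x i₀ a) v • Module.finBasis k (RR (ρ i₀) U P.B) a :
          RR (ρ i₀) U P.B) : P.B → V i₀) = (RR (ρ i₀) U P.B).subtype
          (∑ a, dmap (ρ i₀) P.B (x i₀ a) v • Module.finBasis k (RR (ρ i₀) U P.B) a) from rfl,
          map_sum]
        funext b
        rw [Finset.sum_apply]
        obtain ⟨u, hu, t, ht, hb⟩ := hU.decomp b b.2
        show ∑ a, (dmap (ρ i₀) P.B (x i₀ a) v •
          (Module.finBasis k (RR (ρ i₀) U P.B) a : P.B → V i₀) b) = 0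
        rw [← h5 t ht]
        refine Finset.sum_congr rfl fun a _ => ?_
        rw [hbas, hb, ZZ_mul_left (hδ i₀ a) hu, ZZ_T_mem hU (hδ i₀ a) ht.1 u hu]
      exact Fintype.linearIndependent_iff.1
        (Module.finBasis k (RR (ρ i₀) U P.B)).linearIndependent _ h6
    funext a
    exact dmap_eq_zero _ _ _ (LinearMap.ext fun v => h4 v a)
  have h1 := LinearMap.finrank_le_finrank_of_injective hΘ
  rw [Module.finrank_pi_fintype] at h1
  refine le_trans (Finset.sum_le_sum fun i _ => ?_) h1
  rw [Module.finrank_pi_fintype, Finset.sum_const, Finset.card_univ, Fintype.card_fin,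
    smul_eq_mul, Module.finrank_fin_fun]
  refine Nat.mul_le_mul_left _ (finrank_inv_le_dinv le_rfl ?_ (hasProj_B hU hUc (ρ i) (hρ i) (hB i)))
  rw [Subgroup.relIndex_self, Nat.cast_one]
  exact one_ne_zero

end torus

end Run7.h98
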