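import Pool.Agent.Run7.h98.ThmA
import Pool.Agent.Run7.h98.BN

/-!
Representations of groups with a BN-pair.
-/

open Module

namespace Run7.h98

universe u v w

section normal

variable {k : Type u} {G : Type v} {V : Type w} [Field k] [Group G]
    [AddCommGroup V] [Module k V]

lemma avgMap_comm (ρ : Representation k G V) (U : Subgroup G) [Fintype U] {b : G}
    (hb : ∀ u ∈ U, b * u * b⁻¹ ∈ U) (hb' : ∀ u ∈ U, b⁻¹ * u * b ∈ U) (v : V) :
    ρ b (avgMap ρ U v : V) = (avgMap ρ U (ρ b v) : V) := by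
  rw [avgMap_apply, avgMap_apply, map_smul, map_sum]
  congr 1
  let e : U ≃ U :=
    { toFun := fun x => ⟨b * x * b⁻¹, hb x x.2⟩
      invFun := fun x => ⟨b⁻¹ * x * b, hb' x x.2⟩
      left_inv := fun x => by apply Subtype.ext; simp only; group
      right_inv := fun x => by apply Subtype.ext; simp only; group }
  refine Fintype.sum_equiv e _ _ (fun x => ?_)
  have h1 : ((e x : U) : G) * b = b * (x : G) := by
    show b * (x : G) * b⁻¹ * b = b * (x : G)
    group
  show ρ b (ρ (x : G) v) = ρ ((e x : U) : G) (ρ b v)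
  have h2 : ρ b (ρ (x : G) v) = ρ (b * (x : G)) v := by rw [map_mul]; rfl
  have h3 : ρ ((e x : U) : G) (ρ b v) = ρ (((e x : U) : G) * b) v := by rw [map_mul]; rfl
  rw [h2, h3, h1]

end normal

section bn

variable {k : Type u} {G : Type v} {V : Type w} [Field k] [Group G] [Finite G]
    [AddCommGroup V] [Module k V] {ι : Type}

/-- `U` is a normal subgroup of `B` with `B = U (B ∩ N)`. -/
structure IsSplit (P : BNPair G ι) (U : Subgroup G) : Prop where
  le : U ≤ P.B
  conj : ∀ b ∈ P.B, ∀ u ∈ U, b * u * b⁻¹ ∈ U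
  decomp : ∀ b ∈ P.B, ∃ u ∈ U, ∃ t ∈ P.B ⊓ P.N, b = u * t

variable {P : BNPair G ι} {U : Subgroup G}

lemma IsSplit.conj' (hU : IsSplit P U) {b : G} (hb : b ∈ P.B) {u : G} (hu : u ∈ U) :
    b⁻¹ * u * b ∈ U := by
  have := hU.conj b⁻¹ (P.B.inv_mem hb) u hu
  rwa [inv_inv] at this

/-- `E (g y) = E (n y)` for `y` fixed by `B` and `g` in `B n B`. -/
lemma avg_bruhat (hU : IsSplit P U) (ρ : Representation k G V) [Fintype U] {g n : G}
    (hn : n ∈ P.N) (hg : P.InC g n) {y : V} (hy : y ∈ inv ρ P.B) :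
    avgMap ρ U (ρ g y) = avgMap ρ U (ρ n y) := by
  obtain ⟨b₁, h₁, b₂, h₂, rfl⟩ := hg
  obtain ⟨u, hu, t, ht, rfl⟩ := hU.decomp b₁ h₁
  have e : ρ (u * t * n * b₂) y = ρ u (ρ n y) := by
    have h3 : ρ (u * t * n * b₂) y = ρ u (ρ n (ρ (n⁻¹ * t * n) (ρ b₂ y))) := by
      have : u * t * n * b₂ = u * n * (n⁻¹ * t * n) * b₂ := by group
      rw [this, map_mul, map_mul, map_mul]; rfl
    rw [h3, hy b₂ h₂, hy _ (P.conj_mem' hn ht).1]
  rw [e, avgMap_rho ρ U hu]

/-- If some nonzero vector is fixed by `B` then every vector fixed by `U` is fixed by `B`. -/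
lemma inv_U_le (hU : IsSplit P U) (hUc : (Nat.card U : k) ≠ 0) (ρ : Representation k G V)
    (hρ : Submodule.span k (Set.range fun g => (ρ g : V →ₗ[k] V)) = ⊤)
    (hB : inv ρ P.B ≠ ⊥) : inv ρ U ≤ inv ρ P.B := by
  classical
  let _ : Fintype U := Fintype.ofFinite _
  obtain ⟨x, hx, hx0⟩ := (Submodule.ne_bot_iff _).1 hB
  have key : ∀ a : V →ₗ[k] V, (avgMap ρ U (a x) : V) ∈ inv ρ P.B := by
    intro a
    have ha : a ∈ Submodule.span k (Set.range fun g => (ρ g : V →ₗ[k] V)) := by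
      rw [hρ]; trivial
    induction ha using Submodule.span_induction with
    | mem a ha =>
      obtain ⟨g, rfl⟩ := ha
      obtain ⟨n, hn, hg⟩ := P.bruhat g
      show (avgMap ρ U (ρ g x) : V) ∈ inv ρ P.B
      rw [avg_bruhat hU ρ hn hg hx]
      intro b hb
      obtain ⟨u, hu, t, ht, rfl⟩ := hU.decomp b hb
      have h1 : ρ (u * t) (avgMap ρ U (ρ n x) : V) = ρ u (ρ t (avgMap ρ U (ρ n x) : V)) := by
        rw [map_mul]; rfl
      rw [h1, avgMap_comm ρ U (hU.conj t ht.1) (fun _ hu' => hU.conj' ht.1 hu')]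
      have h2 : ρ t (ρ n x) = ρ n (ρ (n⁻¹ * t * n) x) := by
        have h3 : ρ t (ρ n x) = ρ (t * n) x := by rw [map_mul]; rfl
        have h4 : ρ n (ρ (n⁻¹ * t * n) x) = ρ (n * (n⁻¹ * t * n)) x :=
          (congrArg (fun z => z x) (map_mul ρ n (n⁻¹ * t * n))).symm
        rw [h3, h4]
        congr 2
        group
      rw [h2, hx _ (P.conj_mem' hn ht).1]
      exact (avgMap ρ U (ρ n x)).2 u hu
    | zero => simp
    | add a b _ _ iha ihb =>
      rw [LinearMap.add_apply, map_add]; exact Submodule.add_mem _ iha ihb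
    | smul c a _ iha =>
      rw [LinearMap.smul_apply, map_smul]; exact Submodule.smul_mem _ _ iha
  obtain ⟨f, hf⟩ : ∃ f : Dual k V, f x ≠ 0 := by
    by_contra hcon
    push Not at hcon
    exact hx0 ((Module.forall_dual_apply_eq_zero_iff k x).1 hcon)
  intro v hv
  have h1 := key (f.smulRight ((f x)⁻¹ • v))
  rw [LinearMap.smulRight_apply, smul_smul, mul_inv_cancel₀ hf, one_smul,
    avgMap_of_mem ρ U hUc hv] at h1
  exact h1

lemma hasProj_B (hU : IsSplit P U) (hUc : (Nat.card U : k) ≠ 0) (ρ : Representation k G V)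
    (hρ : Submodule.span k (Set.range fun g => (ρ g : V →ₗ[k] V)) = ⊤)
    (hB : inv ρ P.B ≠ ⊥) : HasProj ρ P.B := by
  classical
  let _ : Fintype U := Fintype.ofFinite _
  have hle := inv_U_le hU hUc ρ hρ hB
  refine ⟨(inv ρ U).subtype.comp (avgMap ρ U), fun v => hle (avgMap ρ U v).2, ?_, ?_⟩
  · intro v hv
    show (avgMap ρ U v : V) = v
    rw [avgMap_of_mem ρ U hUc (inv_mono hU.le hv)]
  · intro b hb v
    show (avgMap ρ U (ρ b v) : V) = (avgMap ρ U v : V)
    rw [← avgMap_comm ρ U (hU.conj b hb) (fun _ hu' => hU.conj' hb hu')]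
    exact hle (avgMap ρ U v).2 b hb

lemma csum_mem_inv {ρ : Representation k G V} {B Q : Subgroup G} [Fintype (Q ⧸ B.subgroupOf Q)]
    {R : Subgroup G} (hR : R ≤ Q) {δ : G → V} (hδ : δ ∈ ZZ ρ B)
    (h : ∀ g ∈ R, (B.relIndex Q : k) • δ g = 0) : csum (k := k) V B Q δ ∈ inv ρ R := by
  intro g hg
  rw [rho_csum hδ (hR hg), h g hg, sub_zero]

lemma sum_shift {ρ : Representation k G V} {B Q : Subgroup G} [Fintype (Q ⧸ B.subgroupOf Q)]
    {δ : G → V} (hδ : δ ∈ ZZ ρ B) (g : G) :
    ∑ x : Q ⧸ B.subgroupOf Q, δ (g * ((x.out : Q) : G)) =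
      (B.relIndex Q : k) • δ g + ρ g (csum (k := k) V B Q δ) := by
  have h1 : ∀ x : Q ⧸ B.subgroupOf Q, δ (g * ((x.out : Q) : G)) =
      δ g + ρ g (δ ((x.out : Q) : G)) := fun x => hδ.1 _ _
  simp only [h1]
  rw [Finset.sum_add_distrib, Finset.sum_const, Finset.card_univ, ← Nat.card_eq_fintype_card,
    ← Nat.cast_smul_eq_nsmul k, csum_apply, map_sum]
  rfl

/-- Bi-invariance of a matrix coefficient of a cocycle vanishing on `B`. -/
lemma coef_inC {ρ : Representation k G V} {δ : G → V} (hδ : δ ∈ ZZ ρ P.B) {f : V →ₗ[k] k}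
    (hf : f ∈ dinv ρ P.B) {g n : G} (h : P.InC g n) : f (δ g) = f (δ n) := by
  obtain ⟨b₁, h₁, b₂, h₂, rfl⟩ := h
  rw [ZZ_mul_right hδ _ h₂, ZZ_mul_left hδ h₁, hf b₁ h₁]

lemma coef_step {ρ : Representation k G V} {δ : G → V} (hδ : δ ∈ ZZ ρ P.B) {f : V →ₗ[k] k}
    (hf : f ∈ dinv ρ P.B) {i : ι} [Fintype (P.parabolic {i} ⧸ P.B.subgroupOf (P.parabolic {i}))]
    (hi : (P.B.relIndex (P.parabolic {i}) : k) = 0)
    (hc : csum (k := k) V P.B (P.parabolic {i}) δ = 0) {n : G}
    (hgate : ∀ b ∈ P.B, P.InC (n * b * P.s i) (n * P.s i)) : f (δ (n * P.s i)) = f (δ n) := by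
  classical
  have h1 := congrArg f (sum_shift (Q := P.parabolic {i}) hδ n)
  rw [hi, zero_smul, hc, map_zero, add_zero, map_zero, map_sum] at h1
  have h2 : ∀ x : P.parabolic {i} ⧸ P.B.subgroupOf (P.parabolic {i}), f (δ (n * ((x.out : P.parabolic {i}) : G))) =
      if x = QuotientGroup.mk 1 then f (δ n) else f (δ (n * P.s i)) := by
    intro x
    by_cases hx : x = QuotientGroup.mk 1
    · rw [if_pos hx]
      have h3 : ((x.out : P.parabolic {i}) : G) ∈ P.B := by
        have h4 : (QuotientGroup.mk 1 : P.parabolic {i} ⧸ P.B.subgroupOf (P.parabolic {i})) = QuotientGroup.mk x.out := by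
          rw [QuotientGroup.out_eq', hx]
        rw [QuotientGroup.eq] at h4
        simpa using Subgroup.mem_subgroupOf.1 h4
      rw [ZZ_mul_right hδ _ h3]
    · rw [if_neg hx]
      rcases P.mem_parabolic_singleton (x.out : P.parabolic {i}).2 with h3 | h3
      · exfalso
        apply hx
        rw [← QuotientGroup.out_eq' x, eq_comm, QuotientGroup.eq]
        rw [Subgroup.mem_subgroupOf]
        simpa using h3
      · obtain ⟨b₁, h₁, b₂, h₂, h3⟩ := h3
        rw [h3]
        have h4 : n * (b₁ * P.s i * b₂) = n * b₁ * P.s i * b₂ := by group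
        rw [h4]
        exact coef_inC hδ hf ((hgate b₁ h₁).mul_right h₂)
  simp only [h2] at h1
  rw [Finset.sum_ite, Finset.sum_const, Finset.sum_const, Finset.filter_eq' Finset.univ,
    if_pos (Finset.mem_univ _), Finset.card_singleton, one_smul] at h1
  have h3 : (Finset.univ.filter
      (fun x : P.parabolic {i} ⧸ P.B.subgroupOf (P.parabolic {i}) => ¬ x = QuotientGroup.mk 1)).card + 1 = P.B.relIndex (P.parabolic {i}) := by
    have h4 := Finset.card_filter_add_card_filter_not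
      (s := (Finset.univ : Finset (P.parabolic {i} ⧸ P.B.subgroupOf (P.parabolic {i})))) (fun x => x = QuotientGroup.mk 1)
    rw [Finset.filter_eq' Finset.univ, if_pos (Finset.mem_univ _), Finset.card_singleton,
      Finset.card_univ, ← Nat.card_eq_fintype_card] at h4
    rw [add_comm]
    exact h4
  have h5 : ((Finset.univ.filter
      (fun x : P.parabolic {i} ⧸ P.B.subgroupOf (P.parabolic {i}) => ¬ x = QuotientGroup.mk 1)).card : k) = -1 := by
    have h6 := congrArg (Nat.cast : ℕ → k) h3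
    rw [Nat.cast_add, Nat.cast_one, hi] at h6
    exact eq_neg_of_add_eq_zero_left h6
  rw [← Nat.cast_smul_eq_nsmul k, h5, neg_smul, one_smul] at h1
  have h6 : f (δ n) = f (δ (n * P.s i)) := by
    rw [← sub_eq_zero, sub_eq_add_neg]; exact h1
  exact h6.symm

/-- A cocycle vanishing on `B` is zero if for each simple reflection it vanishes on it, or
satisfies the sum condition. -/
lemma cocycle_eq_zero {ρ : Representation k G V}
    (hρ : Submodule.span k (Set.range fun g => (ρ g : V →ₗ[k] V)) = ⊤)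
    (hd : dinv ρ P.B ≠ ⊥) {δ : G → V} (hδ : δ ∈ ZZ ρ P.B)
    (h : ∀ i, δ (P.s i) = 0 ∨
      ∃ _ : Fintype (P.parabolic {i} ⧸ P.B.subgroupOf (P.parabolic {i})),
      (P.B.relIndex (P.parabolic {i}) : k) = 0 ∧
      csum (k := k) V P.B (P.parabolic {i}) δ = 0) : δ = 0 := by
  classical
  obtain ⟨f, hf, hf0⟩ := (Submodule.ne_bot_iff _).1 hd
  have hstep : ∀ i, ∀ n ∈ P.N, f (δ (n * P.s i)) = f (δ n) := by
    intro i n hn
    rcases h i with h' | ⟨inst, hi, hc⟩
    · rw [hδ.1, h', map_zero, add_zero]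
    · rcases P.gate hn i with hg | hg
      · exact coef_step hδ hf hi hc hg
      · have e : n * P.s i * P.s i = n * (P.s i * P.s i) := mul_assoc _ _ _
        have h1 := coef_step hδ hf hi hc (n := n * P.s i) (by
          intro b hb
          rw [e, BNPair.inC_mul_T (P.sq_mem i)]
          exact hg b hb)
        rw [e, ZZ_mul_right hδ _ (P.sq_mem i)] at h1
        exact h1.symm
  have hlist : ∀ l : List ι, f (δ (l.map P.s).prod) = 0 := by
    intro l
    induction l using List.reverseRecOn with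
    | nil => simp [ZZ_one hδ]
    | append_singleton l i ih =>
      rw [List.map_append, List.prod_append, List.map_singleton, List.prod_singleton,
        hstep i _ (P.list_prod_mem l), ih]
  have hall : ∀ g, f (δ g) = 0 := by
    intro g
    obtain ⟨n, hn, hg⟩ := P.bruhat g
    obtain ⟨m, l, _, t, ht, hnt⟩ := P.exists_isWd hn
    rw [coef_inC hδ hf hg, hnt, ZZ_mul_right hδ _ ht.1, hlist]
  by_contra hne
  have hind : LinearIndependent k (fun _ : Unit => δ) := by
    rw [linearIndependent_unique_iff]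
    exact hne
  have := sep_cocycle hρ (fun _ : Unit => δ) (fun _ => hδ) hind (fun _ => f)
    (by intro g; simpa using hall g)
  exact hf0 (congrFun this ())

end bn

end Run7.h98
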