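import Mathlib

/-!
Absolute irreducibility of a representation and its consequence: the group spans the
endomorphism algebra.
-/

open Module TensorProduct

namespace Run7.h98

universe u v w

/-- Extension of scalars of a representation `ρ` of `G` over `k` to the algebra `K`. -/
noncomputable def extend {k : Type u} {G : Type v} {V : Type w} [Field k] [Group G]
    [AddCommGroup V] [Module k V] (K : Type*) [Field K] [Algebra k K]
    (ρ : Representation k G V) : Representation K G (K ⊗[k] V) :=
  ((Module.End.baseChangeHom k K V : Module.End k V →ₐ[k] Module.End K (K ⊗[k] V)) :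
    Module.End k V →* Module.End K (K ⊗[k] V)).comp ρ

/-- `ρ` is absolutely irreducible: its scalar extension to an algebraic closure is irreducible. -/
def AbsIrred {k : Type u} {G : Type v} {V : Type w} [Field k] [Group G]
    [AddCommGroup V] [Module k V] (ρ : Representation k G V) : Prop :=
  (extend (AlgebraicClosure k) ρ).IsIrreducible

variable {k : Type u} {G : Type v} {V : Type w} [Field k] [Group G]
    [AddCommGroup V] [Module k V]

lemma extend_apply {K : Type*} [Field K] [Algebra k K] (ρ : Representation k G V) (g : G) :
    extend K ρ g = (ρ g).baseChange K := rfl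


lemma asAlgebraHom_mem_span {k : Type u} {G : Type v} {V : Type w} [Field k] [Group G]
    [AddCommGroup V] [Module k V] (ρ : Representation k G V) (r : MonoidAlgebra k G) :
    ρ.asAlgebraHom r ∈ Submodule.span k (Set.range fun g => (ρ g : V →ₗ[k] V)) := by
  induction r using MonoidAlgebra.induction_on with
  | of g =>
    rw [Representation.asAlgebraHom_of]
    exact Submodule.subset_span ⟨g, rfl⟩
  | add a b ha hb => rw [map_add]; exact Submodule.add_mem _ ha hb
  | smul c a ha => rw [map_smul]; exact Submodule.smul_mem _ _ ha

/-- Burnside's theorem over an algebraically closed field. -/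
theorem span_eq_top_of_isAlgClosed {k : Type u} {G : Type v} {V : Type w} [Field k] [IsAlgClosed k]
    [Group G] [AddCommGroup V] [Module k V] [FiniteDimensional k V] (ρ : Representation k G V)
    (h : ρ.IsIrreducible) :
    Submodule.span k (Set.range fun g => (ρ g : V →ₗ[k] V)) = ⊤ := by
  have hs : IsSimpleModule (MonoidAlgebra k G) ρ.asModule :=
    (Representation.irreducible_iff_isSimpleModule_asModule ρ).mp h
  rw [eq_top_iff]
  rintro f -
  have hbij := IsSimpleModule.algebraMap_end_bijective_of_isAlgClosed (A := MonoidAlgebra k G)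
    (V := ρ.asModule) k
  let F : Module.End (Module.End (MonoidAlgebra k G) ρ.asModule) ρ.asModule :=
    { toFun := fun m => ρ.asModuleEquiv.symm (f (ρ.asModuleEquiv m))
      map_add' := fun x y => by simp
      map_smul' := fun φ m => by
        obtain ⟨c, rfl⟩ := hbij.2 φ
        have h1 : ∀ x : ρ.asModule,
            (algebraMap k (Module.End (MonoidAlgebra k G) ρ.asModule) c) • x = c • x := by
          intro x
          rfl
        simp only [h1, RingHom.id_apply]
        rw [map_smul, map_smul, map_smul] }
  obtain ⟨s, hs'⟩ := Module.Finite.fg_top (R := k) (M := ρ.asModule)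
  obtain ⟨r, hr⟩ := jacobson_density F s
  have key : f = ρ.asAlgebraHom r := by
    have : ∀ m : ρ.asModule, ρ.asModuleEquiv.symm (f (ρ.asModuleEquiv m)) = r • m := by
      intro m
      have hm : m ∈ Submodule.span k (s : Set ρ.asModule) := by rw [hs']; trivial
      induction hm using Submodule.span_induction with
      | mem x hx => exact hr x hx
      | zero => simp
      | add x y _ _ hx hy => rw [map_add, map_add, map_add, hx, hy, smul_add]
      | smul c x _ hx => rw [map_smul, map_smul, map_smul, hx, smul_comm]
    ext v
    have h2 := this (ρ.asModuleEquiv.symm v)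
    have h3 := congrArg ρ.asModuleEquiv h2
    rw [Representation.asModuleEquiv_map_smul] at h3
    simpa using h3
  rw [key]
  exact asAlgebraHom_mem_span ρ r


/-- An absolutely irreducible group spans the whole endomorphism algebra. -/
theorem span_eq_top {k : Type u} {G : Type v} {V : Type w} [Field k] [Group G]
    [AddCommGroup V] [Module k V] [FiniteDimensional k V] (ρ : Representation k G V)
    (h : AbsIrred ρ) :
    Submodule.span k (Set.range fun g => (ρ g : V →ₗ[k] V)) = ⊤ := by
  set K := AlgebraicClosure k
  have h1 := span_eq_top_of_isAlgClosed (extend K ρ) h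
  set S := Submodule.span k (Set.range fun g => (ρ g : V →ₗ[k] V)) with hS
  apply Submodule.eq_top_of_finrank_eq
  apply le_antisymm (Submodule.finrank_le S)
  have hfin : finrank k (V →ₗ[k] V) = finrank K ((K ⊗[k] V) →ₗ[K] (K ⊗[k] V)) := by
    rw [Module.finrank_linearMap, Module.finrank_linearMap, Module.finrank_baseChange]
  rw [hfin]
  let b := Module.finBasis k S
  have hle : (⊤ : Submodule K ((K ⊗[k] V) →ₗ[K] (K ⊗[k] V))) ≤
      Submodule.span K (Set.range fun i => ((b i : V →ₗ[k] V).baseChange K)) := by
    rw [← h1, Submodule.span_le]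
    rintro _ ⟨g, rfl⟩
    have hg : (ρ g : V →ₗ[k] V) ∈ S := Submodule.subset_span ⟨g, rfl⟩
    have hrep := b.sum_repr ⟨ρ g, hg⟩
    have hrep' : ∑ i, (b.repr ⟨ρ g, hg⟩ i) • (b i : V →ₗ[k] V) = (ρ g : V →ₗ[k] V) := by
      have := congrArg (S.subtype) hrep
      rw [map_sum] at this
      simpa using this
    have : (extend K ρ g : (K ⊗[k] V) →ₗ[K] (K ⊗[k] V)) =
        ∑ i, (algebraMap k K (b.repr ⟨ρ g, hg⟩ i)) • ((b i : V →ₗ[k] V).baseChange K) := by
      rw [extend_apply]
      have h4 := congrArg (LinearMap.baseChangeHom k K V V) hrep'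
      rw [map_sum] at h4
      simp only [map_smul, LinearMap.baseChangeHom_apply] at h4
      rw [← h4]
      simp only [algebraMap_smul]
    show (extend K ρ g : (K ⊗[k] V) →ₗ[K] (K ⊗[k] V)) ∈ _
    rw [this]
    refine Submodule.sum_mem _ fun i _ => Submodule.smul_mem _ _ (Submodule.subset_span ⟨i, rfl⟩)
  have h2 : finrank K (Submodule.span K
      (Set.range fun i => ((b i : V →ₗ[k] V).baseChange K))) ≤ finrank k S := by
    refine (finrank_range_le_card _).trans ?_
    simp
  have h3 : finrank K ((K ⊗[k] V) →ₗ[K] (K ⊗[k] V)) ≤ finrank K (Submodule.span K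
      (Set.range fun i => ((b i : V →ₗ[k] V).baseChange K))) := by
    rw [← finrank_top K ((K ⊗[k] V) →ₗ[K] (K ⊗[k] V))]
    exact Submodule.finrank_mono hle
  omega

end Run7.h98
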