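import Pool.Agent.Run7.h98.Basic

/-!
Cocycles vanishing on a subgroup, averaging, and the two basic dimension formulas.
-/

open Module

namespace Run7.h98

universe u v w

section general

variable {k : Type u} {G : Type v} {V : Type w} [Field k] [Group G]
    [AddCommGroup V] [Module k V]

/-- The cocycles of `ρ` which vanish on the subgroup `L`. -/
def ZZ (ρ : Representation k G V) (L : Subgroup G) : Submodule k (G → V) where
  carrier := {δ | (∀ g h, δ (g * h) = δ g + ρ g (δ h)) ∧ ∀ l ∈ L, δ l = 0}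
  add_mem' := by
    rintro a b ⟨ha, ha'⟩ ⟨hb, hb'⟩
    refine ⟨fun g h => ?_, fun l hl => ?_⟩
    · simp only [Pi.add_apply, ha, hb, map_add]; abel
    · simp [ha' l hl, hb' l hl]
  zero_mem' := by
    refine ⟨fun g h => ?_, fun l hl => ?_⟩ <;> simp
  smul_mem' := by
    rintro c a ⟨ha, ha'⟩
    refine ⟨fun g h => ?_, fun l hl => ?_⟩
    · simp only [Pi.smul_apply, ha, map_smul, smul_add]
    · simp [ha' l hl]

/-- The vectors fixed by the subgroup `L`. -/
def inv (ρ : Representation k G V) (L : Subgroup G) : Submodule k V where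
  carrier := {v | ∀ l ∈ L, ρ l v = v}
  add_mem' := by
    intro a b ha hb l hl
    rw [map_add, ha l hl, hb l hl]
  zero_mem' := by intro l hl; simp
  smul_mem' := by
    intro c a ha l hl
    rw [map_smul, ha l hl]

lemma mem_ZZ {ρ : Representation k G V} {L : Subgroup G} {δ : G → V} :
    δ ∈ ZZ ρ L ↔ (∀ g h, δ (g * h) = δ g + ρ g (δ h)) ∧ ∀ l ∈ L, δ l = 0 := Iff.rfl

lemma mem_inv {ρ : Representation k G V} {L : Subgroup G} {v : V} :
    v ∈ inv ρ L ↔ ∀ l ∈ L, ρ l v = v := Iff.rfl

lemma inv_eq_invariants (ρ : Representation k G V) (L : Subgroup G) :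
    inv ρ L = Representation.invariants (ρ.comp L.subtype) := by
  ext v
  constructor
  · intro h l
    exact h l.1 l.2
  · intro h l hl
    exact h ⟨l, hl⟩

lemma inv_mono {ρ : Representation k G V} {L M : Subgroup G} (h : L ≤ M) :
    inv ρ M ≤ inv ρ L := fun _ hv l hl => hv l (h hl)

/-- The coboundary `g ↦ ρ g v - v`. -/
def cob (ρ : Representation k G V) : V →ₗ[k] (G → V) where
  toFun v g := ρ g v - v
  map_add' a b := by ext g; simp only [map_add, Pi.add_apply]; abel
  map_smul' c a := by ext g; simp [smul_sub]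

@[simp] lemma cob_apply (ρ : Representation k G V) (v : V) (g : G) :
    cob ρ v g = ρ g v - v := rfl

lemma cob_mem (ρ : Representation k G V) {L : Subgroup G} {v : V} (hv : v ∈ inv ρ L) :
    cob ρ v ∈ ZZ ρ L := by
  refine ⟨fun g h => ?_, fun l hl => ?_⟩
  · simp only [cob_apply, map_mul, Module.End.mul_apply, map_sub]; abel
  · simp [hv l hl]

lemma cob_mem_iff (ρ : Representation k G V) {L : Subgroup G} {v : V} :
    cob ρ v ∈ ZZ ρ L ↔ v ∈ inv ρ L := by
  refine ⟨fun h l hl => ?_, cob_mem ρ⟩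
  have := h.2 l hl
  rwa [cob_apply, sub_eq_zero] at this

lemma ZZ_one {ρ : Representation k G V} {L : Subgroup G} {δ : G → V} (h : δ ∈ ZZ ρ L) :
    δ 1 = 0 := h.2 1 L.one_mem

lemma ZZ_mul_right {ρ : Representation k G V} {L : Subgroup G} {δ : G → V} (h : δ ∈ ZZ ρ L)
    (g : G) {l : G} (hl : l ∈ L) : δ (g * l) = δ g := by
  rw [h.1, h.2 l hl, map_zero, add_zero]

lemma ZZ_mul_left {ρ : Representation k G V} {L : Subgroup G} {δ : G → V} (h : δ ∈ ZZ ρ L)
    {l : G} (hl : l ∈ L) (g : G) : δ (l * g) = ρ l (δ g) := by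
  rw [h.1, h.2 l hl, zero_add]

lemma ZZ_mono {ρ : Representation k G V} {L M : Subgroup G} (h : L ≤ M) :
    ZZ ρ M ≤ ZZ ρ L := fun _ hδ => ⟨hδ.1, fun l hl => hδ.2 l (h hl)⟩

/-- The rank one trick: a tuple of functionals annihilating a linearly independent tuple of
`X`-valued functions, in a way stable under a spanning set of endomorphisms, vanishes. -/
theorem sep {X : Type*} [AddCommGroup X] [Module k X] {Y : Type*} {ι : Type*} [Fintype ι]
    (A : Set (X →ₗ[k] X)) (hA : Submodule.span k A = ⊤) (γ : ι → Y → X)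
    (hγ : LinearIndependent k γ)
    (hst : ∀ a ∈ A, ∀ f : ι → Dual k X, (∀ y, ∑ i, f i (γ i y) = 0) →
      ∀ y, ∑ i, f i (a (γ i y)) = 0)
    (f : ι → Dual k X) (hf : ∀ y, ∑ i, f i (γ i y) = 0) : f = 0 := by
  classical
  by_contra hne
  obtain ⟨j, hj⟩ : ∃ j, f j ≠ 0 := by
    by_contra hcon
    push Not at hcon
    exact hne (funext hcon)
  obtain ⟨x, hx⟩ : ∃ x, f j x ≠ 0 := by
    by_contra hcon
    push Not at hcon
    exact hj (LinearMap.ext hcon)
  have hall : ∀ a : X →ₗ[k] X, ∀ y, ∑ i, f i (a (γ i y)) = 0 := by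
    intro a
    have ha : a ∈ Submodule.span k A := by rw [hA]; trivial
    induction ha using Submodule.span_induction with
    | mem a ha => exact hst a ha f hf
    | zero => intro y; simp
    | add a b _ _ iha ihb =>
      intro y
      simp only [LinearMap.add_apply, map_add, Finset.sum_add_distrib, iha y, ihb y, add_zero]
    | smul c a _ iha =>
      intro y
      simp only [LinearMap.smul_apply, map_smul, smul_eq_mul, ← Finset.mul_sum, iha y, mul_zero]
  have h1 : ∀ (φ : Dual k X) (y : Y), φ (∑ i, (f i x) • γ i y) = 0 := by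
    intro φ y
    have := hall (φ.smulRight x) y
    simp only [LinearMap.smulRight_apply, map_smul, smul_eq_mul] at this
    rw [map_sum]
    simp only [map_smul, smul_eq_mul]
    rw [← this]
    exact Finset.sum_congr rfl fun i _ => mul_comm _ _
  have h2 : ∑ i, (f i x) • γ i = 0 := by
    ext y
    have := (Module.forall_dual_apply_eq_zero_iff k (∑ i, (f i x) • γ i y)).1 (fun φ => h1 φ y)
    simpa using this
  exact hx (Fintype.linearIndependent_iff.1 hγ _ h2 j)

/-- Linearly independent cocycles are separated by tuples of functionals. -/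
theorem sep_cocycle {ρ : Representation k G V}
    (hρ : Submodule.span k (Set.range fun g => (ρ g : V →ₗ[k] V)) = ⊤)
    {L : Subgroup G} {ι : Type*} [Fintype ι] (δ : ι → G → V) (hδ : ∀ i, δ i ∈ ZZ ρ L)
    (hind : LinearIndependent k δ) (f : ι → Dual k V) (hf : ∀ g, ∑ i, f i (δ i g) = 0) :
    f = 0 := by
  refine sep _ hρ δ hind ?_ f hf
  rintro _ ⟨x, rfl⟩ f hf y
  have h1 : ∀ i, ρ x (δ i y) = δ i (x * y) - δ i x := by
    intro i
    rw [(hδ i).1]; abel
  simp only [h1, map_sub, Finset.sum_sub_distrib, hf, sub_zero]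

/-- The sum of the values of a function over representatives of `P / B`. -/
noncomputable def csum (V : Type w) [AddCommGroup V] [Module k V] (B P : Subgroup G)
    [Fintype (P ⧸ B.subgroupOf P)] : (G → V) →ₗ[k] V where
  toFun δ := ∑ x : P ⧸ B.subgroupOf P, δ (x.out : P)
  map_add' a b := by simp [Finset.sum_add_distrib]
  map_smul' c a := by simp [Finset.smul_sum]

lemma csum_apply (B P : Subgroup G) [Fintype (P ⧸ B.subgroupOf P)] (δ : G → V) :
    csum (k := k) V B P δ = ∑ x : P ⧸ B.subgroupOf P, δ (x.out : P) := rfl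

lemma ZZ_out {ρ : Representation k G V} {B P : Subgroup G} {δ : G → V} (hδ : δ ∈ ZZ ρ B)
    (x : P) : δ (((QuotientGroup.mk x : P ⧸ B.subgroupOf P).out : P) : G) = δ (x : G) := by
  have h := QuotientGroup.mk_out_eq_mul (B.subgroupOf P) x
  obtain ⟨b, hb⟩ := h
  rw [hb]
  have : ((x * (b : P) : P) : G) = (x : G) * ((b : P) : G) := rfl
  rw [this]
  exact ZZ_mul_right hδ _ (Subgroup.mem_subgroupOf.1 b.2)

lemma rho_csum {ρ : Representation k G V} {B P : Subgroup G} [Fintype (P ⧸ B.subgroupOf P)]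
    {δ : G → V} (hδ : δ ∈ ZZ ρ B) {g : G} (hg : g ∈ P) :
    ρ g (csum (k := k) V B P δ) = csum (k := k) V B P δ - (B.relIndex P : k) • δ g := by
  have h1 : ∀ x : P ⧸ B.subgroupOf P,
      ρ g (δ (x.out : P)) = δ (((⟨g, hg⟩ : P) • x).out : P) - δ g := by
    intro x
    have h2 : ((⟨g, hg⟩ : P) • x) = QuotientGroup.mk ((⟨g, hg⟩ : P) * x.out) := by
      conv_lhs => rw [← QuotientGroup.out_eq' x]
      rfl
    rw [h2, ZZ_out hδ]
    have h3 : (((⟨g, hg⟩ : P) * x.out : P) : G) = g * ((x.out : P) : G) := rfl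
    rw [h3, hδ.1]; abel
  rw [csum_apply, map_sum]
  simp only [h1, Finset.sum_sub_distrib]
  congr 1
  · exact Fintype.sum_equiv (MulAction.toPerm (⟨g, hg⟩ : P)) _ _ (fun x => rfl)
  · rw [Finset.sum_const, Finset.card_univ, ← Nat.card_eq_fintype_card]
    rw [← Nat.cast_smul_eq_nsmul k]
    rfl

/-- Averaging: on a subgroup `P ≥ B` of index invertible in `k` a cocycle vanishing on `B` is
the coboundary of a vector fixed by `B`. -/
lemma avg {ρ : Representation k G V} {B P : Subgroup G} (hBP : B ≤ P)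
    [Fintype (P ⧸ B.subgroupOf P)] (hidx : (B.relIndex P : k) ≠ 0)
    {δ : G → V} (hδ : δ ∈ ZZ ρ B) :
    (-(B.relIndex P : k)⁻¹ • csum (k := k) V B P δ) ∈ inv ρ B ∧
    ∀ g ∈ P, δ g = cob ρ (-(B.relIndex P : k)⁻¹ • csum (k := k) V B P δ) g := by
  have h1 : ∀ g ∈ P, δ g = cob ρ (-(B.relIndex P : k)⁻¹ • csum (k := k) V B P δ) g := by
    intro g hg
    rw [cob_apply, map_smul, rho_csum hδ hg, smul_sub, smul_smul]
    rw [neg_mul, inv_mul_cancel₀ hidx]
    simp
  refine ⟨?_, h1⟩
  rw [← cob_mem_iff ρ]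
  refine ⟨(cob_mem ρ (L := ⊥) ?_).1, fun l hl => ?_⟩
  · intro l hl
    rw [Subgroup.mem_bot] at hl
    subst hl; simp
  · rw [← h1 l (hBP hl), hδ.2 l hl]

lemma finrank_ZZ_add [FiniteDimensional k V] [Finite G] {ρ : Representation k G V}
    {B P : Subgroup G} (hBP : B ≤ P) (hidx : (B.relIndex P : k) ≠ 0) :
    finrank k (ZZ ρ P) + finrank k (inv ρ B) = finrank k (ZZ ρ B) + finrank k (inv ρ P) := by
  classical
  haveI : Fintype (P ⧸ B.subgroupOf P) := Fintype.ofFinite _
  let T : (ZZ ρ P × inv ρ B) →ₗ[k] ZZ ρ B :=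
    { toFun := fun x => ⟨x.1.1 + cob ρ x.2.1,
        Submodule.add_mem _ (ZZ_mono hBP x.1.2) (cob_mem ρ x.2.2)⟩
      map_add' := fun x y => by
        ext g
        simp only [Prod.fst_add, Prod.snd_add, Submodule.coe_add, map_add, Pi.add_apply]
        abel
      map_smul' := fun c x => by
        ext g
        simp only [Prod.smul_fst, Prod.smul_snd, SetLike.val_smul, map_smul, Pi.add_apply,
          Pi.smul_apply, smul_add, RingHom.id_apply] }
  have hsurj : Function.Surjective T := by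
    rintro ⟨δ, hδ⟩
    obtain ⟨hA, hA'⟩ := avg hBP hidx hδ
    set A := (-(B.relIndex P : k)⁻¹ • csum (k := k) V B P δ) with hAdef
    have hmem : δ - cob ρ A ∈ ZZ ρ P := by
      have h1 := Submodule.sub_mem _ hδ (cob_mem ρ hA)
      refine ⟨h1.1, fun l hl => ?_⟩
      rw [Pi.sub_apply, hA' l hl, sub_self]
    refine ⟨(⟨δ - cob ρ A, hmem⟩, ⟨A, hA⟩), ?_⟩
    ext g
    simp [T]
  let E : inv ρ P →ₗ[k] (ZZ ρ P × inv ρ B) :=
    { toFun := fun v => (⟨-cob ρ v.1, Submodule.neg_mem _ (cob_mem ρ v.2)⟩,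
        ⟨v.1, inv_mono hBP v.2⟩)
      map_add' := fun x y => by
        ext g
        · simp only [Submodule.coe_add, map_add, Prod.mk_add_mk, Pi.neg_apply, Pi.add_apply]
          abel
        · simp
      map_smul' := fun c x => by
        ext g
        · simp
        · simp }
  have hE : Function.Injective E := by
    intro x y hxy
    have := congrArg (fun z => (z.2 : V)) hxy
    exact Subtype.ext this
  have hker : LinearMap.ker T = LinearMap.range E := by
    ext ⟨⟨δ, hδ⟩, ⟨v, hv⟩⟩
    rw [LinearMap.mem_ker, LinearMap.mem_range]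
    constructor
    · intro h
      have h1 : δ + cob ρ v = 0 := congrArg Subtype.val h
      have h2 : δ = -cob ρ v := eq_neg_of_add_eq_zero_left h1
      have h3 : cob ρ v ∈ ZZ ρ P := by
        have := Submodule.neg_mem _ hδ
        rwa [h2, neg_neg] at this
      refine ⟨⟨v, (cob_mem_iff ρ).1 h3⟩, ?_⟩
      simp only [E, LinearMap.coe_mk, AddHom.coe_mk]
      congr 1
      exact Subtype.ext h2.symm
    · rintro ⟨w, hw⟩
      have h1 := congrArg (fun z => (z.1 : G → V)) hw
      have h2 := congrArg (fun z => (z.2 : V)) hw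
      simp only [E, LinearMap.coe_mk, AddHom.coe_mk] at h1 h2
      apply Subtype.ext
      simp [T, ← h1, ← h2]
  have h1 := LinearMap.finrank_range_add_finrank_ker T
  rw [LinearMap.range_eq_top.2 hsurj, finrank_top, hker, LinearMap.finrank_range_of_inj hE,
    Module.finrank_prod] at h1
  exact h1.symm

end general

end Run7.h98
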