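import Pool.Agent.Run7.h98.HOne

/-!
The counting inequality: independent cocycles vanishing on `L`, paired with functionals fixed by
`K`, give independent functions on the set of double cosets `K \ G / L`.
-/

open Module

namespace Run7.h98

universe u v w

section count

variable {k : Type u} {G : Type v} {V : Type w} [Field k] [Group G]
    [AddCommGroup V] [Module k V]

/-- The averaging projection onto the vectors fixed by a finite subgroup. -/
noncomputable def avgMap (ρ : Representation k G V) (K : Subgroup G) [Fintype K] :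
    V →ₗ[k] inv ρ K :=
  LinearMap.codRestrict (inv ρ K)
    ((Nat.card K : k)⁻¹ • ∑ x : K, (ρ (x : G) : V →ₗ[k] V)) (by
      intro v l hl
      simp only [LinearMap.smul_apply, LinearMap.sum_apply, map_smul, map_sum]
      congr 1
      refine Fintype.sum_equiv (Equiv.mulLeft (⟨l, hl⟩ : K)) _ _ (fun x => ?_)
      simp [Equiv.coe_mulLeft])

lemma avgMap_apply (ρ : Representation k G V) (K : Subgroup G) [Fintype K] (v : V) :
    (avgMap ρ K v : V) = (Nat.card K : k)⁻¹ • ∑ x : K, ρ (x : G) v := by
  simp [avgMap]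

lemma avgMap_rho (ρ : Representation k G V) (K : Subgroup G) [Fintype K] {x : G} (hx : x ∈ K)
    (v : V) : avgMap ρ K (ρ x v) = avgMap ρ K v := by
  apply Subtype.ext
  rw [avgMap_apply, avgMap_apply]
  congr 1
  refine Fintype.sum_equiv (Equiv.mulRight (⟨x, hx⟩ : K)) _ _ (fun y => ?_)
  simp [Equiv.coe_mulRight]

lemma avgMap_of_mem (ρ : Representation k G V) (K : Subgroup G) [Fintype K]
    (hK : (Nat.card K : k) ≠ 0) {v : V} (hv : v ∈ inv ρ K) : avgMap ρ K v = ⟨v, hv⟩ := by
  apply Subtype.ext
  rw [avgMap_apply]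
  have : ∀ x : K, ρ (x : G) v = v := fun x => hv x.1 x.2
  simp only [this]
  rw [Finset.sum_const, Finset.card_univ, ← Nat.card_eq_fintype_card, ← Nat.cast_smul_eq_nsmul k,
    smul_smul, inv_mul_cancel₀ hK, one_smul]

/-- There is a space of functionals fixed by `K` of the same dimension as the space of vectors
fixed by `K`. -/
lemma exists_dual_fixed [FiniteDimensional k V] [Finite G] (ρ : Representation k G V)
    (K : Subgroup G) (hK : (Nat.card K : k) ≠ 0) :
    ∃ j : (Fin (finrank k (inv ρ K)) → k) →ₗ[k] (V →ₗ[k] k), Function.Injective j ∧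
      ∀ c, ∀ x ∈ K, ∀ v, j c (ρ x v) = j c v := by
  classical
  let _ : Fintype K := Fintype.ofFinite _
  let b := Module.finBasis k (inv ρ K)
  refine ⟨{ toFun := fun c => (∑ i, c i • b.coord i).comp (avgMap ρ K)
            map_add' := fun c d => by
              ext v
              simp only [LinearMap.comp_apply, LinearMap.sum_apply, LinearMap.smul_apply,
                LinearMap.add_apply, Pi.add_apply, add_smul, Finset.sum_add_distrib]
            map_smul' := fun c d => by
              ext v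
              simp only [LinearMap.comp_apply, LinearMap.sum_apply, LinearMap.smul_apply,
                Pi.smul_apply, smul_eq_mul, RingHom.id_apply, Finset.mul_sum, mul_assoc] },
    ?_, ?_⟩
  · intro c d hcd
    ext i
    have h1 := congrArg (fun z : V →ₗ[k] k => z (b i : V)) hcd
    simp only [LinearMap.coe_mk, AddHom.coe_mk, LinearMap.comp_apply] at h1
    rw [avgMap_of_mem ρ K hK (b i).2] at h1
    simp only [Subtype.coe_eta, LinearMap.sum_apply, LinearMap.smul_apply, Basis.coord_apply,
      Basis.repr_self, smul_eq_mul] at h1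
    simpa [Finsupp.single_apply] using h1
  · intro c x hx v
    simp only [LinearMap.coe_mk, AddHom.coe_mk, LinearMap.comp_apply, avgMap_rho ρ K hx]

lemma sum_eq_zero_of_card {ρ : Representation k G V} {K L : Subgroup G} [Finite G]
    (hK : (Nat.card K : k) ≠ 0) {ι : Type*} [Fintype ι] (δ : ι → G → V)
    (hδ : ∀ i, δ i ∈ ZZ ρ L) (f : ι → (V →ₗ[k] k)) (hf : ∀ i, ∀ x ∈ K, ∀ v, f i (ρ x v) = f i v)
    {x : G} (hx : x ∈ K) :
    ∑ i, f i (δ i x) = 0 := by
  have hadd : ∀ y ∈ K, ∀ z ∈ K,
      ∑ i, f i (δ i (y * z)) = ∑ i, f i (δ i y) + ∑ i, f i (δ i z) := by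
    intro y hy z hz
    rw [← Finset.sum_add_distrib]
    refine Finset.sum_congr rfl fun i _ => ?_
    rw [(hδ i).1, map_add, hf i y hy]
  have hpow : ∀ n : ℕ, ∑ i, f i (δ i (x ^ n)) = (n : k) * ∑ i, f i (δ i x) := by
    intro n
    induction n with
    | zero => simp [ZZ_one (hδ _)]
    | succ n ih =>
      rw [pow_succ, hadd _ (K.pow_mem hx n) _ hx, ih]
      push_cast; ring
  have h1 : x ^ (Nat.card K) = 1 := by
    have := pow_card_eq_one' (x := (⟨x, hx⟩ : K))
    exact congrArg Subtype.val this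
  have h2 := hpow (Nat.card K)
  rw [h1] at h2
  simp only [ZZ_one (hδ _), map_zero, Finset.sum_const_zero] at h2
  exact (mul_eq_zero.1 h2.symm).resolve_left hK

/-- The map from left cosets of `L` to double cosets. -/
noncomputable def toDC (K L : Subgroup G) (x : G ⧸ L) : DoubleCoset.Quotient (K : Set G) L :=
  DoubleCoset.mk K L x.out

lemma toDC_mk (K L : Subgroup G) (g : G) :
    toDC K L (QuotientGroup.mk g) = DoubleCoset.mk K L g := by
  unfold toDC
  rw [DoubleCoset.eq]
  obtain ⟨l, hl⟩ := QuotientGroup.mk_out_eq_mul L g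
  refine ⟨1, K.one_mem, (l : G)⁻¹, L.inv_mem l.2, ?_⟩
  rw [hl]; group

/-- The number of left cosets of `L` in the double coset `K L`, cast to `k`, is not zero. -/
lemma card_fiber_ne_zero [Finite G] [Fintype G] (K L : Subgroup G) (hK : (Nat.card K : k) ≠ 0) :
    (Nat.card {x : G ⧸ L // toDC K L x = DoubleCoset.mk K L 1} : k) ≠ 0 := by
  classical
  have h1 : {x : G ⧸ L | toDC K L x = DoubleCoset.mk K L 1} =
      MulAction.orbit K (QuotientGroup.mk 1 : G ⧸ L) := by
    ext x
    induction x using QuotientGroup.induction_on with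
    | H g =>
      rw [Set.mem_ofPred_eq, toDC_mk, DoubleCoset.eq, MulAction.mem_orbit_iff]
      constructor
      · rintro ⟨x, hx, l, hl, h⟩
        refine ⟨⟨x⁻¹, K.inv_mem hx⟩, ?_⟩
        show (QuotientGroup.mk (x⁻¹ * 1) : G ⧸ L) = QuotientGroup.mk g
        rw [QuotientGroup.eq]
        have : (x⁻¹ * 1)⁻¹ * g = l⁻¹ := by
          have : x * g * l = 1 := h.symm
          calc (x⁻¹ * 1)⁻¹ * g = (x * g * l) * l⁻¹ := by group
            _ = l⁻¹ := by rw [this, one_mul]
        rw [this]
        exact L.inv_mem hl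
      · rintro ⟨x, hx⟩
        have hx' : (QuotientGroup.mk ((x : G) * 1) : G ⧸ L) = QuotientGroup.mk g := hx
        rw [QuotientGroup.eq] at hx'
        refine ⟨(x : G)⁻¹, K.inv_mem x.2, (((x : G) * 1)⁻¹ * g)⁻¹, L.inv_mem hx', ?_⟩
        group
  have h2 : Nat.card {x : G ⧸ L // toDC K L x = DoubleCoset.mk K L 1} =
      Nat.card (MulAction.orbit K (QuotientGroup.mk 1 : G ⧸ L)) := by
    rw [← h1]; rfl
  rw [h2]
  have h3 : Nat.card (MulAction.orbit K (QuotientGroup.mk 1 : G ⧸ L)) ∣ Nat.card K := by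
    have := MulAction.card_orbit_mul_card_stabilizer_eq_card_group K
      (QuotientGroup.mk 1 : G ⧸ L)
    rw [Nat.card_eq_fintype_card, Nat.card_eq_fintype_card, ← this]
    exact Dvd.intro _ rfl
  obtain ⟨c, hc⟩ := h3
  intro h0
  apply hK
  rw [hc, Nat.cast_mul, h0, zero_mul]

lemma sum_cosets_eq_zero [Finite G] [Fintype G] {ρ : Representation k G V} (h0 : inv ρ ⊤ = ⊥)
    {L : Subgroup G} [Fintype (G ⧸ L)] (hidx : (L.index : k) = 0) {δ : G → V}
    (hδ : δ ∈ ZZ ρ L) : ∑ x : G ⧸ L, δ x.out = 0 := by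
  have hout : ∀ g : G, δ (QuotientGroup.mk g : G ⧸ L).out = δ g := by
    intro g
    obtain ⟨l, hl⟩ := QuotientGroup.mk_out_eq_mul L g
    rw [hl]; exact ZZ_mul_right hδ _ l.2
  have h1 : (∑ x : G ⧸ L, δ x.out) ∈ inv ρ ⊤ := by
    intro g _
    rw [map_sum]
    have h2 : ∀ x : G ⧸ L, ρ g (δ x.out) = δ (g • x).out - δ g := by
      intro x
      have h3 : g • x = QuotientGroup.mk (g * x.out) := by
        conv_lhs => rw [← QuotientGroup.out_eq' x]
        rfl
      rw [h3, hout, hδ.1]; abel
    simp only [h2, Finset.sum_sub_distrib]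
    rw [Fintype.sum_equiv (MulAction.toPerm g) (fun x : G ⧸ L => δ (g • x).out)
      (fun x => δ x.out) (fun x => rfl)]
    rw [Finset.sum_const, Finset.card_univ, ← Nat.card_eq_fintype_card,
      ← Nat.cast_smul_eq_nsmul k]
    have : ((Nat.card (G ⧸ L) : ℕ) : k) = 0 := hidx
    rw [this, zero_smul, sub_zero]
  rw [h0] at h1
  exact h1

/-- **Counting inequality.** -/
theorem count_le [Finite G] [FiniteDimensional k V] {ρ : Representation k G V}
    (hρ : Submodule.span k (Set.range fun g => (ρ g : V →ₗ[k] V)) = ⊤)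
    (h0 : inv ρ ⊤ = ⊥) (K L : Subgroup G) (hK : (Nat.card K : k) ≠ 0)
    (hidx : (L.index : k) = 0) {ι : Type*} [Fintype ι] (δ : ι → G → V)
    (hδ : ∀ i, δ i ∈ ZZ ρ L) (hind : LinearIndependent k δ) :
    Fintype.card ι * finrank k (inv ρ K) + 2 ≤
      Nat.card (DoubleCoset.Quotient (K : Set G) L) := by
  classical
  have : Fintype G := Fintype.ofFinite G
  have : Finite (DoubleCoset.Quotient (K : Set G) L) := Quotient.finite _
  have : Fintype (DoubleCoset.Quotient (K : Set G) L) := Fintype.ofFinite _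
  obtain ⟨j, hj, hjK⟩ := exists_dual_fixed ρ K hK
  generalize finrank k (inv ρ K) = d at j
  set Q := DoubleCoset.Quotient (K : Set G) L with hQ
  let Φ : ((ι → (Fin d → k)) × k) →ₗ[k] (Q → k) :=
    { toFun := fun x q => ∑ i, j (x.1 i) (δ i q.out) + x.2
      map_add' := fun x y => by
        ext q
        simp only [Prod.fst_add, Prod.snd_add, Pi.add_apply, map_add,
          LinearMap.add_apply, Finset.sum_add_distrib]
        ring
      map_smul' := fun c x => by
        ext q
        simp only [Prod.smul_fst, Prod.smul_snd, Pi.smul_apply, map_smul,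
          LinearMap.smul_apply, smul_eq_mul, RingHom.id_apply, ← Finset.mul_sum]
        ring }
  have hΦ : ∀ (f : ι → (Fin d → k)) (c : k) (g : G),
      Φ (f, c) (DoubleCoset.mk K L g) = ∑ i, j (f i) (δ i g) + c := by
    intro f c g
    show ∑ i, j (f i) (δ i (DoubleCoset.mk K L g).out) + c = _
    obtain ⟨x, y, hx, hy, hxy⟩ := DoubleCoset.mk_out_eq_mul K L g
    congr 1
    have h1 : ∀ i, j (f i) (δ i (x * g * y)) = j (f i) (δ i x) + j (f i) (δ i g) := by
      intro i
      rw [ZZ_mul_right (hδ i) _ hy, (hδ i).1, map_add, hjK _ x hx]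
    rw [hxy]
    simp only [h1, Finset.sum_add_distrib]
    rw [sum_eq_zero_of_card hK δ hδ (fun i => j (f i)) (fun i => hjK (f i)) hx, zero_add]
  have hinj : Function.Injective Φ := by
    rw [← LinearMap.ker_eq_bot, eq_bot_iff]
    rintro ⟨f, c⟩ hfc
    rw [LinearMap.mem_ker] at hfc
    have h1 : ∀ g : G, ∑ i, j (f i) (δ i g) + c = 0 := by
      intro g
      rw [← hΦ, hfc]; rfl
    have hc : c = 0 := by
      have := h1 1
      simpa [ZZ_one (hδ _)] using this
    subst hc
    simp only [add_zero] at h1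
    have h2 := sep_cocycle hρ δ hδ hind (fun i => j (f i)) h1
    rw [Submodule.mem_bot, Prod.mk_eq_zero]
    refine ⟨?_, rfl⟩
    funext i
    apply hj
    rw [Pi.zero_apply, map_zero]
    exact congrFun h2 i
  let σ : (Q → k) →ₗ[k] k :=
    { toFun := fun φ => ∑ x : G ⧸ L, φ (toDC K L x)
      map_add' := fun a b => by simp [Finset.sum_add_distrib]
      map_smul' := fun c a => by simp [Finset.mul_sum] }
  have hσ : LinearMap.range Φ ≤ LinearMap.ker σ := by
    rintro _ ⟨⟨f, c⟩, rfl⟩
    rw [LinearMap.mem_ker]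
    show ∑ x : G ⧸ L, Φ (f, c) (DoubleCoset.mk K L x.out) = 0
    simp only [hΦ]
    rw [Finset.sum_add_distrib, Finset.sum_comm]
    have h1 : ∀ i, ∑ x : G ⧸ L, j (f i) (δ i x.out) = 0 := by
      intro i
      rw [← map_sum, sum_cosets_eq_zero h0 hidx (hδ i), map_zero]
    simp only [h1, Finset.sum_const_zero, zero_add]
    rw [Finset.sum_const, Finset.card_univ, ← Nat.card_eq_fintype_card, nsmul_eq_mul]
    have : ((Nat.card (G ⧸ L) : ℕ) : k) = 0 := hidx
    rw [this, zero_mul]
  have hσne : σ ≠ 0 := by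
    intro hzero
    have h1 := congrArg (fun z => z (Pi.single (DoubleCoset.mk K L 1) (1 : k))) hzero
    have h2 : σ (Pi.single (DoubleCoset.mk K L 1) (1 : k)) =
        (Nat.card {x : G ⧸ L // toDC K L x = DoubleCoset.mk K L 1} : k) := by
      show ∑ x : G ⧸ L, (Pi.single (DoubleCoset.mk K L 1) (1 : k) : Q → k) (toDC K L x) = _
      simp only [Pi.single_apply]
      rw [Finset.sum_boole, Nat.card_eq_fintype_card, Fintype.card_subtype]
    simp only [LinearMap.zero_apply] at h1
    rw [h2] at h1
    exact card_fiber_ne_zero K L hK h1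
  have hsurj : Function.Surjective σ := LinearMap.surjective hσne
  have e1 := LinearMap.finrank_range_add_finrank_ker σ
  rw [LinearMap.range_eq_top.2 hsurj, finrank_top, Module.finrank_self,
    Module.finrank_fintype_fun_eq_card] at e1
  have e2 := Submodule.finrank_mono hσ
  rw [LinearMap.finrank_range_of_inj hinj, Module.finrank_prod, Module.finrank_self,
    Module.finrank_pi_fintype, Finset.sum_const, Finset.card_univ, smul_eq_mul,
    Module.finrank_fin_fun] at e2
  rw [Nat.card_eq_fintype_card]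
  omega

end count

end Run7.h98
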