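import Pool.Agent.Run7.h98.QSum

/-!
Functionals fixed by a subgroup, and the basic orthogonality computations.
-/

open Module

namespace Run7.h98

universe u v w

section dual

variable {k : Type u} {G : Type v} {V : Type w} [Field k] [Group G]
    [AddCommGroup V] [Module k V]

/-- The functionals fixed by the subgroup `K`. -/
def dinv (ρ : Representation k G V) (K : Subgroup G) : Submodule k (V →ₗ[k] k) where
  carrier := {f | ∀ x ∈ K, ∀ v, f (ρ x v) = f v}
  add_mem' := by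
    intro a b ha hb x hx v
    rw [LinearMap.add_apply, LinearMap.add_apply, ha x hx, hb x hx]
  zero_mem' := by intro x hx v; simp
  smul_mem' := by
    intro c a ha x hx v
    rw [LinearMap.smul_apply, LinearMap.smul_apply, ha x hx]

lemma mem_dinv {ρ : Representation k G V} {K : Subgroup G} {f : (V →ₗ[k] k)} :
    f ∈ dinv ρ K ↔ ∀ x ∈ K, ∀ v, f (ρ x v) = f v := Iff.rfl

lemma dinv_inv_apply {ρ : Representation k G V} {K : Subgroup G} {f : (V →ₗ[k] k)}
    (hf : f ∈ dinv ρ K) {x : G} (hx : x ∈ K) (v : V) : f (ρ x⁻¹ v) = f v :=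
  hf _ (K.inv_mem hx) v

/-- There is a projection onto the vectors fixed by `C` which is itself invariant under `C`. -/
def HasProj (ρ : Representation k G V) (C : Subgroup G) : Prop :=
  ∃ E : V →ₗ[k] V, (∀ v, E v ∈ inv ρ C) ∧ (∀ v ∈ inv ρ C, E v = v) ∧
    ∀ x ∈ C, ∀ v, E (ρ x v) = E v

lemma hasProj_bot (ρ : Representation k G V) : HasProj ρ ⊥ := by
  refine ⟨LinearMap.id, fun v l hl => ?_, fun v _ => rfl, fun x hx v => ?_⟩
  · rw [Subgroup.mem_bot] at hl
    subst hl; simp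
  · rw [Subgroup.mem_bot] at hx
    subst hx; simp

lemma finrank_inv_le_dinv [Finite G] [FiniteDimensional k V] {ρ : Representation k G V}
    {C K : Subgroup G} (hCK : C ≤ K) (hidx : (C.relIndex K : k) ≠ 0) (hE : HasProj ρ C) :
    finrank k (inv ρ K) ≤ finrank k (dinv ρ K) := by
  classical
  obtain ⟨E, hE1, hE2, hE3⟩ := hE
  let _ : Fintype (K ⧸ C.subgroupOf K) := Fintype.ofFinite _
  let res : dinv ρ K →ₗ[k] ((inv ρ K) →ₗ[k] k) :=
    { toFun := fun f => (f : V →ₗ[k] k).comp (inv ρ K).subtype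
      map_add' := fun f g => rfl
      map_smul' := fun c f => rfl }
  have hsurj : Function.Surjective res := by
    intro lam
    obtain ⟨ℓ, hℓ⟩ := lam.exists_extend
    let φ : (V →ₗ[k] k) := (C.relIndex K : k)⁻¹ •
      ∑ x : K ⧸ C.subgroupOf K, (ℓ.comp E).comp (ρ ((x.out : K) : G)⁻¹ : V →ₗ[k] V)
    have hg : ∀ x ∈ C, ∀ v, (ℓ.comp E) (ρ x v) = (ℓ.comp E) v := by
      intro x hx v
      rw [LinearMap.comp_apply, LinearMap.comp_apply, hE3 x hx]
    have hφ : φ ∈ dinv ρ K := by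
      intro y hy v
      simp only [φ, LinearMap.smul_apply, LinearMap.sum_apply]
      congr 1
      refine Fintype.sum_equiv (MulAction.toPerm (⟨y, hy⟩ : K)⁻¹) _ _ (fun x => ?_)
      rw [MulAction.toPerm_apply]
      have h2 : ((⟨y, hy⟩ : K)⁻¹ • x) = QuotientGroup.mk ((⟨y, hy⟩ : K)⁻¹ * x.out) := by
        conv_lhs => rw [← QuotientGroup.out_eq' x]
        rfl
      rw [h2]
      obtain ⟨c, hc⟩ := QuotientGroup.mk_out_eq_mul (C.subgroupOf K) ((⟨y, hy⟩ : K)⁻¹ * x.out)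
      have h3 : (((QuotientGroup.mk ((⟨y, hy⟩ : K)⁻¹ * x.out) :
          K ⧸ C.subgroupOf K).out : K) : G) = y⁻¹ * ((x.out : K) : G) * ((c : K) : G) := by
        rw [hc]; rfl
      rw [h3, mul_inv_rev]
      have h6 : (ℓ.comp E) (ρ ((c : K) : G)⁻¹ (ρ (y⁻¹ * ((x.out : K) : G))⁻¹ v)) =
          (ℓ.comp E) (ρ (y⁻¹ * ((x.out : K) : G))⁻¹ v) :=
        hg _ (C.inv_mem (Subgroup.mem_subgroupOf.1 c.2)) _
      have h7 : ρ (((c : K) : G)⁻¹ * (y⁻¹ * ((x.out : K) : G))⁻¹) v =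
          ρ ((c : K) : G)⁻¹ (ρ (y⁻¹ * ((x.out : K) : G))⁻¹ v) := by
        rw [map_mul]; rfl
      have h8 : ρ (y⁻¹ * ((x.out : K) : G))⁻¹ v = ρ ((x.out : K) : G)⁻¹ (ρ y v) := by
        rw [mul_inv_rev, inv_inv, map_mul]; rfl
      show (ℓ.comp E) (ρ ((x.out : K) : G)⁻¹ (ρ y v)) =
        (ℓ.comp E) (ρ (((c : K) : G)⁻¹ * (y⁻¹ * ((x.out : K) : G))⁻¹) v)
      rw [h7, h6, h8]
    refine ⟨⟨φ, hφ⟩, ?_⟩
    ext v
    show φ (v : V) = lam v
    simp only [φ, LinearMap.smul_apply, LinearMap.sum_apply, LinearMap.comp_apply]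
    have h4 : ∀ x : K ⧸ C.subgroupOf K, ρ ((x.out : K) : G)⁻¹ (v : V) = v := fun x =>
      v.2 _ (K.inv_mem x.out.2)
    simp only [h4]
    rw [hE2 _ (inv_mono hCK v.2), Finset.sum_const, Finset.card_univ,
      ← Nat.card_eq_fintype_card, ← Nat.cast_smul_eq_nsmul k, smul_smul]
    have h5 : (Nat.card (K ⧸ C.subgroupOf K) : k) = (C.relIndex K : k) := rfl
    rw [h5, inv_mul_cancel₀ hidx, one_smul]
    have := congrArg (fun z => z v) hℓ
    exact this
  have h1 := LinearMap.finrank_le_finrank_of_surjective hsurj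
  rwa [Subspace.dual_finrank_eq] at h1

/-- A functional fixed by `K` kills the values on `K` of a cocycle vanishing on `C`. -/
lemma dinv_cocycle_zero [Finite G] {ρ : Representation k G V} {C K : Subgroup G}
    (hidx : (C.relIndex K : k) ≠ 0) {δ : G → V} (hδ : δ ∈ ZZ ρ C) {f : (V →ₗ[k] k)}
    (hf : f ∈ dinv ρ K) {x : G} (hx : x ∈ K) : f (δ x) = 0 := by
  let _ : Fintype (K ⧸ C.subgroupOf K) := Fintype.ofFinite _
  have h1 := congrArg f (rho_csum (P := K) hδ hx)
  rw [hf x hx, map_sub, map_smul, smul_eq_mul] at h1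
  have h2 : (C.relIndex K : k) * f (δ x) = 0 := by
    linear_combination h1
  exact (mul_eq_zero.1 h2).resolve_left hidx

/-- The function `g ↦ f (δ g)` is left invariant. -/
lemma dinv_cocycle_left [Finite G] {ρ : Representation k G V} {C K : Subgroup G}
    (hidx : (C.relIndex K : k) ≠ 0) {δ : G → V} (hδ : δ ∈ ZZ ρ C) {f : (V →ₗ[k] k)}
    (hf : f ∈ dinv ρ K) {x : G} (hx : x ∈ K) (g : G) : f (δ (x * g)) = f (δ g) := by
  rw [hδ.1, map_add, dinv_cocycle_zero hidx hδ hf hx, zero_add, hf x hx]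

lemma dinv_top_eq_bot (ρ : Representation k G V)
    (hρ : Submodule.span k (Set.range fun g => (ρ g : V →ₗ[k] V)) = ⊤)
    (hnt : ∃ g, ρ g ≠ 1) : dinv ρ ⊤ = ⊥ := by
  rw [eq_bot_iff]
  intro f hf
  rw [Submodule.mem_bot]
  by_contra hne
  obtain ⟨v, hv⟩ : ∃ v, f v ≠ 0 := by
    by_contra hcon
    push Not at hcon
    exact hne (LinearMap.ext hcon)
  have hmul : ∀ a : V →ₗ[k] V, ∃ c : k, f.comp a = c • f := by
    intro a
    have ha : a ∈ Submodule.span k (Set.range fun g => (ρ g : V →ₗ[k] V)) := by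
      rw [hρ]; trivial
    induction ha using Submodule.span_induction with
    | mem a ha =>
      obtain ⟨x, rfl⟩ := ha
      refine ⟨1, ?_⟩
      ext w
      rw [one_smul]
      exact hf x (Subgroup.mem_top x) w
    | zero => exact ⟨0, by simp⟩
    | add a b _ _ iha ihb =>
      obtain ⟨c, hc⟩ := iha
      obtain ⟨d, hd⟩ := ihb
      exact ⟨c + d, by rw [LinearMap.comp_add, hc, hd, add_smul]⟩
    | smul c a _ iha =>
      obtain ⟨d, hd⟩ := iha
      exact ⟨c * d, by rw [LinearMap.comp_smul, hd, smul_smul]⟩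
  have hall : ∀ ψ : (V →ₗ[k] k), ∃ c : k, ψ = c • f := by
    intro ψ
    obtain ⟨c, hc⟩ := hmul (ψ.smulRight ((f v)⁻¹ • v))
    refine ⟨c, ?_⟩
    rw [← hc]
    ext w
    simp [hv]
  obtain ⟨g, hg⟩ := hnt
  apply hg
  ext w
  have h1 : ∀ ψ : (V →ₗ[k] k), ψ (ρ g w - w) = 0 := by
    intro ψ
    obtain ⟨c, rfl⟩ := hall ψ
    rw [map_sub, LinearMap.smul_apply, LinearMap.smul_apply, hf g (Subgroup.mem_top g), sub_self]
  have h2 := (Module.forall_dual_apply_eq_zero_iff k (ρ g w - w)).1 h1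
  rw [sub_eq_zero] at h2
  exact h2

end dual

section orth

variable {k : Type u} {G : Type v} {V : Type w} {V' : Type w} [Field k] [Group G] [Finite G]
    [AddCommGroup V] [Module k V] [AddCommGroup V'] [Module k V']

lemma qsum_dinv_zero {ρ : Representation k G V} (h0 : dinv ρ ⊤ = ⊥) {L : Subgroup G}
    {f : (V →ₗ[k] k)} (hf : f ∈ dinv ρ L) (y : V) : qsum L (fun g => f (ρ g⁻¹ y)) = 0 := by
  let _ : Fintype (G ⧸ L) := Fintype.ofFinite _
  let Φ : (V →ₗ[k] k) :=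
    { toFun := fun y => qsum L (fun g => f (ρ g⁻¹ y))
      map_add' := fun a b => by simp only [map_add, qsum_add]
      map_smul' := fun c a => by
        simp only [map_smul, smul_eq_mul, RingHom.id_apply, qsum_eq, Finset.mul_sum] }
  have hΦ : Φ ∈ dinv ρ ⊤ := by
    intro h _ y
    show qsum L (fun g => f (ρ g⁻¹ (ρ h y))) = qsum L (fun g => f (ρ g⁻¹ y))
    rw [← qsum_shift L (F := fun g => f (ρ g⁻¹ (ρ h y))) _ h]
    · refine qsum_congr L fun g => ?_
      rw [← Module.End.mul_apply, ← map_mul]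
      congr 2
      group
    · intro g l hl
      rw [mul_inv_rev, map_mul, Module.End.mul_apply]
      exact dinv_inv_apply hf hl _
  rw [h0, Submodule.mem_bot] at hΦ
  exact congrArg (fun z => z y) hΦ

lemma qsum_cocycle_zero {ρ : Representation k G V} (h0 : inv ρ ⊤ = ⊥)
    {L : Subgroup G} (hidx : (L.index : k) = 0) {δ : G → V}
    (hδ : δ ∈ ZZ ρ L) : qsum L δ = 0 := by
  classical
  let _ : Fintype G := Fintype.ofFinite _
  let _ : Fintype (G ⧸ L) := Fintype.ofFinite _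
  rw [qsum_eq]
  exact sum_cosets_eq_zero h0 hidx hδ

lemma qsum_dual_zero {ρ : Representation k G V} (h0 : inv ρ ⊤ = ⊥)
    {C K L : Subgroup G} (hCK : C ≤ K) (hCL : C ≤ L) (hidx : (C.index : k) = 0)
    (hL : (C.relIndex L : k) ≠ 0) {δ : G → V} (hδ : δ ∈ ZZ ρ K) {f : (V →ₗ[k] k)}
    (hf : f ∈ dinv ρ L) : qsum L (fun g => f (δ g⁻¹)) = 0 := by
  have hδC : δ ∈ ZZ ρ C := ZZ_mono hCK hδ
  have h1 : qsum C (fun g => f (δ g)) = 0 := by
    rw [← map_qsum, qsum_cocycle_zero h0 hidx hδC, map_zero]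
  rw [← qsum_inv C] at h1
  · rw [qsum_relIndex hCL, ← Nat.cast_smul_eq_nsmul k, smul_eq_mul] at h1
    · exact (mul_eq_zero.1 h1).resolve_left hL
    · intro g l hl
      rw [mul_inv_rev, dinv_cocycle_left hL hδC hf (L.inv_mem hl)]
  · intro g c hc
    rw [ZZ_mul_right hδC _ hc]
  · intro g c hc
    rw [dinv_cocycle_left hL hδC hf (hCL hc)]

/-- The operator attached to a cocycle of `σ` and a functional of `ρ`. -/
noncomputable def TT {ρ : Representation k G V} {σ : Representation k G V'} {L : Subgroup G}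
    (f : dinv ρ L) (δ : ZZ σ L) : V →ₗ[k] V' where
  toFun y := qsum L (fun g => (f : V →ₗ[k] k) (ρ g⁻¹ y) • (δ : G → V') g)
  map_add' a b := by simp only [map_add, add_smul, qsum_add]
  map_smul' c a := by
    let _ : Fintype (G ⧸ L) := Fintype.ofFinite _
    simp only [map_smul, smul_eq_mul, RingHom.id_apply, qsum_eq, Finset.smul_sum, mul_smul]

lemma TT_rho {ρ : Representation k G V} {σ : Representation k G V'} (h0 : dinv ρ ⊤ = ⊥)
    {L : Subgroup G} (f : dinv ρ L) (δ : ZZ σ L) (h : G) (y : V) :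
    TT f δ (ρ h y) = σ h (TT f δ y) := by
  let _ : Fintype (G ⧸ L) := Fintype.ofFinite _
  show qsum L (fun g => (f : V →ₗ[k] k) (ρ g⁻¹ (ρ h y)) • (δ : G → V') g) =
    σ h (qsum L (fun g => (f : V →ₗ[k] k) (ρ g⁻¹ y) • (δ : G → V') g))
  rw [map_qsum, ← qsum_shift L _ h]
  · have h1 : ∀ g, (f : V →ₗ[k] k) (ρ (h * g)⁻¹ (ρ h y)) • (δ : G → V') (h * g) =
        (f : V →ₗ[k] k) (ρ g⁻¹ y) • (δ : G → V') h +
        σ h ((f : V →ₗ[k] k) (ρ g⁻¹ y) • (δ : G → V') g) := by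
      intro g
      rw [← Module.End.mul_apply, ← map_mul, δ.2.1, smul_add, map_smul]
      have : (h * g)⁻¹ * h = g⁻¹ := by group
      rw [this]
    rw [qsum_congr L h1, qsum_add]
    have h2 : qsum L (fun g => (f : V →ₗ[k] k) (ρ g⁻¹ y) • (δ : G → V') h) = 0 := by
      have := qsum_dinv_zero h0 f.2 y
      rw [qsum_eq] at this ⊢
      rw [← Finset.sum_smul, this, zero_smul]
    rw [h2, zero_add]
  · intro g l hl
    rw [ZZ_mul_right δ.2 _ hl, mul_inv_rev, map_mul, Module.End.mul_apply,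
      dinv_inv_apply f.2 hl]

/-- The vector attached to a cocycle of `σ` and a functional and a cocycle of `ρ`. -/
lemma WW_rho {ρ : Representation k G V} {σ : Representation k G V'}
    (h0 : inv ρ ⊤ = ⊥)
    {C K L : Subgroup G} (hCK : C ≤ K) (hCL : C ≤ L) (hidx : (C.index : k) = 0)
    (hL : (C.relIndex L : k) ≠ 0)
    (f : dinv ρ L) {δ' : G → V} (hδ' : δ' ∈ ZZ ρ K) (δ : ZZ σ L) (h : G) :
    σ h (qsum L (fun g => (f : V →ₗ[k] k) (δ' g⁻¹) • (δ : G → V') g)) =
      qsum L (fun g => (f : V →ₗ[k] k) (δ' g⁻¹) • (δ : G → V') g) + TT f δ (δ' h) := by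
  let _ : Fintype (G ⧸ L) := Fintype.ofFinite _
  have hδC : δ' ∈ ZZ ρ C := ZZ_mono hCK hδ'
  set F : G → V' := fun g => (f : V →ₗ[k] k) (δ' (g⁻¹ * h)) • (δ : G → V') g with hF
  have hFr : ∀ g, ∀ l ∈ L, F (g * l) = F g := by
    intro g l hl
    simp only [hF]
    rw [ZZ_mul_right δ.2 _ hl, mul_inv_rev, mul_assoc,
      dinv_cocycle_left hL hδC f.2 (L.inv_mem hl)]
  have e1 : qsum L F = qsum L (fun g => (f : V →ₗ[k] k) (δ' g⁻¹) • (δ : G → V') g) +
      TT f δ (δ' h) := by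
    show qsum L F = qsum L (fun g => (f : V →ₗ[k] k) (δ' g⁻¹) • (δ : G → V') g) +
      qsum L (fun g => (f : V →ₗ[k] k) (ρ g⁻¹ (δ' h)) • (δ : G → V') g)
    rw [← qsum_add]
    refine qsum_congr L fun g => ?_
    simp only [hF]
    rw [hδ'.1, map_add, add_smul]
  rw [← e1, map_qsum, ← qsum_shift L hFr h]
  have h1 : ∀ g, F (h * g) = (f : V →ₗ[k] k) (δ' g⁻¹) • (δ : G → V') h +
      σ h ((f : V →ₗ[k] k) (δ' g⁻¹) • (δ : G → V') g) := by
    intro g
    simp only [hF]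
    have : (h * g)⁻¹ * h = g⁻¹ := by group
    rw [this, δ.2.1, smul_add, map_smul]
  rw [qsum_congr L h1, qsum_add]
  have h2 : qsum L (fun g => (f : V →ₗ[k] k) (δ' g⁻¹) • (δ : G → V') h) = 0 := by
    have := qsum_dual_zero h0 hCK hCL hidx hL hδ' f.2
    rw [qsum_eq] at this ⊢
    rw [← Finset.sum_smul, this, zero_smul]
  rw [h2, zero_add]

/-- Orthogonality, different representations. -/
lemma WW_zero_of_sep {ρ : Representation k G V} {σ : Representation k G V'}
    (h0 : inv ρ ⊤ = ⊥) (h0' : dinv ρ ⊤ = ⊥) (h0'' : inv σ ⊤ = ⊥)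
    (hsep : ∃ r : MonoidAlgebra k G, ρ.asAlgebraHom r = 1 ∧ σ.asAlgebraHom r = 0)
    {C K L : Subgroup G} (hCK : C ≤ K) (hCL : C ≤ L) (hidx : (C.index : k) = 0)
    (hL : (C.relIndex L : k) ≠ 0)
    (f : dinv ρ L) {δ' : G → V} (hδ' : δ' ∈ ZZ ρ K) (δ : ZZ σ L) :
    qsum L (fun g => (f : V →ₗ[k] k) (δ' g⁻¹) • (δ : G → V') g) = 0 := by
  obtain ⟨r, hr1, hr0⟩ := hsep
  have hT : ∀ (s : MonoidAlgebra k G) (y : V),
      TT f δ (ρ.asAlgebraHom s y) = σ.asAlgebraHom s (TT f δ y) := by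
    intro s y
    induction s using MonoidAlgebra.induction_on with
    | of g =>
      rw [Representation.asAlgebraHom_of, Representation.asAlgebraHom_of]
      exact TT_rho h0' f δ g y
    | add a b ha hb =>
      rw [map_add, map_add, LinearMap.add_apply, LinearMap.add_apply, map_add, ha, hb]
    | smul c a ha =>
      rw [map_smul, map_smul, LinearMap.smul_apply, LinearMap.smul_apply, map_smul, ha]
  have hT0 : ∀ y, TT f δ y = 0 := by
    intro y
    have := hT r y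
    rw [hr1, hr0] at this
    exact this
  have h1 : qsum L (fun g => (f : V →ₗ[k] k) (δ' g⁻¹) • (δ : G → V') g) ∈ inv σ ⊤ := by
    intro h _
    rw [WW_rho h0 hCK hCL hidx hL f hδ' δ h, hT0, add_zero]
  rw [h0''] at h1
  exact h1

/-- Orthogonality, the same representation. -/
lemma WW_zero_same {ρ : Representation k G V}
    (hρ : Submodule.span k (Set.range fun g => (ρ g : V →ₗ[k] V)) = ⊤)
    (h0 : inv ρ ⊤ = ⊥) (h0' : dinv ρ ⊤ = ⊥)
    {C K L : Subgroup G} (hCK : C ≤ K) (hCL : C ≤ L) (hidx : (C.index : k) = 0)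
    (hL : (C.relIndex L : k) ≠ 0)
    (hK : ∃ δ' ∈ ZZ ρ K, ∀ v, cob ρ v ≠ δ')
    (f : dinv ρ L) {δ' : G → V} (hδ' : δ' ∈ ZZ ρ K) (δ : ZZ ρ L) :
    qsum L (fun g => (f : V →ₗ[k] k) (δ' g⁻¹) • (δ : G → V) g) = 0 := by
  have hcomm : ∀ (a : V →ₗ[k] V) (y : V), TT f δ (a y) = a (TT f δ y) := by
    intro a
    have ha : a ∈ Submodule.span k (Set.range fun g => (ρ g : V →ₗ[k] V)) := by
      rw [hρ]; trivial
    induction ha using Submodule.span_induction with
    | mem a ha =>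
      obtain ⟨x, rfl⟩ := ha
      exact fun y => TT_rho h0' f δ x y
    | zero => intro y; simp
    | add a b _ _ iha ihb =>
      intro y
      rw [LinearMap.add_apply, LinearMap.add_apply, map_add, iha, ihb]
    | smul c a _ iha =>
      intro y
      rw [LinearMap.smul_apply, LinearMap.smul_apply, map_smul, iha]
  have hT0 : ∀ y, TT f δ y = 0 := by
    by_contra hcon
    push Not at hcon
    obtain ⟨y, hy⟩ := hcon
    have hy0 : y ≠ 0 := by
      rintro rfl
      exact hy (map_zero _)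
    obtain ⟨φ, hφ⟩ : ∃ φ : (V →ₗ[k] k), φ y ≠ 0 := by
      by_contra hcon
      push Not at hcon
      exact hy0 ((Module.forall_dual_apply_eq_zero_iff k y).1 hcon)
    set t : k := (φ y)⁻¹ * φ (TT f δ y) with ht
    have hscal : ∀ z, TT f δ z = t • z := by
      intro z
      have h1 := hcomm (φ.smulRight ((φ y)⁻¹ • z)) y
      rw [LinearMap.smulRight_apply, LinearMap.smulRight_apply, smul_smul, smul_smul,
        mul_inv_cancel₀ hφ, one_smul] at h1
      rw [h1, ht, mul_comm]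
    have ht0 : t ≠ 0 := by
      intro h
      apply hy
      rw [hscal, h, zero_smul]
    obtain ⟨δ₁, hδ₁, hne⟩ := hK
    set W := qsum L (fun g => (f : V →ₗ[k] k) (δ₁ g⁻¹) • (δ : G → V) g)
    apply hne (t⁻¹ • W)
    funext h
    rw [cob_apply, map_smul, WW_rho h0 hCK hCL hidx hL f hδ₁ δ h, smul_add, hscal, smul_smul,
      inv_mul_cancel₀ ht0, one_smul]
    abel
  have h1 : qsum L (fun g => (f : V →ₗ[k] k) (δ' g⁻¹) • (δ : G → V) g) ∈ inv ρ ⊤ := by
    intro h _
    rw [WW_rho h0 hCK hCL hidx hL f hδ' δ h, hT0, add_zero]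
  rw [h0] at h1
  exact h1

end orth

end Run7.h98
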