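import Pool.Agent.Run7.h98.Count

/-!
The generation inequality and the general double coset bound.
-/

open Module

namespace Run7.h98

universe u v w

section gen

variable {k : Type u} {G : Type v} {V : Type w} [Field k] [Group G]
    [AddCommGroup V] [Module k V]

/-- The subgroup on which a cocycle vanishes. -/
def zeroSubgroup {ρ : Representation k G V} {L : Subgroup G} {δ : G → V} (h : δ ∈ ZZ ρ L) :
    Subgroup G where
  carrier := {g | δ g = 0}
  mul_mem' := by
    intro a b ha hb
    rw [Set.mem_ofPred_eq] at *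
    rw [h.1, ha, hb, map_zero, add_zero]
  one_mem' := ZZ_one h
  inv_mem' := by
    intro a ha
    rw [Set.mem_ofPred_eq] at *
    have h1 := h.1 a⁻¹ a
    rw [inv_mul_cancel, ZZ_one h, ha, map_zero, add_zero] at h1
    exact h1.symm

lemma eq_zero_of_iSup_eq_top {ρ : Representation k G V} {L : Subgroup G} {δ : G → V}
    (h : δ ∈ ZZ ρ L) {κ : Type*} (H : κ → Subgroup G) (hH : ⨆ j, H j = ⊤)
    (hz : ∀ j, ∀ g ∈ H j, δ g = 0) : δ = 0 := by
  have h1 : (⊤ : Subgroup G) ≤ zeroSubgroup h := by
    rw [← hH]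
    exact iSup_le fun j g hg => hz j g hg
  funext g
  exact h1 (Subgroup.mem_top g)

/-- The vector whose coboundary a cocycle vanishing on `B` is, on `P`. -/
noncomputable def avgVec (ρ : Representation k G V) {B P : Subgroup G} (hBP : B ≤ P)
    [Fintype (P ⧸ B.subgroupOf P)] (hidx : (B.relIndex P : k) ≠ 0) :
    ZZ ρ B →ₗ[k] inv ρ B :=
  LinearMap.codRestrict (inv ρ B)
    ((-(B.relIndex P : k)⁻¹ • csum (k := k) V B P).comp (ZZ ρ B).subtype)
    (fun δ => (avg hBP hidx δ.2).1)

lemma avgVec_spec {ρ : Representation k G V} {B P : Subgroup G} (hBP : B ≤ P)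
    [Fintype (P ⧸ B.subgroupOf P)] (hidx : (B.relIndex P : k) ≠ 0) (δ : ZZ ρ B) {g : G}
    (hg : g ∈ P) : (δ : G → V) g = cob ρ (avgVec ρ hBP hidx δ : V) g :=
  (avg hBP hidx δ.2).2 g hg

/-- **Generation inequality.** -/
theorem gen_le [Finite G] [FiniteDimensional k V] (ρ : Representation k G V)
    (B : Subgroup G) {κ : Type*} [Fintype κ] (H : κ → Subgroup G) (hBH : ∀ j, B ≤ H j)
    (hidx : ∀ j, (B.relIndex (H j) : k) ≠ 0) (hH : ⨆ j, H j = ⊤) :
    finrank k (ZZ ρ B) + ∑ j, finrank k (inv ρ (H j)) ≤ Fintype.card κ * finrank k (inv ρ B) := by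
  classical
  have : ∀ j, Fintype (H j ⧸ B.subgroupOf (H j)) := fun j => Fintype.ofFinite _
  let T : (ZZ ρ B × (∀ j, inv ρ (H j))) →ₗ[k] (κ → inv ρ B) :=
    { toFun := fun x j => avgVec ρ (hBH j) (hidx j) x.1 +
        Submodule.inclusion (inv_mono (hBH j)) (x.2 j)
      map_add' := fun x y => by
        funext j
        simp only [Prod.fst_add, Prod.snd_add, map_add, Pi.add_apply]
        abel
      map_smul' := fun c x => by
        funext j
        simp only [Prod.smul_fst, Prod.smul_snd, map_smul, Pi.smul_apply, smul_add,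
          RingHom.id_apply] }
  have hT : Function.Injective T := by
    rw [← LinearMap.ker_eq_bot, eq_bot_iff]
    rintro ⟨δ, v⟩ h
    rw [LinearMap.mem_ker] at h
    have h1 : ∀ j, (avgVec ρ (hBH j) (hidx j) δ : V) = -(v j : V) := by
      intro j
      have h2 := congrArg Subtype.val (congrFun h j)
      exact eq_neg_of_add_eq_zero_left h2
    have h3 : (δ : G → V) = 0 := by
      refine eq_zero_of_iSup_eq_top δ.2 H hH fun j g hg => ?_
      rw [avgVec_spec (hBH j) (hidx j) δ hg, h1, cob_apply, map_neg, (v j).2 g hg, sub_self]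
    have h4 : δ = 0 := Subtype.ext h3
    subst h4
    rw [Submodule.mem_bot, Prod.mk_eq_zero]
    refine ⟨rfl, ?_⟩
    funext j
    have h5 := h1 j
    rw [map_zero] at h5
    apply Subtype.ext
    have h6 : (0 : V) = -(v j : V) := h5
    rw [eq_comm, neg_eq_zero] at h6
    exact h6
  have h1 := LinearMap.finrank_le_finrank_of_injective hT
  rw [Module.finrank_prod, Module.finrank_pi_fintype, Module.finrank_pi_fintype,
    Finset.sum_const, Finset.card_univ, smul_eq_mul] at h1
  exact h1

end gen

end Run7.h98
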