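import Pool.Agent.Run7.h98.Cocycle

/-!
The dimension of Mathlib's `H1` in terms of cocycles vanishing on a subgroup.
-/

open Module

namespace Run7.h98

universe u

variable {k G V : Type u} [Field k] [Group G] [AddCommGroup V] [Module k V]

/-- The dimension of the first cohomology group. -/
noncomputable def hOne (ρ : Representation k G V) : ℕ :=
  finrank k (groupCohomology.H1 (Rep.of ρ))

lemma ZZ_bot_eq (ρ : Representation k G V) :
    ZZ ρ ⊥ = groupCohomology.cocycles₁ (Rep.of ρ) := by
  ext δ
  rw [groupCohomology.mem_cocycles₁_iff, mem_ZZ]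
  constructor
  · rintro ⟨h, -⟩ g g'
    rw [h]; exact add_comm _ _
  · intro h
    have h1 : ∀ g g' : G, δ (g * g') = δ g + ρ g (δ g') := by
      intro g g'
      rw [h]; exact add_comm _ _
    refine ⟨h1, ?_⟩
    intro l hl
    rw [Subgroup.mem_bot] at hl
    subst hl
    have := h1 1 1
    rw [mul_one, map_one] at this
    simpa using this

theorem hOne_add [Finite G] [FiniteDimensional k V] (ρ : Representation k G V)
    (h0 : inv ρ ⊤ = ⊥) : hOne ρ + finrank k V = finrank k (ZZ ρ ⊥) := by
  rw [ZZ_bot_eq]
  have hsurj : Function.Surjective (groupCohomology.H1π (Rep.of ρ)).hom :=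
    (ModuleCat.epi_iff_surjective _).1 inferInstance
  have h1 := LinearMap.finrank_range_add_finrank_ker (groupCohomology.H1π (Rep.of ρ)).hom
  rw [LinearMap.range_eq_top.2 hsurj, finrank_top] at h1
  have h2 : finrank k (LinearMap.ker (groupCohomology.H1π (Rep.of ρ)).hom) = finrank k V := by
    let E : V →ₗ[k] groupCohomology.cocycles₁ (Rep.of ρ) :=
      { toFun := fun v => ⟨cob ρ v, by
          rw [← ZZ_bot_eq]
          apply cob_mem
          intro l hl
          rw [Subgroup.mem_bot] at hl
          subst hl; simp⟩
        map_add' := fun x y => by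
          apply Subtype.ext; exact map_add _ _ _
        map_smul' := fun c x => by
          apply Subtype.ext; exact map_smul _ _ _ }
    have hE : Function.Injective E := by
      rw [← LinearMap.ker_eq_bot, eq_bot_iff]
      intro v hv
      rw [LinearMap.mem_ker] at hv
      have h3 : cob ρ v = 0 := congrArg Subtype.val hv
      rw [← h0]
      intro g _
      have := congrFun h3 g
      rw [cob_apply, Pi.zero_apply, sub_eq_zero] at this
      exact this
    have hr : LinearMap.ker (groupCohomology.H1π (Rep.of ρ)).hom = LinearMap.range E := by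
      ext δ
      rw [LinearMap.mem_ker, LinearMap.mem_range]
      have := groupCohomology.H1π_eq_zero_iff (A := Rep.of ρ) δ
      rw [show (groupCohomology.H1π (Rep.of ρ)).hom δ = groupCohomology.H1π (Rep.of ρ) δ from rfl,
        this]
      constructor
      · rintro ⟨v, hv⟩
        refine ⟨v, ?_⟩
        apply Subtype.ext
        exact hv
      · rintro ⟨v, hv⟩
        refine ⟨v, ?_⟩
        exact congrArg Subtype.val hv
    rw [hr, LinearMap.finrank_range_of_inj hE]
  rw [h2] at h1
  exact h1

/-- For a subgroup `L` of order invertible in `k`, the first cohomology is computed by cocycles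
vanishing on `L`. -/
theorem hOne_add_inv [Finite G] [FiniteDimensional k V] (ρ : Representation k G V)
    (h0 : inv ρ ⊤ = ⊥) (L : Subgroup G) (hL : (Nat.card L : k) ≠ 0) :
    hOne ρ + finrank k (inv ρ L) = finrank k (ZZ ρ L) := by
  have h1 := hOne_add ρ h0
  have h2 := finrank_ZZ_add (ρ := ρ) (bot_le : (⊥ : Subgroup G) ≤ L) (by
    rwa [Subgroup.relIndex_bot_left])
  have h3 : finrank k (inv ρ (⊥ : Subgroup G)) = finrank k V := by
    have : inv ρ (⊥ : Subgroup G) = ⊤ := by
      rw [eq_top_iff]
      rintro v - l hl
      rw [Subgroup.mem_bot] at hl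
      subst hl; simp
    rw [this, finrank_top]
  omega

end Run7.h98
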