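import Pool.Agent.Run7.h98.Gen

/-!
The general double coset bound for `dim H¹`.
-/

open Module

namespace Run7.h98

universe u v w

lemma inv_top_eq_bot {k : Type u} {G : Type v} {V : Type w} [Field k] [Group G]
    [AddCommGroup V] [Module k V] (ρ : Representation k G V)
    (hρ : Submodule.span k (Set.range fun g => (ρ g : V →ₗ[k] V)) = ⊤)
    (hnt : ∃ g, ρ g ≠ 1) : inv ρ ⊤ = ⊥ := by
  rw [eq_bot_iff]
  intro v hv
  rw [Submodule.mem_bot]
  by_contra hne
  obtain ⟨g, hg⟩ := hnt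
  apply hg
  have hmul : ∀ a : V →ₗ[k] V, ∃ c : k, a v = c • v := by
    intro a
    have ha : a ∈ Submodule.span k (Set.range fun g => (ρ g : V →ₗ[k] V)) := by
      rw [hρ]; trivial
    induction ha using Submodule.span_induction with
    | mem a ha =>
      obtain ⟨x, rfl⟩ := ha
      exact ⟨1, by rw [one_smul]; exact hv x (Subgroup.mem_top x)⟩
    | zero => exact ⟨0, by simp⟩
    | add a b _ _ iha ihb =>
      obtain ⟨c, hc⟩ := iha
      obtain ⟨d, hd⟩ := ihb
      exact ⟨c + d, by rw [LinearMap.add_apply, hc, hd, add_smul]⟩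
    | smul c a _ iha =>
      obtain ⟨d, hd⟩ := iha
      exact ⟨c * d, by rw [LinearMap.smul_apply, hd, smul_smul]⟩
  ext w
  obtain ⟨f, hf⟩ : ∃ f : Dual k V, f v ≠ 0 := by
    by_contra hcon
    push Not at hcon
    exact hne ((Module.forall_dual_apply_eq_zero_iff k v).1 hcon)
  obtain ⟨c, hc⟩ := hmul (f.smulRight ((f v)⁻¹ • w))
  rw [LinearMap.smulRight_apply, smul_smul, mul_inv_cancel₀ hf, one_smul] at hc
  rw [hc, map_smul, hv g (Subgroup.mem_top g)]
  rfl

/-- The general bound, in internal form. -/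
theorem main_bound {k G V : Type u} [Field k] [Group G] [Finite G] [AddCommGroup V] [Module k V]
    [FiniteDimensional k V] (ρ : Representation k G V)
    (hρ : Submodule.span k (Set.range fun g => (ρ g : V →ₗ[k] V)) = ⊤)
    (hnt : ∃ g, ρ g ≠ 1) {n : ℕ} (H : Fin (n + 1) → Subgroup G) (hgen : ⨆ j, H j = ⊤)
    (hH : ∀ j, (Nat.card (H j) : k) ≠ 0) (L : Subgroup G) (hL : (Nat.card L : k) ≠ 0)
    (h1 : hOne ρ ≠ 0) :
    (hOne ρ + ∑ j, finrank k (inv ρ (H j))) * (hOne ρ + finrank k (inv ρ L)) + 2 * n ≤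
      n * Nat.card (DoubleCoset.Quotient ((⨅ j, H j : Subgroup G) : Set G) L) := by
  have h0 := inv_top_eq_bot ρ hρ hnt
  set K := ⨅ j, H j with hKdef
  have hKH : ∀ j, K ≤ H j := fun j => iInf_le H j
  have hKidx : ∀ j, (K.relIndex (H j) : k) ≠ 0 := by
    intro j hj
    apply hH j
    have : K.relIndex (H j) ∣ Nat.card (H j) := Subgroup.relIndex_dvd_card K (H j)
    obtain ⟨c, hc⟩ := this
    rw [hc, Nat.cast_mul, hj, zero_mul]
  have hK : (Nat.card K : k) ≠ 0 := by
    intro hj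
    apply hH 0
    obtain ⟨c, hc⟩ := Subgroup.card_dvd_of_le (hKH 0)
    rw [hc, Nat.cast_mul, hj, zero_mul]
  have hidx : (L.index : k) = 0 := by
    by_contra hne
    apply h1
    have e1 := hOne_add_inv ρ h0 L hL
    have e2 := finrank_ZZ_add (ρ := ρ) (le_top : L ≤ ⊤) (by rwa [Subgroup.relIndex_top_right])
    have e3 : ZZ ρ ⊤ = ⊥ := by
      rw [eq_bot_iff]
      intro δ hδ
      rw [Submodule.mem_bot]
      funext g
      exact hδ.2 g (Subgroup.mem_top g)
    rw [e3, h0, finrank_bot, finrank_bot] at e2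
    omega
  have e1 := gen_le ρ K H hKH hKidx hgen
  rw [Fintype.card_fin] at e1
  have e2 := hOne_add_inv ρ h0 K hK
  have e3 := hOne_add_inv ρ h0 L hL
  let b := Module.finBasis k (ZZ ρ L)
  have e4 := count_le hρ h0 K L hK hidx (fun i => (b i : G → V)) (fun i => (b i).2)
    (b.linearIndependent.map' (ZZ ρ L).subtype (Submodule.ker_subtype _))
  rw [Fintype.card_fin, ← e3] at e4
  have e5 : hOne ρ + ∑ j, finrank k (inv ρ (H j)) ≤ n * finrank k (inv ρ K) := by
    nlinarith
  calc (hOne ρ + ∑ j, finrank k (inv ρ (H j))) * (hOne ρ + finrank k (inv ρ L)) + 2 * n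
      ≤ n * finrank k (inv ρ K) * (hOne ρ + finrank k (inv ρ L)) + 2 * n := by gcongr
    _ = n * ((hOne ρ + finrank k (inv ρ L)) * finrank k (inv ρ K) + 2) := by ring
    _ ≤ _ := Nat.mul_le_mul_left _ e4

end Run7.h98
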