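import Pool.Agent.Run7.h98.DualInv

/-!
The counting theorem for a family of representations.
-/

open Module

namespace Run7.h98

universe u v w

section bi

variable {k : Type u} {G : Type v} [Field k] [Group G]

/-- Functions on `G` constant on the double cosets `K g L`. -/
def Bi (k : Type u) {G : Type v} [Field k] [Group G] (K L : Subgroup G) :
    Submodule k (G → k) where
  carrier := {φ | ∀ x ∈ K, ∀ g, ∀ y ∈ L, φ (x * g * y) = φ g}
  add_mem' := by
    intro a b ha hb x hx g y hy
    rw [Pi.add_apply, Pi.add_apply, ha x hx g y hy, hb x hx g y hy]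
  zero_mem' := by intro x hx g y hy; rfl
  smul_mem' := by
    intro c a ha x hx g y hy
    rw [Pi.smul_apply, Pi.smul_apply, ha x hx g y hy]

lemma finrank_Bi [Finite G] (K L : Subgroup G) :
    finrank k (Bi k K L) = Nat.card (DoubleCoset.Quotient (K : Set G) L) := by
  classical
  have : Finite (DoubleCoset.Quotient (K : Set G) L) := Quotient.finite _
  let _ : Fintype (DoubleCoset.Quotient (K : Set G) L) := Fintype.ofFinite _
  let e : Bi k K L ≃ₗ[k] (DoubleCoset.Quotient (K : Set G) L → k) :=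
    { toFun := fun φ q => (φ : G → k) q.out
      map_add' := fun a b => rfl
      map_smul' := fun c a => rfl
      invFun := fun ψ => ⟨fun g => ψ (DoubleCoset.mk K L g), by
        intro x hx g y hy
        have : DoubleCoset.mk K L (x * g * y) = DoubleCoset.mk K L g := by
          rw [DoubleCoset.eq]
          exact ⟨x⁻¹, K.inv_mem hx, y⁻¹, L.inv_mem hy, by group⟩
        show ψ (DoubleCoset.mk K L (x * g * y)) = ψ (DoubleCoset.mk K L g)
        rw [this]⟩
      left_inv := by
        intro φ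
        apply Subtype.ext
        funext g
        show (φ : G → k) (DoubleCoset.mk K L g).out = (φ : G → k) g
        obtain ⟨x, y, hx, hy, hxy⟩ := DoubleCoset.mk_out_eq_mul K L g
        rw [hxy]
        exact φ.2 x hx g y hy
      right_inv := by
        intro ψ
        funext q
        show ψ (DoubleCoset.mk K L q.out) = ψ q
        rw [DoubleCoset.out_eq'] }
  rw [e.finrank_eq, Module.finrank_fintype_fun_eq_card, Nat.card_eq_fintype_card]

/-- The pairing of functions. -/
noncomputable def pairing (k : Type u) {G : Type v} [Field k] [Group G] [Finite G]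
    (L : Subgroup G) : (G → k) →ₗ[k] (G → k) →ₗ[k] k :=
  LinearMap.mk₂ k (fun φ ψ => qsum L (fun g => φ g * ψ g⁻¹))
    (fun a b c => by simp only [Pi.add_apply, add_mul, qsum_add])
    (fun c a b => by
      let _ : Fintype (G ⧸ L) := Fintype.ofFinite _
      simp only [Pi.smul_apply, smul_eq_mul, qsum_eq, Finset.mul_sum, mul_assoc])
    (fun a b c => by simp only [Pi.add_apply, mul_add, qsum_add])
    (fun c a b => by
      let _ : Fintype (G ⧸ L) := Fintype.ofFinite _
      simp only [Pi.smul_apply, smul_eq_mul, qsum_eq, Finset.mul_sum]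
      exact Finset.sum_congr rfl fun x _ => by ring)

lemma pairing_apply [Finite G] (L : Subgroup G) (φ ψ : G → k) :
    pairing k L φ ψ = qsum L (fun g => φ g * ψ g⁻¹) := rfl

lemma pairing_nondeg [Finite G] {K L : Subgroup G}
    (hfib : ∀ D : DoubleCoset.Quotient (K : Set G) L,
      (Nat.card {x : G ⧸ L // toDC K L x = D} : k) ≠ 0)
    {ψ : G → k} (hψ : ψ ∈ Bi k L K) (h : ∀ φ ∈ Bi k K L, pairing k L φ ψ = 0) : ψ = 0 := by
  classical
  let _ : Fintype (G ⧸ L) := Fintype.ofFinite _
  funext g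
  set D := DoubleCoset.mk K L g⁻¹ with hD
  let φ : G → k := fun x => if DoubleCoset.mk K L x = D then 1 else 0
  have hφ : φ ∈ Bi k K L := by
    intro x hx g y hy
    have : DoubleCoset.mk K L (x * g * y) = DoubleCoset.mk K L g := by
      rw [DoubleCoset.eq]
      exact ⟨x⁻¹, K.inv_mem hx, y⁻¹, L.inv_mem hy, by group⟩
    simp only [φ]
    rw [this]
  have h1 := h φ hφ
  rw [pairing_apply, qsum_eq] at h1
  have h2 : ∀ x : G ⧸ L, φ x.out * ψ x.out⁻¹ = (if toDC K L x = D then 1 else 0) * ψ g := by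
    intro x
    show (if DoubleCoset.mk K L x.out = D then (1 : k) else 0) * ψ x.out⁻¹ =
      (if toDC K L x = D then 1 else 0) * ψ g
    by_cases hx : DoubleCoset.mk K L x.out = D
    · rw [if_pos hx, if_pos (show toDC K L x = D from hx), one_mul, one_mul]
      rw [hD, DoubleCoset.eq] at hx
      obtain ⟨a, ha, b, hb, hab⟩ := hx
      have h3 : x.out⁻¹ = b * g * a := by
        have : x.out = a⁻¹ * g⁻¹ * b⁻¹ := by rw [hab]; group
        rw [this]; group
      rw [h3]
      exact hψ b hb g a ha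
    · rw [if_neg hx, if_neg (show ¬ toDC K L x = D from hx), zero_mul, zero_mul]
  simp only [h2] at h1
  rw [← Finset.sum_mul, Finset.sum_boole, ← Fintype.card_subtype,
    ← Nat.card_eq_fintype_card] at h1
  exact (mul_eq_zero.1 h1).resolve_left (hfib D)

/-- Two orthogonal spaces of functions. -/
lemma finrank_add_le [Finite G] {K L : Subgroup G}
    (hfib : ∀ D : DoubleCoset.Quotient (K : Set G) L,
      (Nat.card {x : G ⧸ L // toDC K L x = D} : k) ≠ 0)
    (A : Submodule k (G → k)) (A' : Submodule k (G → k)) (hA : A ≤ Bi k K L)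
    (hA' : A' ≤ Bi k L K) (horth : ∀ φ ∈ A, ∀ ψ ∈ A', pairing k L φ ψ = 0) :
    finrank k A + finrank k A' ≤ Nat.card (DoubleCoset.Quotient (K : Set G) L) := by
  classical
  let _ : Fintype G := Fintype.ofFinite _
  rw [← finrank_Bi (k := k)]
  set S := A.comap (Bi k K L).subtype with hS
  have hSA : finrank k S = finrank k A :=
    (Submodule.comapSubtypeEquivOfLe hA).finrank_eq
  let T : A' →ₗ[k] Dual k (Bi k K L) :=
    { toFun := fun ψ => ((pairing k L).flip (ψ : G → k)).comp (Bi k K L).subtype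
      map_add' := fun a b => by
        ext φ
        simp
      map_smul' := fun c a => by
        ext φ
        simp }
  have hTapp : ∀ (ψ : A') (φ : Bi k K L), T ψ φ = pairing k L (φ : G → k) (ψ : G → k) :=
    fun ψ φ => rfl
  have hT : Function.Injective T := by
    rw [← LinearMap.ker_eq_bot, eq_bot_iff]
    intro ψ hψ
    rw [LinearMap.mem_ker] at hψ
    rw [Submodule.mem_bot]
    apply Subtype.ext
    apply pairing_nondeg hfib (hA' ψ.2)
    intro φ hφ
    rw [← hTapp ψ ⟨φ, hφ⟩, hψ]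
    rfl
  have hr : LinearMap.range T ≤ S.dualAnnihilator := by
    rintro _ ⟨ψ, rfl⟩
    rw [Submodule.mem_dualAnnihilator]
    intro φ hφ
    rw [hTapp]
    exact horth _ hφ _ ψ.2
  have h1 := Submodule.finrank_mono hr
  rw [LinearMap.finrank_range_of_inj hT] at h1
  have h2 := Subspace.finrank_add_finrank_dualAnnihilator_eq S
  rw [hSA] at h2
  omega

end bi

section dmap

variable {k : Type u} {G : Type v} {V : Type w} [Field k] [Group G] [AddCommGroup V] [Module k V]
  [FiniteDimensional k V]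

instance dinv_free (ρ : Representation k G V) (K : Subgroup G) : Module.Free k (dinv ρ K) :=
  Module.Free.of_divisionRing k (dinv ρ K)

/-- Coordinates on the space of functionals fixed by `K`. -/
noncomputable def dmap (ρ : Representation k G V) (K : Subgroup G) :
    (Fin (finrank k (dinv ρ K)) → k) →ₗ[k] (V →ₗ[k] k) :=
  (dinv ρ K).subtype.comp
    ((Module.finBasis k (dinv ρ K)).equivFun.symm :
      (Fin (finrank k (dinv ρ K)) → k) →ₗ[k] dinv ρ K)

lemma dmap_mem (ρ : Representation k G V) (K : Subgroup G)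
    (c : Fin (finrank k (dinv ρ K)) → k) : dmap ρ K c ∈ dinv ρ K :=
  ((Module.finBasis k (dinv ρ K)).equivFun.symm c).2

lemma dmap_eq_zero (ρ : Representation k G V) (K : Subgroup G)
    (c : Fin (finrank k (dinv ρ K)) → k) (h : dmap ρ K c = 0) : c = 0 := by
  have h1 : (Module.finBasis k (dinv ρ K)).equivFun.symm c = 0 := Subtype.ext h
  exact (LinearEquiv.map_eq_zero_iff _).1 h1

end dmap

section family

variable {k : Type u} {G : Type v} [Field k] [Group G] [Finite G] {ι : Type*} [Fintype ι]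
  {V : ι → Type w} [∀ i, AddCommGroup (V i)] [∀ i, Module k (V i)]
  [∀ i, FiniteDimensional k (V i)]

/-- Matrix coefficient functions of cocycles. -/
noncomputable def Phi (ρ : ∀ i, Representation k G (V i)) (K L : Subgroup G) :
    ((∀ i, Fin (finrank k (ZZ (ρ i) L)) → Fin (finrank k (dinv (ρ i) K)) → k) × k) →ₗ[k] (G → k) where
  toFun x g := ∑ i, ∑ a, dmap (ρ i) K (x.1 i a)
    ((Module.finBasis k (ZZ (ρ i) L) a : G → V i) g) + x.2
  map_add' x y := by
    ext g
    simp only [Prod.fst_add, Prod.snd_add, Pi.add_apply, map_add,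
      LinearMap.add_apply, Finset.sum_add_distrib]
    ring
  map_smul' c x := by
    ext g
    simp only [Prod.smul_fst, Prod.smul_snd, Pi.smul_apply, map_smul,
      LinearMap.smul_apply, smul_eq_mul, RingHom.id_apply, ← Finset.mul_sum]
    ring

lemma Phi_apply (ρ : ∀ i, Representation k G (V i)) (K L : Subgroup G)
    (x : (∀ i, Fin (finrank k (ZZ (ρ i) L)) → Fin (finrank k (dinv (ρ i) K)) → k) × k) (g : G) :
    Phi ρ K L x g = ∑ i, ∑ a, dmap (ρ i) K (x.1 i a)
    ((Module.finBasis k (ZZ (ρ i) L) a : G → V i) g) + x.2 := rfl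

lemma Phi_injective (ρ : ∀ i, Representation k G (V i))
    (hρ : ∀ i, Submodule.span k (Set.range fun g => (ρ i g : V i →ₗ[k] V i)) = ⊤)
    (hsep : ∀ i₀, ∃ r : MonoidAlgebra k G, (ρ i₀).asAlgebraHom r = 1 ∧
      ∀ j, j ≠ i₀ → (ρ j).asAlgebraHom r = 0)
    (K L : Subgroup G) : Function.Injective (Phi ρ K L) := by
  classical
  rw [← LinearMap.ker_eq_bot, eq_bot_iff]
  rintro ⟨f, c⟩ hfc
  rw [LinearMap.mem_ker] at hfc
  have h1 : ∀ g : G, ∑ i, ∑ a, dmap (ρ i) K (f i a)
      ((Module.finBasis k (ZZ (ρ i) L) a : G → V i) g) + c = 0 := by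
    intro g
    rw [← Phi_apply ρ K L (f, c) g, hfc]; rfl
  have hc : c = 0 := by
    have h2 := h1 1
    have h3 : ∑ i, ∑ a, dmap (ρ i) K (f i a)
      ((Module.finBasis k (ZZ (ρ i) L) a : G → V i) 1) = 0 := by
      refine Finset.sum_eq_zero fun i _ => Finset.sum_eq_zero fun a _ => ?_
      rw [ZZ_one (Module.finBasis k (ZZ (ρ i) L) a).2, map_zero]
    rw [h3, zero_add] at h2
    exact h2
  subst hc
  simp only [add_zero] at h1
  have hstab : ∀ (s : MonoidAlgebra k G) (y : G), ∑ i, ∑ a, dmap (ρ i) K (f i a)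
      ((ρ i).asAlgebraHom s ((Module.finBasis k (ZZ (ρ i) L) a : G → V i) y)) = 0 := by
    intro s
    induction s using MonoidAlgebra.induction_on with
    | of g =>
      intro y
      have h2 : ∀ i a, dmap (ρ i) K (f i a) ((ρ i).asAlgebraHom (MonoidAlgebra.of k G g)
          ((Module.finBasis k (ZZ (ρ i) L) a : G → V i) y)) =
          dmap (ρ i) K (f i a) ((Module.finBasis k (ZZ (ρ i) L) a : G → V i) (g * y)) -
          dmap (ρ i) K (f i a) ((Module.finBasis k (ZZ (ρ i) L) a : G → V i) g) := by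
        intro i a
        rw [Representation.asAlgebraHom_of, (Module.finBasis k (ZZ (ρ i) L) a).2.1 g y, map_add]
        ring
      simp only [h2, Finset.sum_sub_distrib, h1, sub_zero]
    | add a b ha hb =>
      intro y
      simp only [map_add, LinearMap.add_apply, Finset.sum_add_distrib, ha y, hb y, add_zero]
    | smul c a ha =>
      intro y
      simp only [map_smul, LinearMap.smul_apply, smul_eq_mul, ← Finset.mul_sum, ha y, mul_zero]
  rw [Submodule.mem_bot, Prod.mk_eq_zero]
  refine ⟨?_, rfl⟩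
  funext i₀
  obtain ⟨r, hr1, hr0⟩ := hsep i₀
  have h2 : ∀ g, ∑ a, dmap (ρ i₀) K (f i₀ a)
      ((Module.finBasis k (ZZ (ρ i₀) L) a : G → V i₀) g) = 0 := by
    intro g
    have h3 := hstab r g
    rw [Finset.sum_eq_single i₀] at h3
    · rw [hr1] at h3
      exact h3
    · intro j _ hj
      rw [hr0 j hj]
      simp
    · intro h
      exact absurd (Finset.mem_univ _) h
  have h4 := sep_cocycle (hρ i₀) (fun a => (Module.finBasis k (ZZ (ρ i₀) L) a : G → V i₀))
    (fun a => (Module.finBasis k (ZZ (ρ i₀) L) a).2)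
    ((Module.finBasis k (ZZ (ρ i₀) L)).linearIndependent.map' (ZZ (ρ i₀) L).subtype
      (Submodule.ker_subtype _)) (fun a => dmap (ρ i₀) K (f i₀ a)) h2
  funext a
  exact dmap_eq_zero _ _ _ (congrFun h4 a)

lemma Phi_mem (ρ : ∀ i, Representation k G (V i)) {C K L : Subgroup G} (hCL : C ≤ L)
    (hK : (C.relIndex K : k) ≠ 0)
    (x : (∀ i, Fin (finrank k (ZZ (ρ i) L)) → Fin (finrank k (dinv (ρ i) K)) → k) × k) :
    Phi ρ K L x ∈ Bi k K L := by
  intro a ha g b hb
  rw [Phi_apply, Phi_apply]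
  congr 1
  refine Finset.sum_congr rfl fun i _ => Finset.sum_congr rfl fun j _ => ?_
  rw [ZZ_mul_right (Module.finBasis k (ZZ (ρ i) L) j).2 _ hb]
  exact dinv_cocycle_left hK (ZZ_mono hCL (Module.finBasis k (ZZ (ρ i) L) j).2) (dmap_mem (ρ i) K (x.1 i j)) ha g

lemma finrank_Phi_domain (ρ : ∀ i, Representation k G (V i)) (K L : Subgroup G) :
    finrank k ((∀ i, Fin (finrank k (ZZ (ρ i) L)) → Fin (finrank k (dinv (ρ i) K)) → k) × k) =
      ∑ i, finrank k (ZZ (ρ i) L) * finrank k (dinv (ρ i) K) + 1 := by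
  rw [Module.finrank_prod, Module.finrank_self, Module.finrank_pi_fintype]
  congr 1
  refine Finset.sum_congr rfl fun i _ => ?_
  rw [Module.finrank_pi_fintype, Finset.sum_const, Finset.card_univ, Fintype.card_fin,
    smul_eq_mul, Module.finrank_fin_fun]

/-- A cocycle vanishing on `C` which is not a coboundary gives one vanishing on `K`. -/
lemma exists_noncob {V : Type w} [AddCommGroup V] [Module k V] {ρ : Representation k G V}
    {C K : Subgroup G} (hCK : C ≤ K) (hidx : (C.relIndex K : k) ≠ 0)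
    (h : ∃ δ ∈ ZZ ρ C, ∀ v, cob ρ v ≠ δ) : ∃ δ ∈ ZZ ρ K, ∀ v, cob ρ v ≠ δ := by
  let _ : Fintype (K ⧸ C.subgroupOf K) := Fintype.ofFinite _
  obtain ⟨δ, hδ, hne⟩ := h
  obtain ⟨hA, hA'⟩ := avg hCK hidx hδ
  set A := (-(C.relIndex K : k)⁻¹ • csum (k := k) V C K δ) with hAdef
  have hmem : δ - cob ρ A ∈ ZZ ρ K := by
    have h1 := Submodule.sub_mem _ hδ (cob_mem ρ hA)
    refine ⟨h1.1, fun l hl => ?_⟩
    rw [Pi.sub_apply, hA' l hl, sub_self]
  refine ⟨_, hmem, fun v hv => hne (v + A) ?_⟩
  rw [map_add, hv, sub_add_cancel]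

/-- **Counting theorem.** -/
theorem pair_count [DecidableEq ι] (ρ : ∀ i, Representation k G (V i))
    (hρ : ∀ i, Submodule.span k (Set.range fun g => (ρ i g : V i →ₗ[k] V i)) = ⊤)
    (hnt : ∀ i, ∃ g, ρ i g ≠ 1)
    (hne : ∀ i j, i ≠ j → IsEmpty (Representation.Equiv (ρ i) (ρ j)))
    {C K L : Subgroup G} (hCK : C ≤ K) (hCL : C ≤ L) (hK : (C.relIndex K : k) ≠ 0)
    (hL : (C.relIndex L : k) ≠ 0) (hidx : (C.index : k) = 0)
    (hE : ∀ i, HasProj (ρ i) C) (hx : ∀ i, ∃ δ ∈ ZZ (ρ i) C, ∀ v, cob (ρ i) v ≠ δ)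
    (hfib : ∀ D : DoubleCoset.Quotient (K : Set G) L,
      (Nat.card {x : G ⧸ L // toDC K L x = D} : k) ≠ 0) :
    ∑ i, (finrank k (ZZ (ρ i) L) * finrank k (inv (ρ i) K) +
      finrank k (ZZ (ρ i) K) * finrank k (inv (ρ i) L)) + 2 ≤
      Nat.card (DoubleCoset.Quotient (K : Set G) L) := by
  classical
  have hntr : ∀ i, Nontrivial (V i) := by
    intro i
    obtain ⟨g, hg⟩ := hnt i
    by_contra hcon
    rw [not_nontrivial_iff_subsingleton] at hcon
    apply hg
    ext v
    exact Subsingleton.elim _ _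
  have h0 : ∀ i, inv (ρ i) ⊤ = ⊥ := fun i => inv_top_eq_bot (ρ i) (hρ i) (hnt i)
  have h0' : ∀ i, dinv (ρ i) ⊤ = ⊥ := fun i => dinv_top_eq_bot (ρ i) (hρ i) (hnt i)
  have hsep : ∀ i₀, ∃ r : MonoidAlgebra k G, (ρ i₀).asAlgebraHom r = 1 ∧
      ∀ j, j ≠ i₀ → (ρ j).asAlgebraHom r = 0 :=
    exists_sep ρ (fun i => isIrreducible_of_span (hρ i)) hne
  have hLidx : (L.index : k) = 0 := by
    have h1 : C.relIndex L * L.index = C.index := Subgroup.relIndex_mul_index hCL
    rw [← h1, Nat.cast_mul] at hidx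
    exact (mul_eq_zero.1 hidx).resolve_left hL
  have horth : ∀ (x : (∀ i, Fin (finrank k (ZZ (ρ i) L)) → Fin (finrank k (dinv (ρ i) K)) → k) × k)
      (y : (∀ i, Fin (finrank k (ZZ (ρ i) K)) → Fin (finrank k (dinv (ρ i) L)) → k) × k),
      pairing k L (Phi ρ K L x) (Phi ρ L K y) = 0 := by
    intro x y
    have e1 : Phi ρ K L x = ∑ i, ∑ a, (fun g => dmap (ρ i) K (x.1 i a)
        ((Module.finBasis k (ZZ (ρ i) L) a : G → V i) g)) + x.2 • (fun _ => 1) := by
      ext g
      rw [Phi_apply]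
      simp only [Pi.add_apply, Finset.sum_apply, Pi.smul_apply, smul_eq_mul, mul_one]
    have e2 : Phi ρ L K y = ∑ i, ∑ a, (fun g => dmap (ρ i) L (y.1 i a)
        ((Module.finBasis k (ZZ (ρ i) K) a : G → V i) g)) + y.2 • (fun _ => 1) := by
      ext g
      rw [Phi_apply]
      simp only [Pi.add_apply, Finset.sum_apply, Pi.smul_apply, smul_eq_mul, mul_one]
    have o1 : ∀ i a j b, pairing k L (fun g => dmap (ρ i) K (x.1 i a)
        ((Module.finBasis k (ZZ (ρ i) L) a : G → V i) g))
        (fun g => dmap (ρ j) L (y.1 j b)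
        ((Module.finBasis k (ZZ (ρ j) K) b : G → V j) g)) = 0 := by
      intro i a j b
      have hW : qsum L (fun g => dmap (ρ j) L (y.1 j b)
          ((Module.finBasis k (ZZ (ρ j) K) b : G → V j) g⁻¹) •
          (Module.finBasis k (ZZ (ρ i) L) a : G → V i) g) = 0 := by
        by_cases hij : j = i
        · subst hij
          exact WW_zero_same (hρ j) (h0 j) (h0' j) hCK hCL hidx hL
            (exists_noncob hCK hK (hx j)) ⟨_, dmap_mem (ρ j) L (y.1 j b)⟩ (Module.finBasis k (ZZ (ρ j) K) b).2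
            (Module.finBasis k (ZZ (ρ j) L) a)
        · obtain ⟨r, hr1, hr0⟩ := hsep j
          exact WW_zero_of_sep (h0 j) (h0' j) (h0 i) ⟨r, hr1, hr0 i (Ne.symm hij)⟩ hCK hCL hidx hL
            ⟨_, dmap_mem (ρ j) L (y.1 j b)⟩ (Module.finBasis k (ZZ (ρ j) K) b).2 (Module.finBasis k (ZZ (ρ i) L) a)
      rw [pairing_apply]
      have h2 := congrArg (dmap (ρ i) K (x.1 i a)) hW
      rw [map_qsum, map_zero] at h2
      rw [← h2]
      refine qsum_congr L fun g => ?_
      rw [map_smul, smul_eq_mul, mul_comm]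
    have o2 : ∀ i a, pairing k L (fun g => dmap (ρ i) K (x.1 i a)
        ((Module.finBasis k (ZZ (ρ i) L) a : G → V i) g)) (fun _ => 1) = 0 := by
      intro i a
      rw [pairing_apply]
      have h2 := congrArg (dmap (ρ i) K (x.1 i a))
        (qsum_cocycle_zero (h0 i) hLidx (Module.finBasis k (ZZ (ρ i) L) a).2)
      rw [map_qsum, map_zero] at h2
      rw [← h2]
      refine qsum_congr L fun g => ?_
      rw [mul_one]
    have o3 : ∀ j b, pairing k L (fun _ => 1) (fun g => dmap (ρ j) L (y.1 j b)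
        ((Module.finBasis k (ZZ (ρ j) K) b : G → V j) g)) = 0 := by
      intro j b
      rw [pairing_apply]
      rw [← qsum_dual_zero (h0 j) hCK hCL hidx hL (Module.finBasis k (ZZ (ρ j) K) b).2
        (dmap_mem (ρ j) L (y.1 j b))]
      refine qsum_congr L fun g => ?_
      rw [one_mul]
    have o4 : pairing k L (fun _ => (1 : k)) (fun _ => 1) = 0 := by
      rw [pairing_apply]
      simp only [mul_one]
      rw [qsum_const, nsmul_eq_mul, mul_one, hLidx]
    rw [e1, e2]
    simp only [map_add, map_sum, map_smul, LinearMap.add_apply, LinearMap.sum_apply,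
      LinearMap.smul_apply, o1, o2, o3, o4, Finset.sum_const_zero, smul_zero, add_zero]
  have h1 := finrank_add_le hfib (LinearMap.range (Phi ρ K L)) (LinearMap.range (Phi ρ L K))
    (by rintro _ ⟨x, rfl⟩; exact Phi_mem ρ hCL hK x)
    (by rintro _ ⟨x, rfl⟩; exact Phi_mem ρ hCK hL x)
    (by rintro _ ⟨x, rfl⟩ _ ⟨y, rfl⟩; exact horth x y)
  rw [LinearMap.finrank_range_of_inj (Phi_injective ρ hρ hsep K L),
    LinearMap.finrank_range_of_inj (Phi_injective ρ hρ hsep L K),
    finrank_Phi_domain, finrank_Phi_domain] at h1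
  have h2 : ∑ i, (finrank k (ZZ (ρ i) L) * finrank k (inv (ρ i) K) +
      finrank k (ZZ (ρ i) K) * finrank k (inv (ρ i) L)) ≤
      ∑ i, finrank k (ZZ (ρ i) L) * finrank k (dinv (ρ i) K) +
      ∑ i, finrank k (ZZ (ρ i) K) * finrank k (dinv (ρ i) L) := by
    rw [← Finset.sum_add_distrib]
    refine Finset.sum_le_sum fun i _ => ?_
    exact Nat.add_le_add (Nat.mul_le_mul_left _ (finrank_inv_le_dinv hCK hK (hE i)))
      (Nat.mul_le_mul_left _ (finrank_inv_le_dinv hCL hL (hE i)))
  omega

end family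

end Run7.h98
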