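import Pool.Agent.Run7.h98.Sep

/-!
Sums over left cosets.
-/

open Module

namespace Run7.h98

universe u v w

section qsum

variable {G : Type v} [Group G] [Finite G] {M : Type w} [AddCommMonoid M]

/-- Sum of a function over representatives of the left cosets of `L`. -/
noncomputable def qsum (L : Subgroup G) (F : G → M) : M :=
  letI : Fintype (G ⧸ L) := Fintype.ofFinite _
  ∑ x : G ⧸ L, F x.out

lemma qsum_eq (L : Subgroup G) [Fintype (G ⧸ L)] (F : G → M) :
    qsum L F = ∑ x : G ⧸ L, F x.out := by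
  unfold qsum
  congr
  exact Subsingleton.elim _ _

lemma qsum_add (L : Subgroup G) (F F' : G → M) :
    qsum L (fun g => F g + F' g) = qsum L F + qsum L F' := by
  let _ : Fintype (G ⧸ L) := Fintype.ofFinite _
  simp only [qsum_eq, Finset.sum_add_distrib]

lemma qsum_congr (L : Subgroup G) {F F' : G → M} (h : ∀ g, F g = F' g) :
    qsum L F = qsum L F' := by
  rw [funext h]

lemma qsum_zero (L : Subgroup G) : qsum L (fun _ => (0 : M)) = 0 := by
  let _ : Fintype (G ⧸ L) := Fintype.ofFinite _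
  simp only [qsum_eq, Finset.sum_const_zero]

lemma map_qsum {M' : Type*} [AddCommMonoid M'] {Φ : Type*} [FunLike Φ M M'] [AddMonoidHomClass Φ M M']
    (f : Φ) (L : Subgroup G) (F : G → M) : f (qsum L F) = qsum L (fun g => f (F g)) := by
  let _ : Fintype (G ⧸ L) := Fintype.ofFinite _
  simp only [qsum_eq, map_sum]

lemma qsum_const (L : Subgroup G) (c : M) : qsum L (fun _ => c) = L.index • c := by
  let _ : Fintype (G ⧸ L) := Fintype.ofFinite _
  rw [qsum_eq, Finset.sum_const, Finset.card_univ, ← Nat.card_eq_fintype_card]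
  rfl

lemma out_mul (L : Subgroup G) {F : G → M} (hF : ∀ g, ∀ l ∈ L, F (g * l) = F g) (g : G) :
    F (QuotientGroup.mk g : G ⧸ L).out = F g := by
  obtain ⟨l, hl⟩ := QuotientGroup.mk_out_eq_mul L g
  rw [hl]; exact hF _ _ l.2

lemma qsum_shift (L : Subgroup G) {F : G → M} (hF : ∀ g, ∀ l ∈ L, F (g * l) = F g) (h : G) :
    qsum L (fun g => F (h * g)) = qsum L F := by
  let _ : Fintype (G ⧸ L) := Fintype.ofFinite _
  rw [qsum_eq, qsum_eq]
  refine Fintype.sum_equiv (MulAction.toPerm h) _ _ (fun x => ?_)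
  have h3 : h • x = QuotientGroup.mk (h * x.out) := by
    conv_lhs => rw [← QuotientGroup.out_eq' x]
    rfl
  rw [MulAction.toPerm_apply, h3, out_mul L hF]

lemma qsum_relIndex {C L : Subgroup G} (hCL : C ≤ L) {F : G → M}
    (hF : ∀ g, ∀ l ∈ L, F (g * l) = F g) : qsum C F = C.relIndex L • qsum L F := by
  classical
  let _ : Fintype (G ⧸ L) := Fintype.ofFinite _
  let _ : Fintype (G ⧸ C) := Fintype.ofFinite _
  let _ : Fintype (L ⧸ C.subgroupOf L) := Fintype.ofFinite _
  rw [qsum_eq, qsum_eq]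
  rw [Fintype.sum_equiv (Subgroup.quotientEquivProdOfLE hCL) (fun x => F x.out)
    (fun y => F y.1.out) ?_]
  · rw [Fintype.sum_prod_type]
    simp only [Finset.sum_const, Finset.card_univ]
    rw [← Finset.smul_sum, ← Nat.card_eq_fintype_card]
    rfl
  · intro x
    have h1 : ((Subgroup.quotientEquivProdOfLE hCL) x).1 = QuotientGroup.mk x.out := by
      conv_lhs => rw [← QuotientGroup.out_eq' x]
      rfl
    rw [h1, out_mul L hF]

/-- Counting elements through left cosets. -/
lemma card_right_inv (C : Subgroup G) (P : G → Prop) (hP : ∀ g, ∀ c ∈ C, P (g * c) ↔ P g) :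
    Nat.card {g // P g} = Nat.card {x : G ⧸ C // P x.out} * Nat.card C := by
  rw [← Nat.card_prod]
  refine Nat.card_congr ?_
  refine
    { toFun := fun g => (⟨QuotientGroup.mk g.1, ?_⟩,
        ⟨(QuotientGroup.mk g.1 : G ⧸ C).out⁻¹ * g.1, ?_⟩)
      invFun := fun y => ⟨y.1.1.out * y.2.1, ?_⟩
      left_inv := ?_
      right_inv := ?_ }
  · obtain ⟨l, hl⟩ := QuotientGroup.mk_out_eq_mul C g.1
    rw [hl, hP _ _ l.2]; exact g.2
  · exact QuotientGroup.eq.1 (QuotientGroup.out_eq' _)
  · rw [hP _ _ y.2.2]; exact y.1.2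
  · intro g
    apply Subtype.ext
    simp
  · rintro ⟨⟨x, hx⟩, ⟨c, hc⟩⟩
    have h1 : (QuotientGroup.mk (x.out * c) : G ⧸ C) = x := by
      conv_rhs => rw [← QuotientGroup.out_eq' x]
      rw [QuotientGroup.eq]
      simpa using C.inv_mem hc
    simp only [h1, Prod.mk.injEq, Subtype.mk.injEq, true_and]
    group

lemma qsum_inv (C : Subgroup G) {F : G → M} (hF : ∀ g, ∀ c ∈ C, F (g * c) = F g)
    (hF' : ∀ g, ∀ c ∈ C, F (c * g) = F g) : qsum C (fun g => F g⁻¹) = qsum C F := by
  classical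
  let _ : Fintype (G ⧸ C) := Fintype.ofFinite _
  have : Finite (DoubleCoset.Quotient (C : Set G) C) := Quotient.finite _
  let _ : Fintype (DoubleCoset.Quotient (C : Set G) C) := Fintype.ofFinite _
  have hout : ∀ g, F (DoubleCoset.mk C C g).out = F g := by
    intro g
    obtain ⟨x, y, hx, hy, hxy⟩ := DoubleCoset.mk_out_eq_mul C C g
    rw [hxy, hF _ _ hy, hF' _ _ hx]
  have hmkr : ∀ g, ∀ c ∈ C, DoubleCoset.mk C C (g * c) = DoubleCoset.mk C C g := by
    intro g c hc
    rw [DoubleCoset.eq]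
    exact ⟨1, C.one_mem, c⁻¹, C.inv_mem hc, by group⟩
  have hmkl : ∀ g, ∀ c ∈ C, DoubleCoset.mk C C (c * g) = DoubleCoset.mk C C g := by
    intro g c hc
    rw [DoubleCoset.eq]
    exact ⟨c⁻¹, C.inv_mem hc, 1, C.one_mem, by group⟩
  have hcard : ∀ D : DoubleCoset.Quotient (C : Set G) C,
      Nat.card {x : G ⧸ C // DoubleCoset.mk C C x.out = D} =
      Nat.card {x : G ⧸ C // DoubleCoset.mk C C x.out⁻¹ = D} := by
    intro D
    have e1 := card_right_inv C (fun g => DoubleCoset.mk C C g = D)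
      (fun g c hc => by rw [hmkr g c hc])
    have e2 := card_right_inv C (fun g => DoubleCoset.mk C C g⁻¹ = D)
      (fun g c hc => by rw [mul_inv_rev, hmkl _ _ (C.inv_mem hc)])
    have e3 : Nat.card {g : G // DoubleCoset.mk C C g = D} =
        Nat.card {g : G // DoubleCoset.mk C C g⁻¹ = D} := by
      refine Nat.card_congr ((Equiv.inv G).subtypeEquiv (fun g => ?_))
      simp
    rw [e3, e2] at e1
    exact (Nat.eq_of_mul_eq_mul_right Nat.card_pos e1).symm
  have hsum : ∀ φ : G ⧸ C → DoubleCoset.Quotient (C : Set G) C,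
      ∑ x : G ⧸ C, F (φ x).out = ∑ D, Nat.card {x : G ⧸ C // φ x = D} • F D.out := by
    intro φ
    rw [← Finset.sum_fiberwise (s := Finset.univ) (g := φ)]
    refine Finset.sum_congr rfl fun D _ => ?_
    rw [Finset.sum_congr rfl (g := fun _ => F D.out)]
    · rw [Finset.sum_const, Nat.card_eq_fintype_card, Fintype.card_subtype]
    · intro x hx
      rw [(Finset.mem_filter.1 hx).2]
  rw [qsum_eq, qsum_eq]
  have h1 := hsum (fun x => DoubleCoset.mk C C x.out)
  have h2 := hsum (fun x => DoubleCoset.mk C C x.out⁻¹)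
  simp only [hout] at h1 h2
  rw [h1, h2]
  refine Finset.sum_congr rfl fun D _ => ?_
  rw [hcard]

end qsum

end Run7.h98
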