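import Pool.Agent.Run7.h98.Main

/-!
Separation of pairwise non-isomorphic irreducible representations by elements of the group
algebra.
-/

open Module MonoidAlgebra

namespace Run7.h98

universe u v w

section sepfam

variable {k : Type u} {G : Type v} [Field k] [Group G]

/-- A representation whose group spans the endomorphism algebra of a nonzero space is
irreducible. -/
lemma isIrreducible_of_span {V : Type w} [AddCommGroup V] [Module k V] [Nontrivial V]
    {ρ : Representation k G V}
    (hρ : Submodule.span k (Set.range fun g => (ρ g : V →ₗ[k] V)) = ⊤) : ρ.IsIrreducible := by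
  refine { exists_pair_ne := ?_, eq_bot_or_eq_top := ?_ }
  · obtain ⟨v, hv⟩ := exists_ne (0 : V)
    refine ⟨⊥, ⊤, fun h => hv ?_⟩
    have h1 : v ∈ (⊤ : Subrepresentation ρ) := by trivial
    rw [← h] at h1
    exact h1
  · intro W
    by_cases hW : W = ⊥
    · exact Or.inl hW
    · right
      obtain ⟨w, hwW, hw0⟩ : ∃ w ∈ W, w ≠ 0 := by
        by_contra hcon
        push Not at hcon
        apply hW
        ext x
        constructor
        · intro hx
          have := hcon x hx
          subst this
          exact (⊥ : Subrepresentation ρ).toSubmodule.zero_mem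
        · intro hx
          have hx0 : x = 0 := hx
          subst hx0
          exact W.toSubmodule.zero_mem
      obtain ⟨f, hf⟩ : ∃ f : Dual k V, f w ≠ 0 := by
        by_contra hcon
        push Not at hcon
        exact hw0 ((Module.forall_dual_apply_eq_zero_iff k w).1 hcon)
      have hall : ∀ a : V →ₗ[k] V, a w ∈ W.toSubmodule := by
        intro a
        have ha : a ∈ Submodule.span k (Set.range fun g => (ρ g : V →ₗ[k] V)) := by
          rw [hρ]; trivial
        induction ha using Submodule.span_induction with
        | mem a ha =>
          obtain ⟨x, rfl⟩ := ha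
          exact W.apply_mem_toSubmodule x hwW
        | zero => simp
        | add a b _ _ iha ihb =>
          rw [LinearMap.add_apply]; exact Submodule.add_mem _ iha ihb
        | smul c a _ iha =>
          rw [LinearMap.smul_apply]; exact Submodule.smul_mem _ _ iha
      ext x
      constructor
      · intro _; trivial
      · intro _
        have := hall (f.smulRight ((f w)⁻¹ • x))
        rw [LinearMap.smulRight_apply, smul_smul, mul_inv_cancel₀ hf, one_smul] at this
        exact this

/-- For pairwise non-isomorphic irreducible representations some element of the group algebra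
acts as the identity on one of them and as zero on the others. -/
theorem exists_sep {ι : Type*} [Fintype ι] [DecidableEq ι] {V : ι → Type w}
    [∀ i, AddCommGroup (V i)] [∀ i, Module k (V i)] [∀ i, FiniteDimensional k (V i)]
    (ρ : ∀ i, Representation k G (V i)) (hirr : ∀ i, (ρ i).IsIrreducible)
    (hne : ∀ i j, i ≠ j → IsEmpty (Representation.Equiv (ρ i) (ρ j))) (i₀ : ι) :
    ∃ r : MonoidAlgebra k G, (ρ i₀).asAlgebraHom r = 1 ∧
      ∀ j, j ≠ i₀ → (ρ j).asAlgebraHom r = 0 := by
  classical
  have hs : ∀ i, IsSimpleModule (MonoidAlgebra k G) (ρ i).asModule := fun i =>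
    (Representation.irreducible_iff_isSimpleModule_asModule (ρ i)).mp (hirr i)
  have hsub : ∀ i j, i ≠ j →
      Subsingleton ((ρ i).asModule →ₗ[MonoidAlgebra k G] (ρ j).asModule) := by
    intro i j hij
    have := hirr i
    have := hirr j
    have := hne i j hij
    exact (Representation.IntertwiningMap.equivLinearMapAsModule (ρ i) (ρ j)).symm.injective.subsingleton
  set R := MonoidAlgebra k G
  let W : ι → Type w := fun i => (ρ i).asModule
  let _ : ∀ i, AddCommGroup (W i) := fun i => inferInstanceAs (AddCommGroup (ρ i).asModule)
  let _ : ∀ i, Module R (W i) := fun i => inferInstanceAs (Module R (ρ i).asModule)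
  have hsW : ∀ i, IsSimpleModule R (W i) := hs
  have hsubW : ∀ i j, i ≠ j → Subsingleton (W i →ₗ[R] W j) := hsub
  let e : ∀ i, V i → W i := fun i => (ρ i).asModuleEquiv.symm
  have he : ∀ i (r : R) (v v' : V i), e i v' = r • e i v → (ρ i).asAlgebraHom r v = v' := by
    intro i r v v' h1
    have h2 := congrArg (ρ i).asModuleEquiv h1
    have h3 := Representation.asModuleEquiv_map_smul (ρ i) r (e i v)
    have h4 : (ρ i).asModuleEquiv (r • e i v) = (ρ i).asAlgebraHom r v := by
      rw [h3]; simp [e]
    rw [← h4, ← h2]
    simp [e]
  have he0 : ∀ i, e i 0 = 0 := fun i => map_zero (ρ i).asModuleEquiv.symm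
  let F : Module.End (Module.End R (∀ i, W i)) (∀ i, W i) :=
    { toFun := fun m => Pi.single i₀ (m i₀)
      map_add' := fun x y => by
        rw [Pi.add_apply, Pi.single_add]
      map_smul' := fun φ m => by
        show Pi.single i₀ ((φ m) i₀) = φ (Pi.single i₀ (m i₀))
        have key : ∀ i (x : W i) (j : ι), j ≠ i → φ (Pi.single i x) j = 0 := by
          intro i x j hij
          have h1 := (hsubW i j (Ne.symm hij)).elim
            (((LinearMap.proj j).comp φ).comp (LinearMap.single R W i)) 0
          exact congrArg (fun z => z x) h1
        have hm : m = ∑ i, Pi.single i (m i) := (Finset.univ_sum_single m).symm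
        funext j
        by_cases hj : j = i₀
        · subst hj
          rw [Pi.single_eq_same]
          conv_lhs => rw [hm]
          rw [map_sum, Finset.sum_apply]
          rw [Finset.sum_eq_single j]
          · intro i _ hi
            exact key i (m i) j (Ne.symm hi)
          · intro h
            exact absurd (Finset.mem_univ j) h
        · rw [Pi.single_eq_of_ne hj, key i₀ (m i₀) j hj] }
  have hfg : ∀ i, ∃ s : Finset (V i), Submodule.span k (s : Set (V i)) = ⊤ := fun i =>
    Module.Finite.fg_top (R := k) (M := V i)
  choose s hs' using hfg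
  let S : Finset (∀ i, W i) := Finset.univ.biUnion fun i =>
    (s i).image fun v => Pi.single i (e i v)
  obtain ⟨r, hr⟩ := jacobson_density F S
  have hr' : ∀ i, ∀ v ∈ s i, (Pi.single i₀
      ((Pi.single i (e i v) : ∀ i, W i) i₀) : ∀ i, W i) =
      r • (Pi.single i (e i v) : ∀ i, W i) := by
    intro i v hv
    exact hr _ (Finset.mem_biUnion.2 ⟨i, Finset.mem_univ i, Finset.mem_image_of_mem _ hv⟩)
  refine ⟨r, ?_, ?_⟩
  · have : Set.EqOn ((ρ i₀).asAlgebraHom r) (1 : Module.End k (V i₀)) (s i₀) := by
      intro v hv
      have h1 := congrFun (hr' i₀ v hv) i₀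
      rw [Pi.single_eq_same, Pi.single_eq_same, Pi.smul_apply, Pi.single_eq_same] at h1
      exact he i₀ r v v h1
    exact LinearMap.ext_on (hs' i₀) this
  · intro j hj
    have : Set.EqOn ((ρ j).asAlgebraHom r) (0 : Module.End k (V j)) (s j) := by
      intro v hv
      have h1 := congrFun (hr' j v hv) j
      rw [Pi.single_eq_of_ne hj, Pi.smul_apply, Pi.single_eq_same] at h1
      exact he j r v 0 (by rw [he0]; exact h1)
    exact LinearMap.ext_on (hs' j) this

end sepfam

end Run7.h98
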