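import Pool.Agent.Run7.h98.Pair

/-!
The bound for groups generated by subgroups of order invertible in `k`.
-/

open Module

namespace Run7.h98

universe u v w

lemma card_fiber_eq {G : Type v} [Group G] [Finite G] (K L : Subgroup G) (g : G) :
    Nat.card {x : G ⧸ L // toDC K L x = DoubleCoset.mk K L g} =
      (MulAction.stabilizer K (QuotientGroup.mk g : G ⧸ L)).index := by
  classical
  have h1 : {x : G ⧸ L | toDC K L x = DoubleCoset.mk K L g} =
      MulAction.orbit K (QuotientGroup.mk g : G ⧸ L) := by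
    ext x
    induction x using QuotientGroup.induction_on with
    | H y =>
      rw [Set.mem_ofPred_eq, toDC_mk, DoubleCoset.eq, MulAction.mem_orbit_iff]
      constructor
      · rintro ⟨x, hx, l, hl, h⟩
        refine ⟨⟨x⁻¹, K.inv_mem hx⟩, ?_⟩
        show (QuotientGroup.mk (x⁻¹ * g) : G ⧸ L) = QuotientGroup.mk y
        rw [QuotientGroup.eq]
        have : (x⁻¹ * g)⁻¹ * y = l⁻¹ := by
          rw [h]; group
        rw [this]
        exact L.inv_mem hl
      · rintro ⟨x, hx⟩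
        have hx' : (QuotientGroup.mk ((x : G) * g) : G ⧸ L) = QuotientGroup.mk y := hx
        rw [QuotientGroup.eq] at hx'
        refine ⟨(x : G)⁻¹, K.inv_mem x.2, (((x : G) * g)⁻¹ * y)⁻¹, L.inv_mem hx', ?_⟩
        group
  have h2 : Nat.card {x : G ⧸ L // toDC K L x = DoubleCoset.mk K L g} =
      Nat.card (MulAction.orbit K (QuotientGroup.mk g : G ⧸ L)) := by
    rw [← h1]; rfl
  rw [h2, MulAction.index_stabilizer]
  rfl

lemma card_fiber_ne {k : Type u} [Field k] {G : Type v} [Group G] [Finite G] (K L T : Subgroup G)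
    (hTK : T ≤ K) (hT : (T.relIndex K : k) ≠ 0) (g : G) (hg : ∀ t ∈ T, g⁻¹ * t * g ∈ L) :
    (Nat.card {x : G ⧸ L // toDC K L x = DoubleCoset.mk K L g} : k) ≠ 0 := by
  rw [card_fiber_eq]
  intro h0
  apply hT
  have hle : T.subgroupOf K ≤ MulAction.stabilizer K (QuotientGroup.mk g : G ⧸ L) := by
    intro x hx
    rw [MulAction.mem_stabilizer_iff]
    show (QuotientGroup.mk ((x : G) * g) : G ⧸ L) = QuotientGroup.mk g
    rw [QuotientGroup.eq]
    have h1 := L.inv_mem (hg _ (Subgroup.mem_subgroupOf.1 hx))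
    have h2 : ((x : G) * g)⁻¹ * g = (g⁻¹ * (x : G) * g)⁻¹ := by group
    rw [h2]
    exact h1
  obtain ⟨c, hc⟩ := Subgroup.index_dvd_of_le hle
  show ((T.subgroupOf K).index : k) = 0
  rw [hc, Nat.cast_mul, h0, zero_mul]

lemma exists_noncob_bot {k G V : Type u} [Field k] [Group G] [Finite G] [AddCommGroup V]
    [Module k V] [FiniteDimensional k V] (ρ : Representation k G V) (h0 : inv ρ ⊤ = ⊥)
    (h1 : hOne ρ ≠ 0) : ∃ δ ∈ ZZ ρ ⊥, ∀ v, cob ρ v ≠ δ := by
  by_contra hcon
  push Not at hcon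
  have h2 := hOne_add ρ h0
  have h3 : finrank k (ZZ ρ ⊥) ≤ finrank k V := by
    have h4 : ZZ ρ ⊥ ≤ LinearMap.range (cob ρ) := by
      intro δ hδ
      obtain ⟨v, hv⟩ := hcon δ hδ
      exact ⟨v, hv⟩
    exact (Submodule.finrank_mono h4).trans (LinearMap.finrank_range_le _)
  omega

lemma card_eq_zero_of_hOne {k G V : Type u} [Field k] [Group G] [Finite G] [AddCommGroup V]
    [Module k V] [FiniteDimensional k V] (ρ : Representation k G V) (h0 : inv ρ ⊤ = ⊥)
    (h1 : hOne ρ ≠ 0) : (Nat.card G : k) = 0 := by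
  by_contra hne
  apply h1
  have e1 := hOne_add ρ h0
  have e2 := finrank_ZZ_add (ρ := ρ) (le_top : (⊥ : Subgroup G) ≤ ⊤)
    (by rwa [Subgroup.relIndex_top_right, Subgroup.index_bot])
  have e3 : ZZ ρ ⊤ = ⊥ := by
    rw [eq_bot_iff]
    intro δ hδ
    rw [Submodule.mem_bot]
    funext g
    exact hδ.2 g (Subgroup.mem_top g)
  have e4 : finrank k (inv ρ (⊥ : Subgroup G)) = finrank k V := by
    have : inv ρ (⊥ : Subgroup G) = ⊤ := by
      rw [eq_top_iff]
      rintro v - l hl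
      rw [Subgroup.mem_bot] at hl
      subst hl; simp
    rw [this, finrank_top]
  rw [e3, h0, finrank_bot, finrank_bot] at e2
  omega

/-- The bound, in internal form. -/
theorem thmA {k G : Type u} [Field k] [Group G] [Finite G] {ι : Type*} [Fintype ι] [Nonempty ι]
    {V : ι → Type u} [∀ i, AddCommGroup (V i)] [∀ i, Module k (V i)]
    [∀ i, FiniteDimensional k (V i)] (ρ : ∀ i, Representation k G (V i))
    (hirr : ∀ i, AbsIrred (ρ i)) (hnt : ∀ i, ∃ g, ρ i g ≠ 1)
    (hne : ∀ i j, i ≠ j → IsEmpty (Representation.Equiv (ρ i) (ρ j)))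
    (h1 : ∀ i, hOne (ρ i) ≠ 0)
    {n : ℕ} (H : Fin (n + 1) → Subgroup G) (hgen : ⨆ j, H j = ⊤)
    (hH : ∀ j, (Nat.card (H j) : k) ≠ 0) (L : Subgroup G) (hL : (Nat.card L : k) ≠ 0) :
    ∑ i, ((hOne (ρ i) + ∑ j, finrank k (inv (ρ i) (H j))) *
        (hOne (ρ i) + 2 * finrank k (inv (ρ i) L)) +
        n * (hOne (ρ i) * finrank k (inv (ρ i) L))) + 2 * n ≤
      n * Nat.card (DoubleCoset.Quotient ((⨅ j, H j : Subgroup G) : Set G) L) := by
  classical
  have hρ : ∀ i, Submodule.span k (Set.range fun g => (ρ i g : V i →ₗ[k] V i)) = ⊤ :=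
    fun i => span_eq_top (ρ i) (hirr i)
  have h0 : ∀ i, inv (ρ i) ⊤ = ⊥ := fun i => inv_top_eq_bot (ρ i) (hρ i) (hnt i)
  set K := ⨅ j, H j with hKdef
  have hKH : ∀ j, K ≤ H j := fun j => iInf_le H j
  have hKidx : ∀ j, (K.relIndex (H j) : k) ≠ 0 := by
    intro j hj
    apply hH j
    obtain ⟨c, hc⟩ : K.relIndex (H j) ∣ Nat.card (H j) := Subgroup.relIndex_dvd_card K (H j)
    rw [hc, Nat.cast_mul, hj, zero_mul]
  have hK : (Nat.card K : k) ≠ 0 := by
    intro hj
    apply hH 0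
    obtain ⟨c, hc⟩ := Subgroup.card_dvd_of_le (hKH 0)
    rw [hc, Nat.cast_mul, hj, zero_mul]
  have e1 : ∀ i, finrank k (ZZ (ρ i) K) + ∑ j, finrank k (inv (ρ i) (H j)) ≤
      (n + 1) * finrank k (inv (ρ i) K) := by
    intro i
    have := gen_le (ρ i) K H hKH hKidx hgen
    rwa [Fintype.card_fin] at this
  have e2 : ∀ i, hOne (ρ i) + finrank k (inv (ρ i) K) = finrank k (ZZ (ρ i) K) :=
    fun i => hOne_add_inv (ρ i) (h0 i) K hK
  have e3 : ∀ i, hOne (ρ i) + finrank k (inv (ρ i) L) = finrank k (ZZ (ρ i) L) :=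
    fun i => hOne_add_inv (ρ i) (h0 i) L hL
  have hcard : (Nat.card G : k) = 0 := by
    obtain ⟨i⟩ := (inferInstance : Nonempty ι)
    exact card_eq_zero_of_hOne (ρ i) (h0 i) (h1 i)
  have e4 := pair_count ρ hρ hnt hne (C := ⊥) (K := K) (L := L) bot_le bot_le
    (by rwa [Subgroup.relIndex_bot_left]) (by rwa [Subgroup.relIndex_bot_left])
    (by rwa [Subgroup.index_bot]) (fun i => hasProj_bot (ρ i))
    (fun i => exists_noncob_bot (ρ i) (h0 i) (h1 i))
    (by
      intro D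
      rw [← DoubleCoset.out_eq' K L D]
      exact card_fiber_ne K L ⊥ bot_le (by rwa [Subgroup.relIndex_bot_left]) _ (by
        intro t ht
        rw [Subgroup.mem_bot] at ht
        subst ht
        simp))
  have e5 : ∀ i, (hOne (ρ i) + ∑ j, finrank k (inv (ρ i) (H j))) *
        (hOne (ρ i) + 2 * finrank k (inv (ρ i) L)) +
        n * (hOne (ρ i) * finrank k (inv (ρ i) L)) ≤
        n * (finrank k (ZZ (ρ i) L) * finrank k (inv (ρ i) K) +
        finrank k (ZZ (ρ i) K) * finrank k (inv (ρ i) L)) := by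
    intro i
    have h5 : hOne (ρ i) + ∑ j, finrank k (inv (ρ i) (H j)) ≤ n * finrank k (inv (ρ i) K) := by
      have := e1 i
      have := e2 i
      nlinarith
    rw [← e2, ← e3]
    calc _ ≤ n * finrank k (inv (ρ i) K) * (hOne (ρ i) + 2 * finrank k (inv (ρ i) L)) +
          n * (hOne (ρ i) * finrank k (inv (ρ i) L)) := by gcongr
      _ = _ := by ring
  calc _ ≤ ∑ i, n * (finrank k (ZZ (ρ i) L) * finrank k (inv (ρ i) K) +
        finrank k (ZZ (ρ i) K) * finrank k (inv (ρ i) L)) + 2 * n := by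
        gcongr with i _
        exact e5 i
    _ = n * (∑ i, (finrank k (ZZ (ρ i) L) * finrank k (inv (ρ i) K) +
        finrank k (ZZ (ρ i) K) * finrank k (inv (ρ i) L)) + 2) := by
        rw [← Finset.mul_sum]; ring
    _ ≤ _ := Nat.mul_le_mul_left _ e4

end Run7.h98
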