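import Pool.Agent.Run7.h98.BNGen

/-!
The bound for groups with a split BN-pair.
-/

open Module

namespace Run7.h98

universe u v w

lemma relIndex_T_ne {k : Type u} [Field k] {G : Type v} [Group G] [Finite G] {ι : Type}
    {P : BNPair G ι} {U : Subgroup G} (hU : IsSplit P U) (hUc : (Nat.card U : k) ≠ 0) :
    ((P.B ⊓ P.N).relIndex P.B : k) ≠ 0 := by
  classical
  set T' := (P.B ⊓ P.N).subgroupOf P.B with hT'
  set U' := U.subgroupOf P.B with hU'
  have h1 : MulAction.orbit U' (QuotientGroup.mk 1 : P.B ⧸ T') = Set.univ := by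
    rw [Set.eq_univ_iff_forall]
    intro x
    induction x using QuotientGroup.induction_on with
    | H b =>
      obtain ⟨u, hu, t, ht, hb⟩ := hU.decomp b b.2
      rw [MulAction.mem_orbit_iff]
      refine ⟨⟨⟨u, hU.le hu⟩, Subgroup.mem_subgroupOf.2 hu⟩, ?_⟩
      show (QuotientGroup.mk ((⟨u, hU.le hu⟩ : P.B) * 1) : P.B ⧸ T') = QuotientGroup.mk b
      rw [QuotientGroup.eq, Subgroup.mem_subgroupOf]
      have : (((⟨u, hU.le hu⟩ : P.B) * 1)⁻¹ * b : P.B) = (⟨t, ht.1⟩ : P.B) := by
        apply Subtype.ext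
        simp [hb]
      rw [this]
      exact ht
  have h2 : (MulAction.stabilizer U' (QuotientGroup.mk 1 : P.B ⧸ T')).index =
      (P.B ⊓ P.N).relIndex P.B := by
    rw [MulAction.index_stabilizer, h1]
    show Set.ncard (Set.univ : Set (P.B ⧸ T')) = Nat.card (P.B ⧸ T')
    rw [Set.ncard_univ]
  intro h0
  apply hUc
  have h3 : Nat.card U' = Nat.card U :=
    Nat.card_congr (Subgroup.subgroupOfEquivOfLe hU.le).toEquiv
  obtain ⟨c, hc⟩ := Subgroup.index_dvd_card (MulAction.stabilizer U'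
    (QuotientGroup.mk 1 : P.B ⧸ T'))
  rw [← h3, hc, h2, Nat.cast_mul, h0, zero_mul]

lemma exists_noncob_of_lt {k : Type u} {G : Type v} {V : Type w} [Field k] [Group G] [Finite G]
    [AddCommGroup V] [Module k V] [FiniteDimensional k V] (ρ : Representation k G V)
    (B : Subgroup G) (h : finrank k (inv ρ B) < finrank k (ZZ ρ B)) :
    ∃ δ ∈ ZZ ρ B, ∀ v, cob ρ v ≠ δ := by
  by_contra hcon
  push Not at hcon
  have h3 : finrank k (ZZ ρ B) ≤ finrank k (inv ρ B) := by
    have h4 : ZZ ρ B ≤ (inv ρ B).map (cob ρ) := by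
      intro δ hδ
      obtain ⟨v, hv⟩ := hcon δ hδ
      refine ⟨v, ?_, hv⟩
      rw [← hv] at hδ
      exact (cob_mem_iff ρ).1 hδ
    exact (Submodule.finrank_mono h4).trans (Submodule.finrank_map_le _ _)
  omega

lemma finrank_inv_le_ZZ {k : Type u} {G : Type v} {V : Type w} [Field k] [Group G] [Finite G]
    [AddCommGroup V] [Module k V] [FiniteDimensional k V] (ρ : Representation k G V)
    (h0 : inv ρ ⊤ = ⊥) (B : Subgroup G) : finrank k (inv ρ B) ≤ finrank k (ZZ ρ B) := by
  let E : inv ρ B →ₗ[k] ZZ ρ B :=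
    { toFun := fun v => ⟨cob ρ v, cob_mem ρ v.2⟩
      map_add' := fun x y => by apply Subtype.ext; exact map_add _ _ _
      map_smul' := fun c x => by apply Subtype.ext; exact map_smul _ _ _ }
  have hE : Function.Injective E := by
    rw [← LinearMap.ker_eq_bot, eq_bot_iff]
    intro v hv
    rw [LinearMap.mem_ker] at hv
    have h3 : cob ρ (v : V) = 0 := congrArg Subtype.val hv
    have h4 : (v : V) ∈ inv ρ ⊤ := by
      intro g _
      have := congrFun h3 g
      rw [cob_apply, Pi.zero_apply, sub_eq_zero] at this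
      exact this
    rw [h0] at h4
    exact Subtype.ext h4
  exact LinearMap.finrank_le_finrank_of_injective hE

lemma dinv_ne_bot {k : Type u} {G : Type v} {V : Type w} [Field k] [Group G] [Finite G]
    [AddCommGroup V] [Module k V] [FiniteDimensional k V] {ρ : Representation k G V}
    {B : Subgroup G} (hE : HasProj ρ B) (hB : inv ρ B ≠ ⊥) : dinv ρ B ≠ ⊥ := by
  intro h
  have h1 := finrank_inv_le_dinv (le_refl B)
    (by rw [Subgroup.relIndex_self, Nat.cast_one]; exact one_ne_zero) hE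
  rw [h, finrank_bot] at h1
  apply hB
  exact Submodule.finrank_eq_zero.1 (by omega)

lemma relIndex_ne_of_le {k : Type u} [Field k] {G : Type v} [Group G] {A B C : Subgroup G}
    (hAB : A ≤ B) (hBC : B ≤ C) (h : (A.relIndex C : k) ≠ 0) :
    (A.relIndex B : k) ≠ 0 ∧ (B.relIndex C : k) ≠ 0 := by
  rw [← Subgroup.relIndex_mul_relIndex A B C hAB hBC, Nat.cast_mul] at h
  exact ⟨left_ne_zero_of_mul h, right_ne_zero_of_mul h⟩

open Classical in
/-- The contribution of a parabolic subgroup. -/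
noncomputable def tt {k : Type u} {G : Type v} {V : Type w} [Field k] [Group G]
    [AddCommGroup V] [Module k V] {ι : Type} (P : BNPair G ι) (ρ : Representation k G V)
    (J : Set ι) : ℕ :=
  if (P.B.relIndex (P.parabolic J) : k) = 0 then
    finrank k (inv ρ P.B) - finrank k (inv ρ (P.parabolic J)) else
    finrank k (inv ρ (P.parabolic J))

/-- The generation inequality in both cases. -/
lemma gen_both {k : Type u} {G : Type v} {V : Type w} [Field k] [Group G] [Finite G]
    [AddCommGroup V] [Module k V] [FiniteDimensional k V] {ι : Type} {P : BNPair G ι}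
    (ρ : Representation k G V)
    (hρ : Submodule.span k (Set.range fun g => (ρ g : V →ₗ[k] V)) = ⊤)
    (hd : dinv ρ P.B ≠ ⊥) {n : ℕ} (J : Fin (n + 1) → Set ι) (hJ : ∀ i, ∃ j, i ∈ J j)
    (K : Set ι)
    (hJK : (∀ j, K ⊆ J j ∧ (P.B.relIndex (P.parabolic (J j)) : k) ≠ 0) ∨
      (K = ∅ ∧ ∀ j, (P.B.relIndex (P.parabolic (J j)) : k) ≠ 0 ∨ ∃ i, J j = {i})) :
    finrank k (ZZ ρ (P.parabolic K)) + ∑ j, tt P ρ (J j) ≤
      (n + 1) * finrank k (inv ρ (P.parabolic K)) := by
  rcases hJK with h | ⟨rfl, h⟩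
  · have h1 := gen_le ρ (P.parabolic K) (fun j => P.parabolic (J j))
      (fun j => P.parabolic_mono (h j).1)
      (fun j => (relIndex_ne_of_le (P.B_le K) (P.parabolic_mono (h j).1) (h j).2).2) (by
        rw [eq_top_iff, ← P.closure_union_eq_top, Subgroup.closure_le]
        rintro x (⟨i, rfl⟩ | hx)
        · obtain ⟨j, hij⟩ := hJ i
          exact Subgroup.mem_iSup_of_mem j (P.s_mem_parabolic hij)
        · exact Subgroup.mem_iSup_of_mem 0 (P.B_le _ hx))
    rw [Fintype.card_fin] at h1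
    refine le_trans (le_of_eq ?_) h1
    congr 1
    refine Finset.sum_congr rfl fun j _ => ?_
    unfold tt
    rw [if_neg (h j).2]
  · have hemp : P.parabolic ∅ = P.B := by
      unfold BNPair.parabolic
      rw [Set.image_empty, Subgroup.closure_empty, sup_bot_eq]
    rw [hemp]
    have h1 := bn_gen_le ρ hρ hd J hJ h
    rw [Fintype.card_fin] at h1
    exact h1

/-- The bound, in internal form. -/
theorem thmB {k G : Type u} [Field k] [Group G] [Finite G] {ι : Type} (P : BNPair G ι)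
    {U : Subgroup G} (hU : IsSplit P U) (hUc : (Nat.card U : k) ≠ 0)
    {κ : Type} [Fintype κ] {V : κ → Type u} [∀ i, AddCommGroup (V i)] [∀ i, Module k (V i)]
    [∀ i, FiniteDimensional k (V i)] (ρ : ∀ i, Representation k G (V i))
    (hirr : ∀ i, AbsIrred (ρ i)) (hnt : ∀ i, ∃ g, ρ i g ≠ 1)
    (hne : ∀ i j, i ≠ j → IsEmpty (Representation.Equiv (ρ i) (ρ j)))
    (hB : ∀ i, inv (ρ i) P.B ≠ ⊥)
    {n : ℕ} (J : Fin (n + 1) → Set ι) (hJ : ∀ i, ∃ j, i ∈ J j) (K M : Set ι)
    (hK : (P.B.relIndex (P.parabolic K) : k) ≠ 0)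
    (hM : (P.B.relIndex (P.parabolic M) : k) ≠ 0)
    (hJK : (∀ j, K ⊆ J j ∧ (P.B.relIndex (P.parabolic (J j)) : k) ≠ 0) ∨
      (K = ∅ ∧ ∀ j, (P.B.relIndex (P.parabolic (J j)) : k) ≠ 0 ∨ ∃ i, J j = {i})) :
    ∃ c : κ → ℕ, (∀ i, c i ≤ hOne (ρ i)) ∧
      ∑ i, c i * finrank k (inv (ρ i) P.B) ≤ finrank k (Additive P.B →+ k) ∧
      ((∃ i, c i < hOne (ρ i)) →
        ∑ i with c i < hOne (ρ i), ((hOne (ρ i) - c i + ∑ j, tt P (ρ i) (J j)) *
          (hOne (ρ i) - c i + 2 * finrank k (inv (ρ i) (P.parabolic M))) +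
          n * ((hOne (ρ i) - c i) * finrank k (inv (ρ i) (P.parabolic M)))) + 2 * n ≤
        n * P.weylDoubleCosets K M) := by
  classical
  have hρ : ∀ i, Submodule.span k (Set.range fun g => (ρ i g : V i →ₗ[k] V i)) = ⊤ :=
    fun i => span_eq_top (ρ i) (hirr i)
  have h0 : ∀ i, inv (ρ i) ⊤ = ⊥ := fun i => inv_top_eq_bot (ρ i) (hρ i) (hnt i)
  have hntr : ∀ i, Nontrivial (V i) := by
    intro i
    obtain ⟨g, hg⟩ := hnt i
    by_contra hcon
    rw [not_nontrivial_iff_subsingleton] at hcon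
    apply hg
    ext v
    exact Subsingleton.elim _ _
  have hsep : ∀ i₀, ∃ r : MonoidAlgebra k G, (ρ i₀).asAlgebraHom r = 1 ∧
      ∀ j, j ≠ i₀ → (ρ j).asAlgebraHom r = 0 :=
    exists_sep ρ (fun i => isIrreducible_of_span (hρ i)) hne
  have hE : ∀ i, HasProj (ρ i) P.B := fun i => hasProj_B hU hUc (ρ i) (hρ i) (hB i)
  have hd : ∀ i, dinv (ρ i) P.B ≠ ⊥ := fun i => dinv_ne_bot (hE i) (hB i)
  have hzB : ∀ i, finrank k (inv (ρ i) P.B) ≤ finrank k (ZZ (ρ i) P.B) :=
    fun i => finrank_inv_le_ZZ (ρ i) (h0 i) P.B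
  have hUB : ∀ i, finrank k (inv (ρ i) U) = finrank k (inv (ρ i) P.B) := by
    intro i
    rw [le_antisymm (inv_U_le hU hUc (ρ i) (hρ i) (hB i)) (inv_mono hU.le)]
  have e1 : ∀ i, hOne (ρ i) + finrank k (inv (ρ i) P.B) =
      finrank k (ZZ (ρ i) P.B) + finrank k (RR (ρ i) U P.B) := by
    intro i
    rw [← finrank_ZZ_RR (ρ i) hU.le, ← hOne_add_inv (ρ i) (h0 i) U hUc, hUB]
  refine ⟨fun i => finrank k (RR (ρ i) U P.B), fun i => ?_,
    torus_bound ρ hρ hsep hU hUc hB, ?_⟩
  · show finrank k (RR (ρ i) U P.B) ≤ hOne (ρ i)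
    have := e1 i
    have := hzB i
    omega
  · rintro ⟨i₁, hi₁⟩
    let κ' := {i : κ // finrank k (RR (ρ i) U P.B) < hOne (ρ i)}
    have hlt : ∀ i : κ', finrank k (inv (ρ i.1) P.B) < finrank k (ZZ (ρ i.1) P.B) := by
      intro i
      have := e1 i.1
      have := i.2
      omega
    have hBidx : (P.B.index : k) = 0 := by
      by_contra hne0
      have e2 := finrank_ZZ_add (ρ := ρ i₁) (le_top : P.B ≤ ⊤)
        (by rwa [Subgroup.relIndex_top_right])
      have e3 : ZZ (ρ i₁) ⊤ = ⊥ := by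
        rw [eq_bot_iff]
        intro δ hδ
        rw [Submodule.mem_bot]
        funext g
        exact hδ.2 g (Subgroup.mem_top g)
      rw [e3, h0, finrank_bot, finrank_bot] at e2
      have := hlt ⟨i₁, hi₁⟩
      simp only at this
      omega
    have hT := relIndex_T_ne (k := k) hU hUc
    have hTK : ((P.B ⊓ P.N).relIndex (P.parabolic K) : k) ≠ 0 := by
      rw [← Subgroup.relIndex_mul_relIndex _ _ _ inf_le_left (P.B_le K), Nat.cast_mul]
      exact mul_ne_zero hT hK
    have e4 := pair_count (fun i : κ' => ρ i.1) (fun i => hρ i.1) (fun i => hnt i.1)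
      (fun i j hij => hne i.1 j.1 (fun h => hij (Subtype.ext h)))
      (P.B_le K) (P.B_le M) hK hM hBidx (fun i => hE i.1)
      (fun i => exists_noncob_of_lt (ρ i.1) P.B (hlt i))
      (by
        intro D
        obtain ⟨m, hm, b₁, h₁, b₂, h₂, h⟩ := P.bruhat D.out
        have hD : D = DoubleCoset.mk (P.parabolic K) (P.parabolic M) m := by
          conv_lhs => rw [← DoubleCoset.out_eq' _ _ D]
          rw [DoubleCoset.eq]
          exact ⟨b₁⁻¹, (P.parabolic K).inv_mem (P.B_le K h₁), b₂⁻¹,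
            (P.parabolic M).inv_mem (P.B_le M h₂), by rw [h]; group⟩
        rw [hD]
        exact card_fiber_ne _ _ (P.B ⊓ P.N) (inf_le_left.trans (P.B_le K)) hTK m
          (fun t ht => P.B_le M (P.conj_mem' hm ht).1))
    have e5 := e4.trans (P.card_doubleCoset_le K M)
    have e6 : ∀ i : κ', finrank k (ZZ (ρ i.1) (P.parabolic K)) =
        (hOne (ρ i.1) - finrank k (RR (ρ i.1) U P.B)) +
        finrank k (inv (ρ i.1) (P.parabolic K)) := by
      intro i
      have h1 := finrank_ZZ_add (ρ := ρ i.1) (P.B_le K) hK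
      have h2 := e1 i.1
      have h3 := i.2
      have h4 := hlt i
      omega
    have e7 : ∀ i : κ', finrank k (ZZ (ρ i.1) (P.parabolic M)) =
        (hOne (ρ i.1) - finrank k (RR (ρ i.1) U P.B)) +
        finrank k (inv (ρ i.1) (P.parabolic M)) := by
      intro i
      have h1 := finrank_ZZ_add (ρ := ρ i.1) (P.B_le M) hM
      have h2 := e1 i.1
      have h3 := i.2
      have h4 := hlt i
      omega
    have e8 : ∀ i : κ', (hOne (ρ i.1) - finrank k (RR (ρ i.1) U P.B) +
          ∑ j, tt P (ρ i.1) (J j)) *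
          (hOne (ρ i.1) - finrank k (RR (ρ i.1) U P.B) +
            2 * finrank k (inv (ρ i.1) (P.parabolic M))) +
          n * ((hOne (ρ i.1) - finrank k (RR (ρ i.1) U P.B)) *
            finrank k (inv (ρ i.1) (P.parabolic M))) ≤
        n * (finrank k (ZZ (ρ i.1) (P.parabolic M)) * finrank k (inv (ρ i.1) (P.parabolic K)) +
        finrank k (ZZ (ρ i.1) (P.parabolic K)) * finrank k (inv (ρ i.1) (P.parabolic M))) := by
      intro i
      have h1 := gen_both (ρ i.1) (hρ i.1) (hd i.1) J hJ K hJK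
      rw [e6 i] at h1
      rw [e6 i, e7 i]
      have h5 : (hOne (ρ i.1) - finrank k (RR (ρ i.1) U P.B)) + ∑ j, tt P (ρ i.1) (J j) ≤
          n * finrank k (inv (ρ i.1) (P.parabolic K)) := by
        nlinarith
      calc _ ≤ n * finrank k (inv (ρ i.1) (P.parabolic K)) *
            (hOne (ρ i.1) - finrank k (RR (ρ i.1) U P.B) +
            2 * finrank k (inv (ρ i.1) (P.parabolic M))) +
            n * ((hOne (ρ i.1) - finrank k (RR (ρ i.1) U P.B)) *
            finrank k (inv (ρ i.1) (P.parabolic M))) := by gcongr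
        _ = _ := by ring
    rw [Finset.sum_subtype (Finset.univ.filter
      (fun i => finrank k (RR (ρ i) U P.B) < hOne (ρ i)))
      (p := fun i => finrank k (RR (ρ i) U P.B) < hOne (ρ i)) (by intro x; simp)]
    calc _ ≤ ∑ i : κ', n * (finrank k (ZZ (ρ i.1) (P.parabolic M)) *
          finrank k (inv (ρ i.1) (P.parabolic K)) +
          finrank k (ZZ (ρ i.1) (P.parabolic K)) *
          finrank k (inv (ρ i.1) (P.parabolic M))) + 2 * n := by
          gcongr with i _
          exact e8 i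
      _ = n * (∑ i : κ', (finrank k (ZZ (ρ i.1) (P.parabolic M)) *
          finrank k (inv (ρ i.1) (P.parabolic K)) +
          finrank k (ZZ (ρ i.1) (P.parabolic K)) *
          finrank k (inv (ρ i.1) (P.parabolic M))) + 2) := by
          rw [← Finset.mul_sum]; ring
      _ ≤ _ := Nat.mul_le_mul_left _ e5

end Run7.h98
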